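import Mathlib
import Pool.Agent.Helper133.Brouwer

open Set Metric Topology
open scoped InnerProductSpace

namespace Pool.Agent.Helper133.Kill

/-- Three-dimensional complex Euclidean space. -/
abbrev V := EuclideanSpace ℂ (Fin 3)

/-- The operator `1 - z z*`. -/
noncomputable def P (z v : V) : V := v - ⟪z, v⟫_ℂ • z

/-- The operator `(1 - z₁ z₁*)(1 - z₂ z₂*)`. -/
noncomputable def B (z : V × V) (v : V) : V := P z.1 (P z.2 v)

lemma P_norm_le {z v : V} (hz : ‖z‖ ≤ 1) : ‖P z v‖ ≤ ‖v‖ := by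
  have h1 : ‖P z v‖ ^ 2 = ‖v‖ ^ 2 - 2 * ‖⟪z, v⟫_ℂ‖ ^ 2 + ‖⟪z, v⟫_ℂ‖ ^ 2 * ‖z‖ ^ 2 := by
    rw [P, @norm_sub_sq ℂ, inner_smul_right, norm_smul, mul_pow]
    have : RCLike.re (⟪z, v⟫_ℂ * ⟪v, z⟫_ℂ) = ‖⟪z, v⟫_ℂ‖ ^ 2 := by
      rw [← inner_conj_symm v z, RCLike.mul_conj]
      norm_cast
    rw [this]
  have h2 : ‖⟪z, v⟫_ℂ‖ ^ 2 * ‖z‖ ^ 2 ≤ ‖⟪z, v⟫_ℂ‖ ^ 2 * 1 := by
    apply mul_le_mul_of_nonneg_left _ (by positivity)
    exact pow_le_one₀ (norm_nonneg _) hz
  have h3 : ‖P z v‖ ^ 2 ≤ ‖v‖ ^ 2 := by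
    rw [h1]; nlinarith [sq_nonneg ‖⟪z, v⟫_ℂ‖]
  exact (pow_le_pow_iff_left₀ (norm_nonneg _) (norm_nonneg _) two_ne_zero).1 h3

/-- Normalisation of a vector. -/
noncomputable def nz (ε : ℝ) (w : V) : V := ((Real.sqrt (‖w‖ ^ 2 + ε ^ 2))⁻¹ : ℝ) • w

lemma nz_norm_le {ε : ℝ} (hε : 0 < ε) (w : V) : ‖nz ε w‖ ≤ 1 := by
  rw [nz, norm_smul, Real.norm_eq_abs, abs_of_nonneg (by positivity)]
  rw [inv_mul_le_iff₀ (by positivity), mul_one]
  apply Real.le_sqrt_of_sq_le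
  nlinarith [sq_nonneg ε]

lemma nz_continuous {ε : ℝ} (hε : 0 < ε) : Continuous (nz ε) := by
  unfold nz
  have : ∀ w : V, Real.sqrt (‖w‖ ^ 2 + ε ^ 2) ≠ 0 := fun w => by positivity
  fun_prop (disch := assumption)

lemma P_nz {ε : ℝ} (hε : 0 < ε) (w : V) : ‖P (nz ε w) w‖ ≤ ε := by
  have hs : 0 < ‖w‖ ^ 2 + ε ^ 2 := by positivity
  have h1 : P (nz ε w) w = ((ε ^ 2 / (‖w‖ ^ 2 + ε ^ 2) : ℝ) : ℂ) • w := by
    rw [P, nz]
    set c : ℝ := (Real.sqrt (‖w‖ ^ 2 + ε ^ 2))⁻¹ with hc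
    have hc2 : c * c * (‖w‖ ^ 2 + ε ^ 2) = 1 := by
      rw [hc, ← mul_inv, Real.mul_self_sqrt hs.le, inv_mul_cancel₀ hs.ne']
    have e1 : (c • w : V) = (c : ℂ) • w := by
      rw [← Complex.coe_smul]
    rw [e1, inner_smul_left, smul_smul, Complex.conj_ofReal, inner_self_eq_norm_sq_to_K]
    have e2 : w - ((c : ℂ) * (‖w‖ : ℂ) ^ 2 * (c : ℂ)) • w =
        ((1 - c * c * ‖w‖ ^ 2 : ℝ) : ℂ) • w := by
      push_cast
      rw [sub_smul, one_smul]
      congr 2
      ring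
    have e3 : (1 - c * c * ‖w‖ ^ 2 : ℝ) = ε ^ 2 / (‖w‖ ^ 2 + ε ^ 2) := by
      rw [eq_div_iff hs.ne']
      have : c * c * (‖w‖ ^ 2 + ε ^ 2) * ‖w‖ ^ 2 = ‖w‖ ^ 2 := by rw [hc2, one_mul]
      nlinarith
    rw [← e3]
    exact e2
  rw [h1, norm_smul, Complex.norm_real, Real.norm_eq_abs, abs_of_nonneg (by positivity),
    div_mul_eq_mul_div, div_le_iff₀ hs]
  nlinarith [sq_nonneg (‖w‖ - ε), norm_nonneg w, hε, mul_pos hε hε, mul_nonneg hε.le (norm_nonneg w),
    mul_nonneg (mul_nonneg hε.le hε.le) (norm_nonneg w), mul_nonneg hε.le (sq_nonneg (‖w‖ - ε))]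

lemma P_continuous : Continuous (fun p : V × V => P p.1 p.2) := by
  unfold P; fun_prop

lemma B_nz {ε : ℝ} (hε : 0 < ε) (w₁ w₂ : V) :
    ‖B (nz ε (P (nz ε w₁) w₂), nz ε w₁) w₁‖ ≤ ε ∧
    ‖B (nz ε (P (nz ε w₁) w₂), nz ε w₁) w₂‖ ≤ ε := by
  constructor
  · exact (P_norm_le (nz_norm_le hε _)).trans (P_nz hε _)
  · exact P_nz hε _

/-- The closed unit ball of `V`. -/
abbrev K := closedBall (0 : V) 1

/-- The parameter space: an infinite product of pairs of unit balls. -/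
abbrev X := ℕ → K × K

/-- Retraction of `V` onto its closed unit ball. -/
noncomputable def ret (z : V) : K :=
  ⟨((max 1 ‖z‖)⁻¹ : ℝ) • z, by
    rw [mem_closedBall_zero_iff, norm_smul, Real.norm_eq_abs, abs_of_nonneg (by positivity),
      inv_mul_le_iff₀ (by positivity), mul_one]
    exact le_max_right _ _⟩

lemma ret_continuous : Continuous ret := by
  unfold ret
  have : ∀ z : V, max 1 ‖z‖ ≠ 0 := fun z => by positivity
  refine Continuous.subtype_mk ?_ _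
  fun_prop (disch := assumption)

lemma ret_of_le {z : V} (hz : ‖z‖ ≤ 1) : (ret z : V) = z := by
  simp [ret, max_eq_left hz]

/-- The underlying pair of vectors. -/
def pr (t : K × K) : V × V := (t.1, t.2)

/-- The simultaneous approximate zero lemma. -/
theorem exists_kill (N : ℕ) (w₁ w₂ : X → ℕ → V) (h₁ : ∀ j, Continuous fun t => w₁ t j)
    (h₂ : ∀ j, Continuous fun t => w₂ t j) {ε : ℝ} (hε : 0 < ε) :
    ∃ t : X, ∀ j < N, ‖B (pr (t j)) (w₁ t j)‖ ≤ ε ∧ ‖B (pr (t j)) (w₂ t j)‖ ≤ ε := by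
  classical
  let ext : (Fin N → V × V) → X := fun y j =>
    if h : j < N then (ret (y ⟨j, h⟩).1, ret (y ⟨j, h⟩).2) else (ret 0, ret 0)
  have hext : Continuous ext := by
    refine continuous_pi fun j => ?_
    by_cases h : j < N
    · simp only [ext, h, dif_pos]
      exact ((ret_continuous.comp (continuous_fst.comp (continuous_apply _))).prodMk
        (ret_continuous.comp (continuous_snd.comp (continuous_apply _))))
    · simp only [ext, h, dif_neg, not_false_eq_true]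
      exact continuous_const
  let Φ : (Fin N → V × V) → (Fin N → V × V) := fun y j =>
    (nz ε (P (nz ε (w₁ (ext y) j)) (w₂ (ext y) j)), nz ε (w₁ (ext y) j))
  have hΦ : Continuous Φ := by
    refine continuous_pi fun j => ?_
    have c1 : Continuous fun y => w₁ (ext y) j := (h₁ j).comp hext
    have c2 : Continuous fun y => w₂ (ext y) j := (h₂ j).comp hext
    exact ((nz_continuous hε).comp (P_continuous.comp
      (((nz_continuous hε).comp c1).prodMk c2))).prodMk ((nz_continuous hε).comp c1)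
  have hb : ∀ y, ‖Φ y‖ ≤ 1 := by
    intro y
    rw [pi_norm_le_iff_of_nonneg zero_le_one]
    intro j
    rw [Prod.norm_def]
    exact max_le (nz_norm_le hε _) (nz_norm_le hε _)
  obtain ⟨y, hy⟩ := Brouwer.brouwer Φ hΦ 1 hb
  refine ⟨ext y, fun j hj => ?_⟩
  have hyj : y ⟨j, hj⟩ = (nz ε (P (nz ε (w₁ (ext y) j)) (w₂ (ext y) j)), nz ε (w₁ (ext y) j)) :=
    (congrFun hy ⟨j, hj⟩).symm
  have hpr : pr (ext y j) =
      (nz ε (P (nz ε (w₁ (ext y) j)) (w₂ (ext y) j)), nz ε (w₁ (ext y) j)) := by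
    have e1 : ext y j = (ret (y ⟨j, hj⟩).1, ret (y ⟨j, hj⟩).2) := by
      simp only [ext, hj, dif_pos]
    rw [pr, e1]
    ext1
    · simp only
      rw [hyj, ret_of_le (nz_norm_le hε _)]
    · simp only
      rw [hyj, ret_of_le (nz_norm_le hε _)]
  rw [hpr]
  exact B_nz hε _ _

/-- The standard orthonormal basis of `V`. -/
noncomputable def bs : OrthonormalBasis (Fin 3) ℂ V := EuclideanSpace.basisFun (Fin 3) ℂ

lemma B_trace (z : V × V) :
    ∑ s, ⟪bs s, B z (bs s)⟫_ℂ =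
      ((3 - ‖z.1‖ ^ 2 - ‖z.2‖ ^ 2 + ‖⟪z.1, z.2⟫_ℂ‖ ^ 2 : ℝ) : ℂ) := by
  have h : ∀ s, ⟪bs s, B z (bs s)⟫_ℂ = 1 - ⟪z.2, bs s⟫_ℂ * ⟪bs s, z.2⟫_ℂ
      - ⟪z.1, bs s⟫_ℂ * ⟪bs s, z.1⟫_ℂ + ⟪z.1, z.2⟫_ℂ * (⟪z.2, bs s⟫_ℂ * ⟪bs s, z.1⟫_ℂ) := by
    intro s
    have h1 : ⟪bs s, bs s⟫_ℂ = 1 := by
      rw [inner_self_eq_norm_sq_to_K, bs.norm_eq_one]
      simp
    simp only [B, P, inner_sub_right, inner_smul_right, h1]
    ring
  simp_rw [h]
  rw [Finset.sum_add_distrib, Finset.sum_sub_distrib, Finset.sum_sub_distrib, ← Finset.mul_sum,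
    bs.sum_inner_mul_inner, bs.sum_inner_mul_inner, bs.sum_inner_mul_inner]
  have e1 : ⟪z.1, z.2⟫_ℂ * ⟪z.2, z.1⟫_ℂ = ((‖⟪z.1, z.2⟫_ℂ‖ ^ 2 : ℝ) : ℂ) := by
    rw [← inner_conj_symm z.2 z.1, RCLike.mul_conj]
    norm_cast
  rw [e1, inner_self_eq_norm_sq_to_K, inner_self_eq_norm_sq_to_K]
  simp
  ring

lemma B_lower (z : V × V) (h₁ : ‖z.1‖ ≤ 1) (h₂ : ‖z.2‖ ≤ 1) :
    1 / 3 ≤ ∑ s, ‖B z (bs s)‖ ^ 2 := by
  have h1 : (1 : ℝ) ≤ ∑ s, ‖B z (bs s)‖ := by
    calc (1 : ℝ) ≤ 3 - ‖z.1‖ ^ 2 - ‖z.2‖ ^ 2 + ‖⟪z.1, z.2⟫_ℂ‖ ^ 2 := by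
          have a1 : ‖z.1‖ ^ 2 ≤ 1 := pow_le_one₀ (norm_nonneg _) h₁
          have a2 : ‖z.2‖ ^ 2 ≤ 1 := pow_le_one₀ (norm_nonneg _) h₂
          nlinarith [sq_nonneg ‖⟪z.1, z.2⟫_ℂ‖]
      _ ≤ ‖∑ s, ⟪bs s, B z (bs s)⟫_ℂ‖ := by
          rw [B_trace, Complex.norm_real]
          exact le_abs_self _
      _ ≤ ∑ s, ‖⟪bs s, B z (bs s)⟫_ℂ‖ := norm_sum_le _ _
      _ ≤ ∑ s, ‖B z (bs s)‖ := by
          refine Finset.sum_le_sum fun s _ => ?_
          calc ‖⟪bs s, B z (bs s)⟫_ℂ‖ ≤ ‖bs s‖ * ‖B z (bs s)‖ := norm_inner_le_norm _ _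
            _ = ‖B z (bs s)‖ := by rw [bs.norm_eq_one, one_mul]
  rw [Fin.sum_univ_three] at h1 ⊢
  nlinarith [sq_nonneg (‖B z (bs 0)‖ - ‖B z (bs 1)‖), sq_nonneg (‖B z (bs 0)‖ - ‖B z (bs 2)‖),
    sq_nonneg (‖B z (bs 1)‖ - ‖B z (bs 2)‖)]

lemma pr_norm (t : K × K) : ‖(pr t).1‖ ≤ 1 ∧ ‖(pr t).2‖ ≤ 1 :=
  ⟨mem_closedBall_zero_iff.1 t.1.2, mem_closedBall_zero_iff.1 t.2.2⟩

lemma pr_continuous : Continuous pr := by
  unfold pr; fun_prop

lemma B_continuous : Continuous (fun p : (V × V) × V => B p.1 p.2) := by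
  unfold B
  exact P_continuous.comp (((continuous_fst.comp continuous_fst)).prodMk
    (P_continuous.comp ((continuous_snd.comp continuous_fst).prodMk continuous_snd)))

lemma B_norm_le (t : K × K) (v : V) : ‖B (pr t) v‖ ≤ ‖v‖ :=
  (P_norm_le (pr_norm t).1).trans (P_norm_le (pr_norm t).2)

lemma B_sum {ι : Type*} (z : V × V) (s : Finset ι) (c : ι → ℂ) (v : ι → V) :
    B z (∑ i ∈ s, c i • v i) = ∑ i ∈ s, c i • B z (v i) := by
  have hP : ∀ (z : V) (w : ι → V), P z (∑ i ∈ s, c i • w i) = ∑ i ∈ s, c i • P z (w i) := by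
    intro z w
    simp only [P, inner_sum, inner_smul_right, smul_sub, Finset.sum_sub_distrib, Finset.sum_smul,
      smul_smul]
  rw [B, hP, hP]
  rfl

/-- The Hilbert space. -/
noncomputable abbrev H := lp (fun _ : Option ℕ => V) 2

/-- The index set of the generating vector fields. -/
abbrev U := Option (ℕ × Fin 3)

/-- The distinguished unit vector. -/
noncomputable def e : H := lp.single 2 none (bs 0)

/-- The generating vector fields. -/
noncomputable def β : U → C(X, H)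
  | none => ⟨fun _ => e, continuous_const⟩
  | some (j, s) => ⟨fun t => lp.single 2 (some j) (B (pr (t j)) (bs s)), by
      refine (lp.isometry_single (some j)).continuous.comp ?_
      exact B_continuous.comp ((pr_continuous.comp (continuous_apply j)).prodMk continuous_const)⟩

lemma e_norm : ‖e‖ = 1 := by
  rw [e, lp.norm_single (by norm_num), bs.norm_eq_one]

/-- A vector field is approximable by finite continuous combinations of the generating fields. -/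
def Approx {X H U : Type*} [TopologicalSpace X] [NormedAddCommGroup H] [NormedSpace ℂ H]
    (β : U → C(X, H)) (ξ : X → H) : Prop :=
  ∀ δ > 0, ∃ (F : Finset U) (c : U → C(X, ℂ)), ∀ t, ‖ξ t - ∑ u ∈ F, c u t • β u t‖ ≤ δ

/-- The block coefficient vector attached to a finite combination. -/
noncomputable def wv (F : Finset U) (c : U → C(X, ℂ)) (t : X) (j : ℕ) : V :=
  ∑ s : Fin 3, (if some (j, s) ∈ F then c (some (j, s)) t else 0) • bs s

lemma wv_continuous (F : Finset U) (c : U → C(X, ℂ)) (j : ℕ) :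
    Continuous fun t => wv F c t j := by
  unfold wv
  refine continuous_finsetSum _ fun s _ => ?_
  by_cases h : some (j, s) ∈ F
  · simp only [h, if_true]
    exact (c (some (j, s))).continuous.smul continuous_const
  · simp only [h, if_false]; exact continuous_const

lemma sum_eq (F : Finset U) (c : U → C(X, ℂ)) (N : ℕ)
    (hN : ∀ j s, some (j, s) ∈ F → j < N) (t : X) :
    ∑ u ∈ F, c u t • β u t = (if none ∈ F then c none t else 0) • e +
      ∑ j ∈ Finset.range N, (lp.single 2 (some j) (B (pr (t j)) (wv F c t j)) : H) := by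
  classical
  set F' : Finset U := Finset.insertNone (Finset.range N ×ˢ (Finset.univ : Finset (Fin 3))) with hF'
  have hsub : F ⊆ F' := by
    intro u hu
    cases u with
    | none => simp [hF']
    | some p =>
      obtain ⟨j, s⟩ := p
      simp [hF', hN j s hu]
  have h1 : ∑ u ∈ F, c u t • β u t = ∑ u ∈ F', (if u ∈ F then c u t else 0) • β u t := by
    rw [← Finset.sum_subset hsub]
    · refine Finset.sum_congr rfl fun u hu => ?_
      rw [if_pos hu]
    · intro u _ hu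
      rw [if_neg hu, zero_smul]
  rw [h1, hF', Finset.sum_insertNone, Finset.sum_product]
  congr 1
  refine Finset.sum_congr rfl fun j _ => ?_
  rw [wv, B_sum]
  have : ∀ (f : Fin 3 → V), (lp.single 2 (some j) (∑ s, f s) : H) =
      ∑ s, (lp.single 2 (some j) (f s) : H) := by
    intro f
    exact map_sum (lp.singleAddMonoidHom (E := fun _ : Option ℕ => V) 2 (some j)) _ _
  rw [this]
  refine Finset.sum_congr rfl fun s _ => ?_
  rw [lp.single_smul]
  rfl

/-- The key topological fact: two approximable vector fields have a common approximate point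
where they are multiples of `e`. -/
theorem kill (ξ₁ ξ₂ : X → H) (h₁ : Approx β ξ₁) (h₂ : Approx β ξ₂) {δ : ℝ} (hδ : 0 < δ) :
    ∃ t, ‖ξ₁ t - ⟪e, ξ₁ t⟫_ℂ • e‖ ≤ δ ∧ ‖ξ₂ t - ⟪e, ξ₂ t⟫_ℂ • e‖ ≤ δ := by
  classical
  obtain ⟨F₁, c₁, hc₁⟩ := h₁ (δ / 4) (by positivity)
  obtain ⟨F₂, c₂, hc₂⟩ := h₂ (δ / 4) (by positivity)
  obtain ⟨N, hN⟩ : ∃ N : ℕ, ∀ j s, some (j, s) ∈ F₁ ∪ F₂ → j < N := by
    let g : U → ℕ := fun u => match u with
      | none => 0
      | some (j, _) => j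
    refine ⟨(F₁ ∪ F₂).sup g + 1, fun j s hjs => ?_⟩
    have := Finset.le_sup (f := g) hjs
    exact Nat.lt_succ_of_le this
  set ε : ℝ := δ / (4 * (N + 1)) with hε
  have hεpos : 0 < ε := by positivity
  obtain ⟨t, ht⟩ := exists_kill N (wv F₁ c₁) (wv F₂ c₂) (wv_continuous F₁ c₁)
    (wv_continuous F₂ c₂) hεpos
  have key : ∀ (F : Finset U) (c : U → C(X, ℂ)) (ξ : X → H),
      (∀ j s, some (j, s) ∈ F → j < N) → ‖ξ t - ∑ u ∈ F, c u t • β u t‖ ≤ δ / 4 →
      (∀ j < N, ‖B (pr (t j)) (wv F c t j)‖ ≤ ε) → ‖ξ t - ⟪e, ξ t⟫_ℂ • e‖ ≤ δ := by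
    intro F c ξ hF hξ hk
    set α : ℂ := if none ∈ F then c none t else 0 with hα
    have h3 : ‖ξ t - α • e‖ ≤ δ / 2 := by
      have e1 : ξ t - α • e = (ξ t - ∑ u ∈ F, c u t • β u t) +
          ∑ j ∈ Finset.range N, (lp.single 2 (some j) (B (pr (t j)) (wv F c t j)) : H) := by
        rw [sum_eq F c N hF t]
        abel
      rw [e1]
      calc _ ≤ ‖ξ t - ∑ u ∈ F, c u t • β u t‖ +
            ‖∑ j ∈ Finset.range N, (lp.single 2 (some j) (B (pr (t j)) (wv F c t j)) : H)‖ :=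
            norm_add_le _ _
        _ ≤ δ / 4 + N * ε := by
            refine add_le_add hξ ?_
            calc _ ≤ ∑ j ∈ Finset.range N,
                  ‖(lp.single 2 (some j) (B (pr (t j)) (wv F c t j)) : H)‖ := norm_sum_le _ _
              _ ≤ ∑ j ∈ Finset.range N, ε := by
                  refine Finset.sum_le_sum fun j hj => ?_
                  rw [lp.norm_single (by norm_num)]
                  exact hk j (Finset.mem_range.1 hj)
              _ = N * ε := by simp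
        _ ≤ δ / 4 + δ / 4 := by
            have : (N : ℝ) * ε ≤ δ / 4 := by
              rw [hε, mul_div_assoc', div_le_div_iff₀ (by positivity) (by positivity)]
              nlinarith
            linarith
        _ = δ / 2 := by ring
    have e2 : ξ t - ⟪e, ξ t⟫_ℂ • e = (ξ t - α • e) - ⟪e, ξ t - α • e⟫_ℂ • e := by
      have he : ⟪e, e⟫_ℂ = 1 := by
        rw [inner_self_eq_norm_sq_to_K, e_norm]; simp
      rw [inner_sub_right, inner_smul_right, he, mul_one, sub_smul]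
      abel
    rw [e2]
    calc _ ≤ ‖ξ t - α • e‖ + ‖⟪e, ξ t - α • e⟫_ℂ • e‖ := norm_sub_le _ _
      _ ≤ ‖ξ t - α • e‖ + ‖ξ t - α • e‖ := by
          gcongr
          rw [norm_smul, e_norm, mul_one]
          calc _ ≤ ‖e‖ * ‖ξ t - α • e‖ := norm_inner_le_norm _ _
            _ = _ := by rw [e_norm, one_mul]
      _ ≤ δ / 2 + δ / 2 := add_le_add h3 h3
      _ = δ := by ring
  exact ⟨t, key F₁ c₁ ξ₁ (fun j s h => hN j s (Finset.mem_union_left _ h)) (hc₁ t)
      (fun j hj => (ht j hj).1),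
    key F₂ c₂ ξ₂ (fun j s h => hN j s (Finset.mem_union_right _ h)) (hc₂ t)
      (fun j hj => (ht j hj).2)⟩

lemma inner_e_self : ⟪e, e⟫_ℂ = 1 := by
  rw [inner_self_eq_norm_sq_to_K, e_norm]; simp

lemma β_none (t : X) : β none t = e := rfl

lemma β_norm_le (u : U) (t : X) : ‖β u t‖ ≤ 1 := by
  cases u with
  | none => rw [β_none, e_norm]
  | some p =>
    obtain ⟨j, s⟩ := p
    show ‖(lp.single 2 (some j) (B (pr (t j)) (bs s)) : H)‖ ≤ 1
    rw [lp.norm_single (by norm_num)]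
    exact (B_norm_le _ _).trans (by rw [bs.norm_eq_one])

/-- Far out there are always three mutually controlled fields, orthogonal to given ones. -/
theorem far (F : Finset U) : ∃ G : Finset U, G.card ≤ 3 ∧
    (∀ u ∈ F, ∀ v ∈ G, ∀ t, ⟪β u t, β v t⟫_ℂ = 0) ∧
    ∀ t, 1 / 3 ≤ ∑ v ∈ G, ‖β v t‖ ^ 2 := by
  classical
  obtain ⟨N, hN⟩ : ∃ N : ℕ, ∀ j s, some (j, s) ∈ F → j < N := by
    let g : U → ℕ := fun u => match u with
      | none => 0
      | some (j, _) => j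
    refine ⟨F.sup g + 1, fun j s hjs => ?_⟩
    have := Finset.le_sup (f := g) hjs
    exact Nat.lt_succ_of_le this
  refine ⟨Finset.univ.image fun s : Fin 3 => some (N, s), ?_, ?_, ?_⟩
  · exact Finset.card_image_le.trans (by simp)
  · intro u hu v hv t
    rw [Finset.mem_image] at hv
    obtain ⟨s, _, rfl⟩ := hv
    show ⟪β u t, (lp.single 2 (some N) (B (pr (t N)) (bs s)) : H)⟫_ℂ = 0
    rw [lp.inner_single_right]
    cases u with
    | none =>
      have : (β none t) (some N) = 0 := by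
        show (lp.single 2 none (bs 0) : H) (some N) = 0
        exact lp.single_apply_ne _ _ _ (by simp)
      rw [this, inner_zero_left]
    | some p =>
      obtain ⟨j, s'⟩ := p
      have hj := hN j s' hu
      have : (β (some (j, s')) t) (some N) = 0 := by
        show (lp.single 2 (some j) (B (pr (t j)) (bs s')) : H) (some N) = 0
        exact lp.single_apply_ne _ _ _ (by simp; omega)
      rw [this, inner_zero_left]
  · intro t
    rw [Finset.sum_image (by intro a _ b _ h; simpa using h)]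
    have : ∀ s : Fin 3, ‖β (some (N, s)) t‖ ^ 2 = ‖B (pr (t N)) (bs s)‖ ^ 2 := by
      intro s
      show ‖(lp.single 2 (some N) (B (pr (t N)) (bs s)) : H)‖ ^ 2 = _
      rw [lp.norm_single (by norm_num)]
    simp_rw [this]
    exact B_lower _ (pr_norm _).1 (pr_norm _).2

end Pool.Agent.Helper133.Kill
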