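import Mathlib
import Pool.Agent.Helper133.Kill

open Set Metric Topology TopologicalSpace
open scoped InnerProductSpace BoundedContinuousFunction
open InnerProductSpace (rankOne)

set_option linter.unusedSectionVars false

namespace Pool.Agent.Helper133.Alg

variable {X : Type} [TopologicalSpace X] [CompactSpace X]
variable {H : Type} [NormedAddCommGroup H] [InnerProductSpace ℂ H] [CompleteSpace H]
variable {U : Type}

/-- The ambient C*-algebra of bounded continuous operator-valued functions. -/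
abbrev D (X : Type) [TopologicalSpace X] (H : Type) [NormedAddCommGroup H]
    [InnerProductSpace ℂ H] := (ℕ × X) →ᵇ (H →L[ℂ] H)

/-- Place a function on the `n`-th copy of `X`. -/
noncomputable def sgl (n : ℕ) (F : C(X, H →L[ℂ] H)) : D X H :=
  BoundedContinuousFunction.ofNormedAddCommGroup (fun p : ℕ × X => if p.1 = n then F p.2 else 0)
    (by
      rw [continuous_prod_of_discrete_left]
      intro m
      by_cases h : m = n
      · simp only [h, if_true]; exact F.continuous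
      · simp only [h, if_false]; exact continuous_const)
    ‖F‖ (by
      intro p
      by_cases h : p.1 = n
      · simp only [h, if_true]; exact F.norm_coe_le_norm _
      · simp only [h, if_false]; rw [norm_zero]; exact norm_nonneg F)

lemma sgl_apply (n : ℕ) (F : C(X, H →L[ℂ] H)) (m : ℕ) (t : X) :
    sgl n F (m, t) = if m = n then F t else 0 := rfl

variable (β : U → C(X, H))

/-- The rank one operator field `f |β_u⟩⟨β_v|`. -/
noncomputable def ro (f : C(X, ℂ)) (u v : U) : C(X, H →L[ℂ] H) :=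
  ⟨fun t => f t • rankOne ℂ (β u t) (β v t), by
    have h1 : Continuous fun t => f t := f.continuous
    have h2 : Continuous fun t => β u t := (β u).continuous
    have h3 : Continuous fun t => β v t := (β v).continuous
    have h5 : Continuous fun t => rankOne ℂ (β u t) (β v t) := by
      simp_rw [InnerProductSpace.rankOne_def]
      fun_prop
    exact h1.smul h5⟩

/-- The generators. -/
noncomputable def gen (n : ℕ) (f : C(X, ℂ)) (u v : U) : D X H := sgl n (ro β f u v)

lemma gen_apply (n : ℕ) (f : C(X, ℂ)) (u v : U) (m : ℕ) (t : X) :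
    gen β n f u v (m, t) = if m = n then f t • rankOne ℂ (β u t) (β v t) else 0 := rfl

lemma gen_star (n : ℕ) (f : C(X, ℂ)) (u v : U) : star (gen β n f u v) = gen β n (star f) v u := by
  ext1 p
  obtain ⟨m, t⟩ := p
  rw [BoundedContinuousFunction.star_apply, gen_apply, gen_apply]
  by_cases h : m = n
  · simp only [h, if_true, ContinuousMap.star_apply]
    rw [star_smul, ContinuousLinearMap.star_eq_adjoint, InnerProductSpace.adjoint_rankOne]
  · simp [h]

/-- The Gram function. -/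
noncomputable def gram (u v : U) : C(X, ℂ) :=
  ⟨fun t => ⟪β u t, β v t⟫_ℂ, by
    have h2 : Continuous fun t => β u t := (β u).continuous
    have h3 : Continuous fun t => β v t := (β v).continuous
    fun_prop⟩

lemma gen_mul (n : ℕ) (f : C(X, ℂ)) (u v : U) (n' : ℕ) (f' : C(X, ℂ)) (u' v' : U) :
    gen β n f u v * gen β n' f' u' v' =
      if n = n' then gen β n (f * f' * gram β v u') u v' else 0 := by
  ext1 p
  obtain ⟨m, t⟩ := p
  rw [BoundedContinuousFunction.mul_apply, gen_apply, gen_apply]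
  by_cases h : n = n'
  · subst h
    simp only [if_true]
    rw [gen_apply]
    by_cases h2 : m = n
    · simp only [h2, if_true]
      rw [smul_mul_smul_comm, ContinuousLinearMap.mul_def, InnerProductSpace.rankOne_comp_rankOne,
        smul_smul]
      rfl
    · simp [h2]
  · simp only [h, if_false]
    by_cases h2 : m = n
    · have : m ≠ n' := fun h3 => h (h2 ▸ h3)
      simp [this]
    · simp [h2]

/-- The generating set. -/
def G : Set (D X H) := {a | ∃ n f u v, a = gen β n f u v}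

/-- The linear span of the generators. -/
noncomputable def S : Submodule ℂ (D X H) := Submodule.span ℂ (G β)

lemma gen_mem_S (n : ℕ) (f : C(X, ℂ)) (u v : U) : gen β n f u v ∈ S β :=
  Submodule.subset_span ⟨n, f, u, v, rfl⟩

variable {β}

lemma S_mul {a b : D X H} (ha : a ∈ S β) (hb : b ∈ S β) : a * b ∈ S β := by
  refine Submodule.span_induction (p := fun a _ => a * b ∈ S β) ?_ ?_ ?_ ?_ ha
  · rintro _ ⟨n, f, u, v, rfl⟩
    refine Submodule.span_induction (p := fun b _ => gen β n f u v * b ∈ S β) ?_ ?_ ?_ ?_ hb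
    · rintro _ ⟨n', f', u', v', rfl⟩
      rw [gen_mul]
      by_cases h : n = n'
      · simp only [h, if_true]; exact gen_mem_S _ _ _ _ _
      · simp only [h, if_false]; exact (S β).zero_mem
    · rw [mul_zero]; exact (S β).zero_mem
    · intro x y _ _ hx hy; rw [mul_add]; exact (S β).add_mem hx hy
    · intro c x _ hx; rw [mul_smul_comm]; exact (S β).smul_mem c hx
  · rw [zero_mul]; exact (S β).zero_mem
  · intro x y _ _ hx hy; rw [add_mul]; exact (S β).add_mem hx hy
  · intro c x _ hx; rw [smul_mul_assoc]; exact (S β).smul_mem c hx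

lemma S_star {a : D X H} (ha : a ∈ S β) : star a ∈ S β := by
  refine Submodule.span_induction (p := fun a _ => star a ∈ S β) ?_ ?_ ?_ ?_ ha
  · rintro _ ⟨n, f, u, v, rfl⟩
    rw [gen_star]; exact gen_mem_S _ _ _ _ _
  · rw [star_zero]; exact (S β).zero_mem
  · intro x y _ _ hx hy; rw [star_add]; exact (S β).add_mem hx hy
  · intro c x _ hx; rw [star_smul]; exact (S β).smul_mem _ hx

variable (β)

/-- The dense star subalgebra. -/
noncomputable def pre : NonUnitalStarSubalgebra ℂ (D X H) where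
  carrier := S β
  add_mem' := fun ha hb => (S β).add_mem ha hb
  zero_mem' := (S β).zero_mem
  mul_mem' := fun ha hb => S_mul ha hb
  smul_mem' := fun c _ ha => (S β).smul_mem c ha
  star_mem' := fun ha => S_star ha

/-- The C*-algebra as a closed star subalgebra. -/
noncomputable def AA : NonUnitalStarSubalgebra ℂ (D X H) := (pre β).topologicalClosure

instance AA_closed : IsClosed (AA β : Set (D X H)) := (pre β).isClosed_topologicalClosure

/-- The C*-algebra. -/
abbrev A : Type := ↥(AA β)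

noncomputable example : NonUnitalCStarAlgebra (A β) := inferInstance

lemma gen_mem (n : ℕ) (f : C(X, ℂ)) (u v : U) : gen β n f u v ∈ AA β :=
  (pre β).le_topologicalClosure (gen_mem_S β n f u v)

/-- Generators as elements of `A`. -/
noncomputable def g (n : ℕ) (f : C(X, ℂ)) (u v : U) : A β := ⟨gen β n f u v, gen_mem β n f u v⟩

variable {β}

lemma exists_approx (a : A β) {δ : ℝ} (hδ : 0 < δ) : ∃ b ∈ S β, ‖(a : D X H) - b‖ < δ := by
  have h : (a : D X H) ∈ closure (S β : Set (D X H)) := a.2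
  obtain ⟨b, hb, hab⟩ := Metric.mem_closure_iff.1 h δ hδ
  exact ⟨b, hb, by rwa [dist_eq_norm] at hab⟩

lemma closure_induction {p : D X H → Prop} (hS : ∀ b ∈ S β, p b)
    (hlim : ∀ a : D X H, (∀ δ > 0, ∃ b, p b ∧ ‖a - b‖ < δ) → p a) (a : A β) : p a := by
  refine hlim _ fun δ hδ => ?_
  obtain ⟨b, hb, hab⟩ := exists_approx a hδ
  exact ⟨b, hS b hb, hab⟩

/-! ### Separability -/

lemma gen_norm_le (n : ℕ) (f : C(X, ℂ)) (u v : U) (hβ : ∀ u t, ‖β u t‖ ≤ 1) :
    ‖gen β n f u v‖ ≤ ‖f‖ := by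
  rw [BoundedContinuousFunction.norm_le (norm_nonneg _)]
  rintro ⟨m, t⟩
  rw [gen_apply]
  by_cases h : m = n
  · simp only [h, if_true]
    rw [norm_smul, InnerProductSpace.norm_rankOne]
    calc ‖f t‖ * (‖β u t‖ * ‖β v t‖) ≤ ‖f‖ * (1 * 1) := by
          gcongr
          · exact f.norm_coe_le_norm t
          · exact hβ u t
          · exact hβ v t
      _ = ‖f‖ := by ring
  · simp only [h, if_false, norm_zero]; exact norm_nonneg _

lemma gen_sub (n : ℕ) (f f' : C(X, ℂ)) (u v : U) :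
    gen β n f u v - gen β n f' u v = gen β n (f - f') u v := by
  ext1 p
  obtain ⟨m, t⟩ := p
  rw [BoundedContinuousFunction.sub_apply, gen_apply, gen_apply, gen_apply]
  by_cases h : m = n
  · simp only [h, if_true, ContinuousMap.sub_apply, sub_smul]
  · simp [h]

lemma gen_smul (c : ℂ) (n : ℕ) (f : C(X, ℂ)) (u v : U) :
    c • gen β n f u v = gen β n (c • f) u v := by
  ext1 p
  obtain ⟨m, t⟩ := p
  rw [BoundedContinuousFunction.smul_apply, gen_apply, gen_apply]
  by_cases h : m = n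
  · simp only [h, if_true, ContinuousMap.smul_apply, smul_smul, smul_eq_mul]
  · simp [h]

lemma gen_continuous (n : ℕ) (u v : U) (hβ : ∀ u t, ‖β u t‖ ≤ 1) :
    Continuous fun f : C(X, ℂ) => gen β n f u v := by
  refine LipschitzWith.continuous (K := 1) (LipschitzWith.of_dist_le_mul fun f f' => ?_)
  rw [dist_eq_norm, dist_eq_norm, gen_sub, NNReal.coe_one, one_mul]
  exact gen_norm_le n _ u v hβ

lemma separable [MetrizableSpace X] [SecondCountableTopology X] [Countable U]
    (hβ : ∀ u t, ‖β u t‖ ≤ 1) : SeparableSpace (A β) := by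
  have h1 : IsSeparable (G β) := by
    have : G β = ⋃ (n : ℕ) (u : U) (v : U), range fun f : C(X, ℂ) => gen β n f u v := by
      ext a
      simp only [G, mem_ofPred_eq, mem_iUnion, mem_range]
      constructor
      · rintro ⟨n, f, u, v, rfl⟩; exact ⟨n, u, v, f, rfl⟩
      · rintro ⟨n, u, v, f, rfl⟩; exact ⟨n, f, u, v, rfl⟩
    rw [this]
    refine IsSeparable.iUnion fun n => IsSeparable.iUnion fun u => IsSeparable.iUnion fun v => ?_
    exact isSeparable_range (gen_continuous n u v hβ)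
  have h2 : IsSeparable (S β : Set (D X H)) := h1.span
  have h3 : IsSeparable (AA β : Set (D X H)) := h2.closure
  exact h3.separableSpace

/-! ### Approximation of the vector fields `t ↦ a (n, t) w` -/

open Kill (Approx)

lemma Approx.limit {ξ : X → H} (h : ∀ δ > 0, ∃ η : X → H, Approx β η ∧ ∀ t, ‖ξ t - η t‖ ≤ δ) :
    Approx β ξ := by
  intro δ hδ
  obtain ⟨η, hη, h1⟩ := h (δ / 2) (by positivity)
  obtain ⟨F, c, h2⟩ := hη (δ / 2) (by positivity)
  refine ⟨F, c, fun t => ?_⟩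
  calc ‖ξ t - ∑ u ∈ F, c u t • β u t‖ = ‖(ξ t - η t) + (η t - ∑ u ∈ F, c u t • β u t)‖ := by
        congr 1; abel
    _ ≤ ‖ξ t - η t‖ + ‖η t - ∑ u ∈ F, c u t • β u t‖ := norm_add_le _ _
    _ ≤ δ / 2 + δ / 2 := add_le_add (h1 t) (h2 t)
    _ = δ := by ring

lemma Approx.zero : Approx β (fun _ => (0 : H)) := by
  intro δ hδ
  exact ⟨∅, fun _ => 0, fun t => by simp [hδ.le]⟩

lemma Approx.single (f : C(X, ℂ)) (u : U) : Approx β (fun t => f t • β u t) := by
  intro δ hδ
  exact ⟨{u}, fun _ => f, fun t => by simp [hδ.le]⟩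

lemma Approx.add {ξ η : X → H} (h1 : Approx β ξ) (h2 : Approx β η) :
    Approx β (fun t => ξ t + η t) := by
  classical
  intro δ hδ
  obtain ⟨F₁, c₁, h1⟩ := h1 (δ / 2) (by positivity)
  obtain ⟨F₂, c₂, h2⟩ := h2 (δ / 2) (by positivity)
  refine ⟨F₁ ∪ F₂, fun u => (if u ∈ F₁ then c₁ u else 0) + (if u ∈ F₂ then c₂ u else 0),
    fun t => ?_⟩
  have e1 : ∑ u ∈ F₁ ∪ F₂, ((if u ∈ F₁ then c₁ u else 0) + (if u ∈ F₂ then c₂ u else 0) :
      C(X, ℂ)) t • β u t = ∑ u ∈ F₁, c₁ u t • β u t + ∑ u ∈ F₂, c₂ u t • β u t := by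
    have a1 : ∑ u ∈ F₁, c₁ u t • β u t =
        ∑ u ∈ F₁ ∪ F₂, (if u ∈ F₁ then c₁ u else 0 : C(X, ℂ)) t • β u t := by
      rw [← Finset.sum_subset Finset.subset_union_left]
      · exact Finset.sum_congr rfl fun u hu => by rw [if_pos hu]
      · intro u _ hu; rw [if_neg hu]; simp
    have a2 : ∑ u ∈ F₂, c₂ u t • β u t =
        ∑ u ∈ F₁ ∪ F₂, (if u ∈ F₂ then c₂ u else 0 : C(X, ℂ)) t • β u t := by
      rw [← Finset.sum_subset Finset.subset_union_right]
      · exact Finset.sum_congr rfl fun u hu => by rw [if_pos hu]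
      · intro u _ hu; rw [if_neg hu]; simp
    rw [a1, a2, ← Finset.sum_add_distrib]
    refine Finset.sum_congr rfl fun u _ => ?_
    rw [ContinuousMap.add_apply, add_smul]
  rw [e1]
  calc _ = ‖(ξ t - ∑ u ∈ F₁, c₁ u t • β u t) + (η t - ∑ u ∈ F₂, c₂ u t • β u t)‖ :=
        congrArg _ (add_sub_add_comm _ _ _ _)
    _ ≤ _ := norm_add_le _ _
    _ ≤ δ / 2 + δ / 2 := add_le_add (h1 t) (h2 t)
    _ = δ := by ring

lemma Approx.smul {ξ : X → H} (k : ℂ) (h1 : Approx β ξ) : Approx β (fun t => k • ξ t) := by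
  intro δ hδ
  obtain ⟨F, c, h⟩ := h1 (δ / (‖k‖ + 1)) (by positivity)
  refine ⟨F, fun u => k • c u, fun t => ?_⟩
  have : k • ξ t - ∑ u ∈ F, (k • c u) t • β u t = k • (ξ t - ∑ u ∈ F, c u t • β u t) := by
    rw [smul_sub, Finset.smul_sum]
    congr 1
    refine Finset.sum_congr rfl fun u _ => ?_
    rw [ContinuousMap.smul_apply, smul_smul, smul_eq_mul]
  rw [this, norm_smul]
  calc ‖k‖ * ‖ξ t - ∑ u ∈ F, c u t • β u t‖ ≤ ‖k‖ * (δ / (‖k‖ + 1)) := by gcongr; exact h t
    _ ≤ (‖k‖ + 1) * (δ / (‖k‖ + 1)) := by gcongr; linarith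
    _ = δ := by field_simp

lemma approx_S {b : D X H} (hb : b ∈ S β) (n : ℕ) (w : H) : Approx β (fun t => b (n, t) w) := by
  refine Submodule.span_induction (p := fun b _ => Approx β (fun t => b (n, t) w)) ?_ ?_ ?_ ?_ hb
  · rintro _ ⟨m, f, u, v, rfl⟩
    by_cases h : n = m
    · have : (fun t => gen β m f u v (n, t) w) =
          fun t => (f * ⟨fun t => ⟪β v t, w⟫_ℂ, by
            have h3 : Continuous fun t => β v t := (β v).continuous
            fun_prop⟩ : C(X, ℂ)) t • β u t := by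
        funext t
        rw [gen_apply, if_pos h]
        simp only [smul_apply, InnerProductSpace.rankOne_apply, ContinuousMap.mul_apply,
          ContinuousMap.coe_mk, smul_smul]
      rw [this]
      exact Approx.single _ _
    · have : (fun t => gen β m f u v (n, t) w) = fun _ => (0 : H) := by
        funext t
        rw [gen_apply, if_neg h]
        rfl
      rw [this]; exact Approx.zero
  · exact Approx.zero
  · intro x y _ _ hx hy; exact Approx.add hx hy
  · intro c x _ hx; exact Approx.smul c hx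

lemma approx_A (a : A β) (n : ℕ) (w : H) : Approx β (fun t => (a : D X H) (n, t) w) := by
  refine Approx.limit fun δ hδ => ?_
  obtain ⟨b, hb, hab⟩ := exists_approx a (δ := δ / (‖w‖ + 1)) (by positivity)
  refine ⟨_, approx_S hb n w, fun t => ?_⟩
  calc ‖(a : D X H) (n, t) w - b (n, t) w‖ = ‖((a : D X H) - b) (n, t) w‖ := rfl
    _ ≤ ‖((a : D X H) - b) (n, t)‖ * ‖w‖ := ContinuousLinearMap.le_opNorm _ _
    _ ≤ (δ / (‖w‖ + 1)) * (‖w‖ + 1) := by
        gcongr
        · exact (BoundedContinuousFunction.norm_coe_le_norm _ _).trans hab.le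
        · linarith
    _ = δ := by field_simp

/-! ### Elements vanish at infinity in the first variable -/

lemma vanish_S {b : D X H} (hb : b ∈ S β) : ∃ N : ℕ, ∀ n ≥ N, ∀ t, b (n, t) = 0 := by
  refine Submodule.span_induction
    (p := fun b _ => ∃ N : ℕ, ∀ n ≥ N, ∀ t, b (n, t) = 0) ?_ ?_ ?_ ?_ hb
  · rintro _ ⟨m, f, u, v, rfl⟩
    refine ⟨m + 1, fun n hn t => ?_⟩
    rw [gen_apply, if_neg (by omega)]
  · exact ⟨0, fun _ _ _ => rfl⟩
  · rintro x y _ _ ⟨N, hN⟩ ⟨M, hM⟩
    refine ⟨max N M, fun n hn t => ?_⟩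
    rw [BoundedContinuousFunction.add_apply, hN n (le_trans (le_max_left _ _) hn) t,
      hM n (le_trans (le_max_right _ _) hn) t, add_zero]
  · rintro c x _ ⟨N, hN⟩
    refine ⟨N, fun n hn t => ?_⟩
    rw [BoundedContinuousFunction.smul_apply, hN n hn t, smul_zero]

lemma vanish_A (a : A β) {δ : ℝ} (hδ : 0 < δ) : ∃ N : ℕ, ∀ n ≥ N, ∀ t, ‖(a : D X H) (n, t)‖ ≤ δ := by
  obtain ⟨b, hb, hab⟩ := exists_approx a hδ
  obtain ⟨N, hN⟩ := vanish_S hb
  refine ⟨N, fun n hn t => ?_⟩
  have : (a : D X H) (n, t) = ((a : D X H) - b) (n, t) := by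
    rw [BoundedContinuousFunction.sub_apply, hN n hn t, sub_zero]
  rw [this]
  exact (BoundedContinuousFunction.norm_coe_le_norm _ _).trans hab.le

/-! ### The distinguished projections -/

lemma gram_base {u0 : U} {e : H} (he : ‖e‖ = 1) (h0 : ∀ t, β u0 t = e) : gram β u0 u0 = 1 := by
  ext t
  show ⟪β u0 t, β u0 t⟫_ℂ = 1
  rw [h0, inner_self_eq_norm_sq_to_K, he]; simp

lemma g_star (n : ℕ) (f : C(X, ℂ)) (u v : U) : star (g β n f u v) = g β n (star f) v u :=
  Subtype.ext (gen_star β n f u v)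

lemma g_mul (n : ℕ) (f : C(X, ℂ)) (u v : U) (f' : C(X, ℂ)) (u' v' : U) :
    g β n f u v * g β n f' u' v' = g β n (f * f' * gram β v u') u v' := by
  apply Subtype.ext
  show gen β n f u v * gen β n f' u' v' = _
  rw [gen_mul, if_pos rfl]
  rfl

lemma p_star (n : ℕ) (u0 : U) : star (g β n 1 u0 u0) = g β n 1 u0 u0 := by
  rw [g_star, star_one]

lemma p_mul (n : ℕ) {u0 : U} {e : H} (he : ‖e‖ = 1) (h0 : ∀ t, β u0 t = e) :
    g β n 1 u0 u0 * g β n 1 u0 u0 = g β n 1 u0 u0 := by
  rw [g_mul, gram_base he h0]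
  simp

lemma p_apply (n : ℕ) {u0 : U} {e : H} (he : ‖e‖ = 1) (h0 : ∀ t, β u0 t = e) (t : X) :
    (g β n 1 u0 u0 : D X H) (n, t) e = e := by
  show gen β n 1 u0 u0 (n, t) e = e
  rw [gen_apply, if_pos rfl, h0]
  simp only [ContinuousMap.one_apply, one_smul, InnerProductSpace.rankOne_apply]
  rw [inner_self_eq_norm_sq_to_K, he]; simp

lemma coe_mul_apply (a b : A β) (q : ℕ × X) (w : H) :
    ((a * b : A β) : D X H) q w = (a : D X H) q ((b : D X H) q w) := rfl

lemma coe_star_inner (a : A β) (q : ℕ × X) (v w : H) :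
    ⟪v, ((star a : A β) : D X H) q w⟫_ℂ = ⟪(a : D X H) q v, w⟫_ℂ := by
  show ⟪v, (star (a : D X H)) q w⟫_ℂ = _
  rw [BoundedContinuousFunction.star_apply, ContinuousLinearMap.star_eq_adjoint,
    ContinuousLinearMap.adjoint_inner_right]

open scoped MultiplierAlgebra

/-- The key algebraic computation with a double centralizer. -/
lemma centralizer_relations {B : Type*} [NonUnitalCStarAlgebra B] (x : 𝓜(ℂ, B)) (c d p : B)
    (hxx : x * x = (c : 𝓜(ℂ, B))) (hx : star x * x + x * star x - 1 = (d : 𝓜(ℂ, B)))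
    (hp : p * p = p) (hps : star p = p) :
    ∃ a₁ a₂ : B, star a₂ * a₁ = p * c * p ∧ star a₁ * a₁ + star a₂ * a₂ - p = p * d * p ∧
      p * a₁ = star a₂ * p := by
  have hL : x.fst (x.fst p) = c * p := by
    have := congrArg (fun y : 𝓜(ℂ, B) => y.fst p) hxx
    simpa using this
  have hD : star (x.snd (star (x.fst p))) + x.fst (star (x.snd (star p))) - p = d * p := by
    have := congrArg (fun y : 𝓜(ℂ, B) => y.fst p) hx
    simpa using! this
  rw [hps] at hD
  have c1 : ∀ y z : B, x.snd y * z = y * x.fst z := x.central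
  refine ⟨x.fst p * p, star (x.snd p) * p, ?_, ?_, ?_⟩
  · rw [star_mul, star_star, hps]
    calc p * x.snd p * (x.fst p * p) = p * (x.snd p * x.fst p) * p := by noncomm_ring
      _ = p * (p * x.fst (x.fst p)) * p := by rw [c1]
      _ = (p * p) * x.fst (x.fst p) * p := by noncomm_ring
      _ = p * (c * p) * p := by rw [hp, hL]
      _ = p * c * (p * p) := by noncomm_ring
      _ = p * c * p := by rw [hp]
  · have e1 : p * star (x.snd (star (x.fst p))) = star (x.fst p) * x.fst p := by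
      have h := c1 (star (x.fst p)) p
      have h2 := congrArg star h
      rw [star_mul, star_mul, star_star, hps] at h2
      exact h2
    have e2 : p * x.fst (star (x.snd p)) = x.snd p * star (x.snd p) := (c1 _ _).symm
    have h3 : p * (p * (star (x.snd (star (x.fst p))) + x.fst (star (x.snd p)) - p)) * p =
        p * (p * (d * p)) * p := by rw [hD]
    have h4 : p * (p * (star (x.snd (star (x.fst p))) + x.fst (star (x.snd p)) - p)) * p =
        p * (p * star (x.snd (star (x.fst p)))) * p + p * (p * x.fst (star (x.snd p))) * p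
          - p * (p * p) * p := by noncomm_ring
    rw [h4, e1, e2] at h3
    rw [star_mul, star_mul, star_star, hps]
    calc p * star (x.fst p) * (x.fst p * p) + p * x.snd p * (star (x.snd p) * p) - p
        = p * (star (x.fst p) * x.fst p) * p + p * (x.snd p * star (x.snd p)) * p - p := by
          noncomm_ring
      _ = p * (star (x.fst p) * x.fst p) * p + p * (x.snd p * star (x.snd p)) * p
          - p * (p * p) * p := by rw [hp, hp, hp]
      _ = p * (p * (d * p)) * p := h3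
      _ = (p * p) * d * (p * p) := by noncomm_ring
      _ = p * d * p := by rw [hp]
  · rw [star_mul, star_star, hps]
    calc p * (x.fst p * p) = (p * x.fst p) * p := by rw [mul_assoc]
      _ = x.snd p * p * p := by rw [← c1]
      _ = (p * x.fst p) * p := by rw [c1]
      _ = ((p * p) * x.fst p) * p := by rw [hp]
      _ = p * (p * x.fst p) * p := by rw [mul_assoc p p]
      _ = p * (x.snd p * p) * p := by rw [← c1]
      _ = p * x.snd p * (p * p) := by noncomm_ring
      _ = p * x.snd p * p := by rw [hp]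

/-- No element of the multiplier algebra satisfies the relations of the matrix unit `e₁₂`
modulo `A`. -/
theorem no_M2 {u0 : U} {e : H} (he : ‖e‖ = 1) (h0 : ∀ t, β u0 t = e)
    (hkill : ∀ ξ₁ ξ₂ : X → H, Approx β ξ₁ → Approx β ξ₂ → ∀ δ > 0,
      ∃ t, ‖ξ₁ t - ⟪e, ξ₁ t⟫_ℂ • e‖ ≤ δ ∧ ‖ξ₂ t - ⟪e, ξ₂ t⟫_ℂ • e‖ ≤ δ)
    (x : 𝓜(ℂ, A β)) (c d : A β) (hxx : x * x = (c : 𝓜(ℂ, A β)))
    (hx : star x * x + x * star x - 1 = (d : 𝓜(ℂ, A β))) : False := by
  obtain ⟨N₁, hN₁⟩ := vanish_A c (δ := 1 / 100) (by norm_num)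
  obtain ⟨N₂, hN₂⟩ := vanish_A d (δ := 1 / 100) (by norm_num)
  set n := max N₁ N₂ with hn
  have hcn := hN₁ n (le_max_left _ _)
  have hdn := hN₂ n (le_max_right _ _)
  set p : A β := g β n 1 u0 u0 with hp
  obtain ⟨a₁, a₂, r1, r2, r3⟩ := centralizer_relations x c d p hxx hx (p_mul n he h0)
    (p_star n u0)
  have pe : ∀ t, (p : D X H) (n, t) e = e := fun t => p_apply n he h0 t
  have pein : ∀ t (v : H), ⟪e, (p : D X H) (n, t) v⟫_ℂ = ⟪e, v⟫_ℂ := by
    intro t v
    have h := coe_star_inner p (n, t) e v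
    rw [p_star n u0] at h
    rw [← hp] at h
    rw [h, pe]
  set ξ₁ : X → H := fun t => (a₁ : D X H) (n, t) e with hξ₁
  set ξ₂ : X → H := fun t => (a₂ : D X H) (n, t) e with hξ₂
  obtain ⟨t, ht1, ht2⟩ := hkill ξ₁ ξ₂ (approx_A a₁ n e) (approx_A a₂ n e) (1 / 100) (by norm_num)
  -- relation 1
  have q1 : ‖⟪ξ₂ t, ξ₁ t⟫_ℂ‖ ≤ 1 / 100 := by
    have h := congrArg (fun y : A β => ⟪e, (y : D X H) (n, t) e⟫_ℂ) r1
    simp only [coe_mul_apply, coe_star_inner, pe, pein] at h
    rw [hξ₁, hξ₂]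
    rw [h]
    calc ‖⟪e, (c : D X H) (n, t) e⟫_ℂ‖ ≤ ‖e‖ * ‖(c : D X H) (n, t) e‖ := norm_inner_le_norm _ _
      _ ≤ ‖e‖ * (‖(c : D X H) (n, t)‖ * ‖e‖) := by
          gcongr; exact ContinuousLinearMap.le_opNorm _ _
      _ ≤ 1 * (1 / 100 * 1) := by rw [he]; gcongr; exact hcn t
      _ = 1 / 100 := by norm_num
  have q2 : |‖ξ₁ t‖ ^ 2 + ‖ξ₂ t‖ ^ 2 - 1| ≤ 1 / 100 := by
    have h := congrArg (fun y : A β => ⟪e, (y : D X H) (n, t) e⟫_ℂ) r2
    have h' : ⟪ξ₁ t, ξ₁ t⟫_ℂ + ⟪ξ₂ t, ξ₂ t⟫_ℂ - ⟪e, e⟫_ℂ = ⟪e, (d : D X H) (n, t) e⟫_ℂ := by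
      have e1 : ((star a₁ * a₁ + star a₂ * a₂ - p : A β) : D X H) (n, t) e =
          ((star a₁ * a₁ : A β) : D X H) (n, t) e + ((star a₂ * a₂ : A β) : D X H) (n, t) e -
            (p : D X H) (n, t) e := rfl
      simp only [e1, inner_sub_right, inner_add_right, coe_mul_apply, coe_star_inner, pe,
        pein] at h
      exact h
    rw [inner_self_eq_norm_sq_to_K, inner_self_eq_norm_sq_to_K, inner_self_eq_norm_sq_to_K, he] at h'
    have h2 : ‖((‖ξ₁ t‖ ^ 2 + ‖ξ₂ t‖ ^ 2 - 1 : ℝ) : ℂ)‖ ≤ 1 / 100 := by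
      have e2 : ((‖ξ₁ t‖ ^ 2 + ‖ξ₂ t‖ ^ 2 - 1 : ℝ) : ℂ) = ⟪e, (d : D X H) (n, t) e⟫_ℂ := by
        rw [← h']; push_cast; simp
      rw [e2]
      calc ‖⟪e, (d : D X H) (n, t) e⟫_ℂ‖ ≤ ‖e‖ * ‖(d : D X H) (n, t) e‖ := norm_inner_le_norm _ _
        _ ≤ ‖e‖ * (‖(d : D X H) (n, t)‖ * ‖e‖) := by
            gcongr; exact ContinuousLinearMap.le_opNorm _ _
        _ ≤ 1 * (1 / 100 * 1) := by rw [he]; gcongr; exact hdn t
        _ = 1 / 100 := by norm_num
    rwa [Complex.norm_real, Real.norm_eq_abs] at h2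
  have q3 : ⟪e, ξ₁ t⟫_ℂ = ⟪ξ₂ t, e⟫_ℂ := by
    have h := congrArg (fun y : A β => ⟪e, (y : D X H) (n, t) e⟫_ℂ) r3
    simp only [coe_mul_apply, coe_star_inner, pe, pein] at h
    exact h
  -- orthogonal decomposition
  set α₁ : ℂ := ⟪e, ξ₁ t⟫_ℂ with hα₁
  set α₂ : ℂ := ⟪e, ξ₂ t⟫_ℂ with hα₂
  have hα : ‖α₂‖ = ‖α₁‖ := by
    rw [q3, hα₂, norm_inner_symm]
  set ρ₁ := ξ₁ t - α₁ • e with hρ₁
  set ρ₂ := ξ₂ t - α₂ • e with hρ₂
  have hee : ⟪e, e⟫_ℂ = 1 := by rw [inner_self_eq_norm_sq_to_K, he]; simp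
  have o1 : ⟪e, ρ₁⟫_ℂ = 0 := by
    rw [hρ₁, inner_sub_right, inner_smul_right, hee, mul_one, ← hα₁, sub_self]
  have o2 : ⟪e, ρ₂⟫_ℂ = 0 := by
    rw [hρ₂, inner_sub_right, inner_smul_right, hee, mul_one, ← hα₂, sub_self]
  have o2' : ⟪ρ₂, e⟫_ℂ = 0 := by rw [← inner_conj_symm, o2, map_zero]
  have d1 : ξ₁ t = α₁ • e + ρ₁ := by rw [hρ₁]; abel
  have d2 : ξ₂ t = α₂ • e + ρ₂ := by rw [hρ₂]; abel
  have n1 : ‖ξ₁ t‖ ^ 2 = ‖α₁‖ ^ 2 + ‖ρ₁‖ ^ 2 := by
    rw [d1, @norm_add_sq ℂ, inner_smul_left, o1, norm_smul, he]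
    simp
  have n2 : ‖ξ₂ t‖ ^ 2 = ‖α₂‖ ^ 2 + ‖ρ₂‖ ^ 2 := by
    rw [d2, @norm_add_sq ℂ, inner_smul_left, o2, norm_smul, he]
    simp
  have i1 : ⟪ξ₂ t, ξ₁ t⟫_ℂ = (starRingEnd ℂ) α₂ * α₁ + ⟪ρ₂, ρ₁⟫_ℂ := by
    rw [d1, d2, inner_add_left, inner_add_right, inner_add_right, inner_smul_left,
      inner_smul_right, inner_smul_left, inner_smul_right, hee, o1, o2']
    ring
  have m1 : ‖⟪ρ₂, ρ₁⟫_ℂ‖ ≤ 1 / 100 * (1 / 100) :=
    (norm_inner_le_norm _ _).trans (mul_le_mul ht2 ht1 (norm_nonneg _) (by norm_num))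
  have m2 : ‖α₁‖ ^ 2 ≤ 1 / 100 + 1 / 100 * (1 / 100) := by
    have : (starRingEnd ℂ) α₂ * α₁ = ⟪ξ₂ t, ξ₁ t⟫_ℂ - ⟪ρ₂, ρ₁⟫_ℂ := by rw [i1]; ring
    have h2 : ‖(starRingEnd ℂ) α₂ * α₁‖ = ‖α₁‖ ^ 2 := by
      rw [norm_mul, RCLike.norm_conj, hα]; ring
    rw [← h2, this]
    exact (norm_sub_le _ _).trans (add_le_add q1 m1)
  have m3 : ‖ρ₁‖ ^ 2 ≤ (1 / 100) ^ 2 := pow_le_pow_left₀ (norm_nonneg _) ht1 2
  have m4 : ‖ρ₂‖ ^ 2 ≤ (1 / 100) ^ 2 := pow_le_pow_left₀ (norm_nonneg _) ht2 2
  rw [n1, n2, hα] at q2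
  have := (abs_le.1 q2).1
  nlinarith

/-! ### No unital quotients -/

lemma support_S {b : D X H} (hb : b ∈ S β) : ∃ F : Finset U, ∀ (q : ℕ × X) (w : H),
    (∀ v ∈ F, ⟪β v q.2, w⟫_ℂ = 0) → b q w = 0 := by
  classical
  refine Submodule.span_induction (p := fun b _ => ∃ F : Finset U, ∀ (q : ℕ × X) (w : H),
    (∀ v ∈ F, ⟪β v q.2, w⟫_ℂ = 0) → b q w = 0) ?_ ?_ ?_ ?_ hb
  · rintro _ ⟨m, f, u, v, rfl⟩
    refine ⟨{v}, ?_⟩
    rintro ⟨k, t⟩ w h
    rw [gen_apply]
    by_cases hk : k = m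
    · rw [if_pos hk]
      simp only [smul_apply, InnerProductSpace.rankOne_apply]
      rw [h v (Finset.mem_singleton_self v), zero_smul, smul_zero]
    · rw [if_neg hk]; rfl
  · exact ⟨∅, fun _ _ _ => rfl⟩
  · rintro x y _ _ ⟨F, hF⟩ ⟨F', hF'⟩
    refine ⟨F ∪ F', fun q w h => ?_⟩
    show x q w + y q w = 0
    rw [hF q w (fun v hv => h v (Finset.mem_union_left _ hv)),
      hF' q w (fun v hv => h v (Finset.mem_union_right _ hv)), add_zero]
  · rintro c x _ ⟨F, hF⟩
    refine ⟨F, fun q w h => ?_⟩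
    show c • x q w = 0
    rw [hF q w h, smul_zero]

lemma g_norm_le (n : ℕ) (f : C(X, ℂ)) (u v : U) (hβ : ∀ u t, ‖β u t‖ ≤ 1) :
    ‖g β n f u v‖ ≤ ‖f‖ := gen_norm_le n f u v hβ

/-- A closed two-sided ideal modulo which there is a left unit is everything. -/
theorem no_unital_quotient {u0 : U} {e : H} (he : ‖e‖ = 1) (h0 : ∀ t, β u0 t = e)
    (hβ : ∀ u t, ‖β u t‖ ≤ 1)
    (hfar : ∀ F : Finset U, ∃ F' : Finset U, F'.card ≤ 3 ∧
      (∀ u ∈ F, ∀ v ∈ F', ∀ t, ⟪β u t, β v t⟫_ℂ = 0) ∧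
      ∀ t, 1 / 3 ≤ ∑ v ∈ F', ‖β v t‖ ^ 2)
    (I : TwoSidedIdeal (A β)) (hI : IsClosed (I : Set (A β))) (y : A β)
    (hy : ∀ a : A β, y * a - a ∈ I) : I = ⊤ := by
  classical
  -- the projections lie in `I`
  have hpI : ∀ n, g β n 1 u0 u0 ∈ I := by
    intro n
    have hcl : g β n 1 u0 u0 ∈ closure (I : Set (A β)) := by
      rw [Metric.mem_closure_iff]
      intro ε hε
      obtain ⟨b, hb, hyb⟩ := exists_approx y (δ := ε / 10) (by positivity)
      obtain ⟨F, hF⟩ := support_S hb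
      obtain ⟨F', hcard, horth, hlow⟩ := hfar F
      -- the continuous function `1 / ∑ ‖β v t‖²`
      have hpos : ∀ t, 0 < ∑ v ∈ F', ‖β v t‖ ^ 2 := fun t => lt_of_lt_of_le (by norm_num) (hlow t)
      have hcont : Continuous fun t : X => ((∑ v ∈ F', ‖β v t‖ ^ 2)⁻¹ : ℝ) := by
        refine Continuous.inv₀ ?_ (fun t => (hpos t).ne')
        refine continuous_finsetSum _ fun v _ => ?_
        exact ((β v).continuous.norm).pow 2
      set k : C(X, ℂ) := ⟨fun t => (((∑ v ∈ F', ‖β v t‖ ^ 2)⁻¹ : ℝ) : ℂ),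
        Complex.continuous_ofReal.comp hcont⟩ with hk
      have hknorm : ‖k‖ ≤ 3 := by
        rw [ContinuousMap.norm_le _ (by norm_num)]
        intro t
        show ‖(((∑ v ∈ F', ‖β v t‖ ^ 2)⁻¹ : ℝ) : ℂ)‖ ≤ 3
        rw [Complex.norm_real, Real.norm_eq_abs, abs_of_pos (inv_pos.2 (hpos t)),
          inv_le_comm₀ (hpos t) (by norm_num)]
        calc (3 : ℝ)⁻¹ = 1 / 3 := by norm_num
          _ ≤ _ := hlow t
      -- the identity `∑ q a_v* a_v = p`
      have hid : ∑ v ∈ F', g β n k u0 u0 * (star (g β n 1 v u0) * g β n 1 v u0) =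
          g β n 1 u0 u0 := by
        apply Subtype.ext
        have e1 : ((∑ v ∈ F', g β n k u0 u0 * (star (g β n 1 v u0) * g β n 1 v u0) : A β) : D X H)
            = ∑ v ∈ F', gen β n (k * gram β v v) u0 u0 := by
          rw [AddSubmonoidClass.coe_finsetSum]
          refine Finset.sum_congr rfl fun v _ => ?_
          rw [g_star, g_mul, g_mul, gram_base he h0]
          simp only [star_one, mul_one, one_mul]
          rfl
        rw [e1]
        ext1 q
        obtain ⟨m, t⟩ := q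
        rw [BoundedContinuousFunction.sum_apply]
        show _ = gen β n 1 u0 u0 (m, t)
        simp only [gen_apply]
        by_cases hm : m = n
        · simp only [hm, if_true, ContinuousMap.mul_apply, ContinuousMap.one_apply, one_smul]
          rw [← Finset.sum_smul, ← Finset.mul_sum]
          have e2 : ∑ v ∈ F', (gram β v v) t = ((∑ v ∈ F', ‖β v t‖ ^ 2 : ℝ) : ℂ) := by
            push_cast
            refine Finset.sum_congr rfl fun v _ => ?_
            show ⟪β v t, β v t⟫_ℂ = _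
            rw [inner_self_eq_norm_sq_to_K]; simp
          rw [e2]
          have e3 : k t * ((∑ v ∈ F', ‖β v t‖ ^ 2 : ℝ) : ℂ) = 1 := by
            show (((∑ v ∈ F', ‖β v t‖ ^ 2)⁻¹ : ℝ) : ℂ) * ((∑ v ∈ F', ‖β v t‖ ^ 2 : ℝ) : ℂ) = 1
            rw [← Complex.ofReal_mul, inv_mul_cancel₀ (hpos t).ne', Complex.ofReal_one]
          rw [e3, one_smul]
        · simp [hm]
      set z : A β := ∑ v ∈ F', g β n k u0 u0 *
        (star (g β n 1 v u0) * (g β n 1 v u0 - y * g β n 1 v u0)) with hz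
      have hzI : z ∈ I := by
        refine sum_mem fun v _ => ?_
        refine I.mul_mem_left _ _ (I.mul_mem_left _ _ ?_)
        have h := I.neg_mem (hy (g β n 1 v u0))
        have e : (-(y * g β n 1 v u0 - g β n 1 v u0) : A β) =
          g β n 1 v u0 - y * g β n 1 v u0 := Subtype.ext (neg_sub _ _)
        convert! h using 1
        exact e.symm
      refine ⟨z, hzI, ?_⟩
      have hidD : ∑ v ∈ F', gen β n k u0 u0 * (star (gen β n 1 v u0) * gen β n 1 v u0) =
          gen β n 1 u0 u0 := by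
        have h := congrArg (fun a : A β => (a : D X H)) hid
        simp only [AddSubmonoidClass.coe_finsetSum] at h
        exact h
      have hdiff : gen β n 1 u0 u0 - (z : D X H) =
          ∑ v ∈ F', gen β n k u0 u0 * (star (gen β n 1 v u0) * ((y : D X H) * gen β n 1 v u0)) := by
        have hzc : (z : D X H) = ∑ v ∈ F', gen β n k u0 u0 *
            (star (gen β n 1 v u0) * (gen β n 1 v u0 - (y : D X H) * gen β n 1 v u0)) := by
          rw [hz, AddSubmonoidClass.coe_finsetSum]; rfl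
        rw [hzc, ← hidD, ← Finset.sum_sub_distrib]
        refine Finset.sum_congr rfl fun v _ => ?_
        rw [← mul_sub, ← mul_sub, sub_sub_cancel]
      have hsmall : ∀ v ∈ F', ‖(y : D X H) * gen β n 1 v u0‖ ≤ ε / 10 := by
        intro v hv
        have e1 : (y : D X H) * gen β n 1 v u0 = ((y : D X H) - b) * gen β n 1 v u0 := by
          have hz0 : b * gen β n 1 v u0 = 0 := by
            ext1 q
            obtain ⟨m, t⟩ := q
            ext1 w
            show b (m, t) (gen β n 1 v u0 (m, t) w) = 0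
            apply hF
            intro v' hv'
            rw [gen_apply]
            by_cases hm : m = n
            · rw [if_pos hm]
              simp only [smul_apply, InnerProductSpace.rankOne_apply, inner_smul_right]
              rw [horth v' hv' v hv t]; simp
            · rw [if_neg hm]; simp
          rw [sub_mul, hz0, sub_zero]
        rw [e1]
        calc _ ≤ ‖(y : D X H) - b‖ * ‖gen β n 1 v u0‖ := norm_mul_le _ _
          _ ≤ ε / 10 * 1 := by
              refine mul_le_mul hyb.le ?_ (norm_nonneg _) (by positivity)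
              refine (gen_norm_le n 1 v u0 hβ).trans ?_
              rw [ContinuousMap.norm_le _ zero_le_one]
              intro t; simp
          _ = ε / 10 := by ring
      have hd : dist (g β n 1 u0 u0) z = ‖gen β n 1 u0 u0 - (z : D X H)‖ :=
        dist_eq_norm (gen β n 1 u0 u0) (z : D X H)
      rw [hd, hdiff]
      calc _ ≤ ∑ v ∈ F', ‖gen β n k u0 u0 * (star (gen β n 1 v u0) *
              ((y : D X H) * gen β n 1 v u0))‖ := norm_sum_le _ _
        _ ≤ ∑ v ∈ F', 3 * (1 * (ε / 10)) := by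
            refine Finset.sum_le_sum fun v hv => ?_
            refine (norm_mul_le _ _).trans (mul_le_mul ((gen_norm_le n k u0 u0 hβ).trans hknorm) ?_
              (norm_nonneg _) (by norm_num))
            refine (norm_mul_le _ _).trans (mul_le_mul ?_ (hsmall v hv) (norm_nonneg _)
              zero_le_one)
            rw [norm_star]
            refine (gen_norm_le n 1 v u0 hβ).trans ?_
            rw [ContinuousMap.norm_le _ zero_le_one]
            intro t; simp
        _ = F'.card * (3 * (1 * (ε / 10))) := by rw [Finset.sum_const, nsmul_eq_mul]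
        _ ≤ 3 * (3 * (1 * (ε / 10))) := by
            gcongr
            exact_mod_cast hcard
        _ < ε := by linarith
    exact hI.closure_subset_iff.2 (Subset.refl _) hcl
  -- hence all generators lie in `I`
  have hgI : ∀ n f u v, g β n f u v ∈ I := by
    intro n f u v
    have : g β n f u v = g β n f u u0 * (g β n 1 u0 u0 * g β n 1 u0 v) := by
      rw [g_mul, g_mul, gram_base he h0]
      simp
    rw [this]
    exact I.mul_mem_left _ _ (I.mul_mem_right _ _ (hpI n))
  -- hence everything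
  rw [eq_top_iff]
  intro a _
  have hcl : a ∈ closure (I : Set (A β)) := by
    rw [Metric.mem_closure_iff]
    intro ε hε
    obtain ⟨b, hb, hab⟩ := exists_approx a hε
    have hbI : ∃ b' : A β, (b' : D X H) = b ∧ ∀ c : ℂ, c • b' ∈ I := by
      refine Submodule.span_induction
        (p := fun b _ => ∃ b' : A β, (b' : D X H) = b ∧ ∀ c : ℂ, c • b' ∈ I) ?_ ?_ ?_ ?_ hb
      · rintro _ ⟨m, f, u, v, rfl⟩
        refine ⟨g β m f u v, rfl, fun c => ?_⟩
        have : c • g β m f u v = g β m (c • f) u v := Subtype.ext (gen_smul c m f u v)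
        rw [this]; exact hgI _ _ _ _
      · exact ⟨0, rfl, fun c => by rw [smul_zero]; exact I.zero_mem⟩
      · rintro x y _ _ ⟨x', hx, hx'⟩ ⟨y', hy, hy'⟩
        refine ⟨x' + y', by rw [← hx, ← hy]; rfl, fun c => ?_⟩
        rw [smul_add]; exact I.add_mem (hx' c) (hy' c)
      · rintro c x _ ⟨x', hx, hx'⟩
        refine ⟨c • x', by rw [← hx]; rfl, fun c' => ?_⟩
        rw [smul_smul]; exact hx' _
    obtain ⟨b', hb', hc⟩ := hbI
    refine ⟨b', by simpa using hc 1, ?_⟩
    have : dist a b' = ‖(a : D X H) - b‖ := by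
      rw [← hb']; exact dist_eq_norm (a : D X H) (b' : D X H)
    rw [this]; exact hab
  exact hI.closure_subset_iff.2 (Subset.refl _) hcl

end Pool.Agent.Helper133.Alg
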