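import Mathlib
import Pool.Agent.Helper133.Alg

open Set Metric Topology TopologicalSpace
open scoped InnerProductSpace BoundedContinuousFunction
open InnerProductSpace (rankOne)

set_option linter.unusedSectionVars false

namespace Pool.Agent.Helper133.Alg

variable {X : Type} [TopologicalSpace X] [CompactSpace X]
variable {H : Type} [NormedAddCommGroup H] [InnerProductSpace ℂ H] [CompleteSpace H]
variable {U : Type} {β : U → C(X, H)}

/-- Evaluation as an algebra homomorphism. -/
noncomputable def ev (q : ℕ × X) : D X H →ₐ[ℂ] (H →L[ℂ] H) where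
  toFun a := a q
  map_one' := rfl
  map_mul' _ _ := rfl
  map_zero' := rfl
  map_add' _ _ := rfl
  commutes' c := by
    rw [Algebra.algebraMap_eq_smul_one, Algebra.algebraMap_eq_smul_one]
    rfl

variable {B : Type} [NonUnitalCStarAlgebra B] (j : B →⋆ₙₐ[ℂ] D X H)

lemma exists_poly (T : NonUnitalStarSubalgebra ℂ B)
    [FiniteDimensional ℂ (Submodule.span ℂ (T : Set B))] (b : B)
    (hb : b ∈ T) : ∃ q : Polynomial ℂ, q ≠ 0 ∧ Polynomial.aeval (j b) q = 0 := by
  by_contra hno
  push Not at hno
  -- the image of `T` in `D`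
  let ι : Submodule.span ℂ (T : Set B) →ₗ[ℂ] D X H :=
    { toFun := fun a => j (a : B), map_add' := fun x y => map_add j (x : B) y,
      map_smul' := fun c x => map_smul j c (x : B) }
  let W : Submodule ℂ (D X H) := LinearMap.range ι
  have : FiniteDimensional ℂ W := LinearMap.finiteDimensional_range ι
  have hpow : ∀ n : ℕ, ∃ c : B, c ∈ T ∧ j c = (j b) ^ (n + 1) := by
    intro n
    induction n with
    | zero => exact ⟨b, hb, by simp⟩
    | succ n ih =>
      obtain ⟨c, hc, hce⟩ := ih
      refine ⟨c * b, T.mul_mem hc hb, ?_⟩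
      rw [pow_succ, ← hce, map_mul]
  let ψ : Polynomial ℂ →ₗ[ℂ] D X H :=
    (Polynomial.aeval (j b)).toLinearMap ∘ₗ (LinearMap.mulLeft ℂ (Polynomial.X : Polynomial ℂ))
  have hψ : ∀ q, ψ q ∈ W := by
    intro q
    induction q using Polynomial.induction_on' with
    | add p q hp hq => rw [map_add]; exact W.add_mem hp hq
    | monomial n c =>
      obtain ⟨a, ha, hae⟩ := hpow n
      have : ψ (Polynomial.monomial n c) = c • (j b) ^ (n + 1) := by
        show Polynomial.aeval (j b) (Polynomial.X * Polynomial.monomial n c) = _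
        rw [Polynomial.X_mul_monomial, Polynomial.aeval_monomial,
          Algebra.algebraMap_eq_smul_one, smul_mul_assoc, one_mul]
      rw [this, ← hae]
      exact W.smul_mem c ⟨⟨a, Submodule.subset_span ha⟩, rfl⟩
  have hinj : Function.Injective (ψ.codRestrict W hψ) := by
    rw [injective_iff_map_eq_zero]
    intro q hq
    have h1 : ψ q = 0 := congrArg Subtype.val hq
    by_contra hne
    exact hno (Polynomial.X * q) (mul_ne_zero Polynomial.X_ne_zero hne) h1
  have : Module.Finite ℂ (Polynomial ℂ) := Module.Finite.of_injective _ hinj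
  exact Polynomial.not_finite this

lemma norm_mem_roots [Nontrivial H] (b : D X H) (hbs : star b = b) (q : Polynomial ℂ) (hq : q ≠ 0)
    (hqb : Polynomial.aeval b q = 0) (p : ℕ × X) :
    ‖b p‖ ∈ (fun z : ℂ => ‖z‖) '' (q.rootSet ℂ) := by
  have h1 : Polynomial.aeval (b p) q = 0 := by
    have := congrArg (ev p) hqb
    rw [← Polynomial.aeval_algHom_apply, map_zero] at this
    exact this
  have hsa : IsSelfAdjoint (b p) := by
    have h3 := congrArg (fun a : D X H => a p) hbs
    exact h3
  obtain ⟨z, hz, hz2⟩ := spectrum.exists_nnnorm_eq_spectralRadius (b p)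
  rw [hsa.spectralRadius_eq_nnnorm] at hz2
  have hz3 : ‖z‖₊ = ‖b p‖₊ := by exact_mod_cast hz2
  refine ⟨z, ?_, congrArg NNReal.toReal hz3⟩
  rw [Polynomial.mem_rootSet]
  refine ⟨hq, ?_⟩
  have h4 := spectrum.subset_polynomial_aeval (b p) q ⟨z, hz, rfl⟩
  rw [h1, spectrum.zero_eq] at h4
  simpa using h4

/-- A path of rank-one fields cannot be approximated in finite-dimensional subalgebras. -/
theorem no_fd_approx {u0 : U} {e : H} (he : ‖e‖ = 1) (h0 : ∀ t, β u0 t = e)
    (hj : ∀ x, ‖j x‖ = ‖x‖)
    (k : C(X, ℂ)) (hk : star k = k) (γ : C(unitInterval, X)) (hf0 : k (γ 0) = 0)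
    (hf1 : k (γ 1) = 1) (a : B) (ha : j a = gen β 0 k u0 u0)
    (T : NonUnitalStarSubalgebra ℂ B)
    [FiniteDimensional ℂ (Submodule.span ℂ (T : Set B))] (b : B) (hb : b ∈ T)
    (hab : ‖a - b‖ < 1 / 10) : False := by
  have : Nontrivial H := ⟨⟨e, 0, fun h => by rw [h, norm_zero] at he; exact zero_ne_one he⟩⟩
  have hjinj : Function.Injective j := by
    rw [injective_iff_map_eq_zero]
    intro x hx
    have := hj x
    rw [hx, norm_zero] at this
    exact norm_eq_zero.1 this.symm
  have has : star a = a := by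
    apply hjinj
    rw [map_star, ha, gen_star, hk]
  set b' : B := (1 / 2 : ℂ) • (b + star b) with hb'
  have hb'T : b' ∈ T := SMulMemClass.smul_mem _ (add_mem hb (star_mem hb))
  have hb's : star b' = b' := by
    rw [hb', star_smul, star_add, star_star, add_comm]
    congr 1
    simp
  have hab' : ‖a - b'‖ < 1 / 10 := by
    have e1 : a - b' = (1 / 2 : ℂ) • ((a - b) + star (a - b)) := by
      rw [star_sub, has, hb']
      have : a = (1 / 2 : ℂ) • (a + a) := by
        rw [← two_smul ℂ a, smul_smul]; norm_num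
      nth_rewrite 1 [this]
      rw [← smul_sub]
      congr 1
      abel
    rw [e1, norm_smul]
    calc ‖(1 / 2 : ℂ)‖ * ‖(a - b) + star (a - b)‖ ≤ 1 / 2 * (‖a - b‖ + ‖star (a - b)‖) := by
          gcongr
          · norm_num
          · exact norm_add_le _ _
      _ = ‖a - b‖ := by rw [norm_star]; ring
      _ < 1 / 10 := hab
  obtain ⟨q, hq0, hq⟩ := exists_poly j T b' hb'T
  have hmem := norm_mem_roots (j b') (by rw [← map_star, hb's]) q hq0 hq
  have hnorm : ∀ t, ‖(j a) (0, t)‖ = ‖k t‖ := by
    intro t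
    rw [ha, gen_apply, if_pos rfl, norm_smul, InnerProductSpace.norm_rankOne, h0, he]
    simp
  have hclose : ∀ t, |‖(j b') (0, t)‖ - ‖k t‖| < 1 / 10 := by
    intro t
    rw [← hnorm t, abs_sub_comm]
    have s1 : |‖(j a) (0, t)‖ - ‖(j b') (0, t)‖| ≤
          ‖(j a) (0, t) - (j b') (0, t)‖ := abs_norm_sub_norm_le _ _
    have s2 : ‖(j a - j b') (0, t)‖ ≤ ‖j a - j b'‖ :=
      BoundedContinuousFunction.norm_coe_le_norm _ _
    have s3 : ‖j a - j b'‖ = ‖a - b'‖ := by rw [← map_sub, hj]
    have s4 : ‖(j a - j b') (0, t)‖ = ‖(j a) (0, t) - (j b') (0, t)‖ := rfl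
    linarith
  set h : unitInterval → ℝ := fun s => ‖(j b') (0, γ s)‖ with hh
  have hcont : Continuous h := by
    have c1 : Continuous (j b') := (j b').continuous
    exact (c1.comp (continuous_const.prodMk γ.continuous)).norm
  have hlow : h 0 < 1 / 10 := by
    have := (abs_lt.1 (hclose (γ 0))).2
    rw [hf0, norm_zero, sub_zero] at this
    exact this
  have hhigh : 9 / 10 < h 1 := by
    have := (abs_lt.1 (hclose (γ 1))).1
    rw [hf1, norm_one] at this
    have h2 : h 1 = ‖(j b') (0, γ 1)‖ := rfl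
    rw [h2]; linarith
  have hIcc : Icc (h 0) (h 1) ⊆ range h := intermediate_value_univ 0 1 hcont
  have hfin : (range h).Finite := by
    refine ((Polynomial.rootSet_finite q ℂ).image (fun z : ℂ => ‖z‖)).subset ?_
    rintro _ ⟨s, rfl⟩
    exact hmem (0, γ s)
  exact (Icc_infinite (by linarith : h 0 < h 1)) (hfin.subset hIcc)

end Pool.Agent.Helper133.Alg
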