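import Mathlib

/-!
# Tracial states, uniform 2-seminorm and uniform tracial completion
-/

open scoped ComplexOrder Topology
open Filter

namespace Pool.Agent.Helper133.TP

/-! ## Positive functionals -/

section Positive

variable {A : Type*} [CStarAlgebra A]

/-- Positivity of a linear functional. -/
def Pos (f : A →ₗ[ℂ] ℂ) : Prop := ∀ a : A, 0 ≤ f (star a * a)

lemma Pos.im_eq {f : A →ₗ[ℂ] ℂ} (hf : Pos f) (a : A) : (f (star a * a)).im = 0 :=
  ((Complex.le_def.1 (hf a)).2).symm

lemma Pos.re_nonneg {f : A →ₗ[ℂ] ℂ} (hf : Pos f) (a : A) : 0 ≤ (f (star a * a)).re :=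
  (Complex.le_def.1 (hf a)).1

lemma Pos.conj_symm {f : A →ₗ[ℂ] ℂ} (hf : Pos f) (x y : A) :
    (starRingEnd ℂ) (f (star y * x)) = f (star x * y) := by
  have h1 := hf.im_eq (x + y)
  have h2 := hf.im_eq (x + Complex.I • y)
  have hx := hf.im_eq x
  have hy := hf.im_eq y
  have e1 : star (x + y) * (x + y) = star x * x + star x * y + star y * x + star y * y := by
    rw [star_add]; noncomm_ring
  have e2 : star (x + Complex.I • y) * (x + Complex.I • y) =
      star x * x + Complex.I • (star x * y) - Complex.I • (star y * x) + star y * y := by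
    rw [star_add, star_smul]
    have : star Complex.I = -Complex.I := by simp
    rw [this, add_mul, mul_add, mul_add, smul_mul_smul_comm, neg_smul, neg_mul, mul_smul_comm,
      smul_mul_assoc, neg_mul, Complex.I_mul_I, neg_neg, one_smul]
    abel
  rw [e1, map_add, map_add, map_add] at h1
  rw [e2, map_add, map_sub, map_add, map_smul, map_smul] at h2
  simp only [Complex.add_im, Complex.sub_im, smul_eq_mul, Complex.mul_im, Complex.I_re,
    Complex.I_im, zero_mul, one_mul, zero_add] at h1 h2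
  apply Complex.ext
  · rw [Complex.conj_re]; linarith
  · rw [Complex.conj_im]; linarith

/-- The semi-inner product defined by a positive functional. -/
@[instance_reducible]
noncomputable def core (f : A →ₗ[ℂ] ℂ) (hf : Pos f) : PreInnerProductSpace.Core ℂ A where
  inner x y := f (star x * y)
  conj_inner_symm x y := hf.conj_symm x y
  re_inner_nonneg x := hf.re_nonneg x
  add_left x y z := by simp [add_mul]
  smul_left x y r := by simp

/-- The 2-seminorm of a functional. -/
noncomputable def nf (f : A →ₗ[ℂ] ℂ) (a : A) : ℝ := Real.sqrt (f (star a * a)).re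

lemma nf_nonneg (f : A →ₗ[ℂ] ℂ) (a : A) : 0 ≤ nf f a := Real.sqrt_nonneg _

lemma nf_sq {f : A →ₗ[ℂ] ℂ} (hf : Pos f) (a : A) : nf f a ^ 2 = (f (star a * a)).re :=
  Real.sq_sqrt (hf.re_nonneg a)

lemma cs {f : A →ₗ[ℂ] ℂ} (hf : Pos f) (x y : A) : ‖f (star x * y)‖ ≤ nf f x * nf f y := by
  let := core f hf
  exact InnerProductSpace.Core.norm_inner_le_norm (𝕜 := ℂ) (F := A) x y

lemma nf_add {f : A →ₗ[ℂ] ℂ} (hf : Pos f) (x y : A) : nf f (x + y) ≤ nf f x + nf f y := by
  let := core f hf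
  let : SeminormedAddCommGroup A := InnerProductSpace.Core.toSeminormedAddCommGroup (𝕜 := ℂ)
  exact norm_add_le x y

/-- A bounded positive functional has norm at most its value at one. -/
lemma norm_le_of_pos {f : A →ₗ[ℂ] ℂ} (hf : Pos f) {C : ℝ} (hC : ∀ a, ‖f a‖ ≤ C * ‖a‖) (a : A) :
    ‖f a‖ ≤ (f 1).re * ‖a‖ := by
  set F : A →L[ℂ] ℂ := LinearMap.mkContinuous f C hC with hF
  have hFa : ∀ x, F x = f x := fun x => rfl
  have h1 : 0 ≤ (f 1).re := by
    have := hf.re_nonneg 1
    rwa [star_one, one_mul] at this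
  have key : ‖F‖ ^ 2 ≤ (f 1).re * ‖F‖ := by
    have : ‖F‖ ≤ Real.sqrt ((f 1).re * ‖F‖) := by
      refine F.opNorm_le_bound (Real.sqrt_nonneg _) fun x => ?_
      have h2 := cs hf 1 x
      rw [star_one, one_mul] at h2
      rw [hFa]
      refine h2.trans ?_
      rw [nf, nf, star_one, one_mul, ← Real.sqrt_mul h1]
      rw [show ‖x‖ = Real.sqrt (‖x‖ * ‖x‖) from (Real.sqrt_mul_self (norm_nonneg _)).symm,
        ← Real.sqrt_mul (by positivity)]
      apply Real.sqrt_le_sqrt
      rw [mul_assoc]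
      refine mul_le_mul_of_nonneg_left ?_ h1
      calc (f (star x * x)).re ≤ ‖f (star x * x)‖ := Complex.re_le_norm _
        _ = ‖F (star x * x)‖ := by rw [hFa]
        _ ≤ ‖F‖ * ‖star x * x‖ := F.le_opNorm _
        _ = ‖F‖ * (‖x‖ * ‖x‖) := by rw [CStarRing.norm_star_mul_self]
    calc ‖F‖ ^ 2 ≤ Real.sqrt ((f 1).re * ‖F‖) ^ 2 := by gcongr
      _ = _ := Real.sq_sqrt (by positivity)
  have h3 : ‖F‖ ≤ (f 1).re := by
    rcases eq_or_lt_of_le (norm_nonneg F) with h | h
    · rw [← h]; exact h1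
    · nlinarith
  calc ‖f a‖ = ‖F a‖ := by rw [hFa]
    _ ≤ ‖F‖ * ‖a‖ := F.le_opNorm a
    _ ≤ _ := by gcongr

lemma Pos.conj {f : A →ₗ[ℂ] ℂ} (hf : Pos f) (b : A) :
    Pos (f ∘ₗ (LinearMap.mulLeft ℂ (star b)) ∘ₗ (LinearMap.mulRight ℂ b)) := by
  intro a
  have := hf (a * b)
  rw [star_mul] at this
  simpa [mul_assoc] using this

lemma nf_mul {f : A →ₗ[ℂ] ℂ} (hf : Pos f) {C : ℝ} (hC0 : 0 ≤ C) (hC : ∀ a, ‖f a‖ ≤ C * ‖a‖)
    (a b : A) : nf f (a * b) ≤ ‖a‖ * nf f b := by
  have h1 := norm_le_of_pos (hf.conj b) (C := C * (‖b‖ * ‖b‖)) (fun x => by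
    show ‖f (star b * (x * b))‖ ≤ _
    calc _ ≤ C * ‖star b * (x * b)‖ := hC _
      _ ≤ C * (‖star b‖ * (‖x‖ * ‖b‖)) := by
          refine mul_le_mul_of_nonneg_left ?_ hC0
          refine (norm_mul_le _ _).trans ?_
          gcongr
          exact norm_mul_le _ _
      _ = _ := by rw [norm_star]; ring) (star a * a)
  have h2 : (f (star (a * b) * (a * b))).re ≤ (f (star b * b)).re * (‖a‖ * ‖a‖) := by
    calc _ ≤ ‖f (star (a * b) * (a * b))‖ := Complex.re_le_norm _
      _ = ‖(f ∘ₗ (LinearMap.mulLeft ℂ (star b)) ∘ₗ (LinearMap.mulRight ℂ b)) (star a * a)‖ := by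
          simp [mul_assoc]
      _ ≤ _ := h1
      _ = _ := by
          rw [CStarRing.norm_star_mul_self]
          simp
  calc nf f (a * b) ≤ Real.sqrt ((f (star b * b)).re * (‖a‖ * ‖a‖)) := Real.sqrt_le_sqrt h2
    _ = _ := by
        rw [Real.sqrt_mul (hf.re_nonneg b), Real.sqrt_mul_self (norm_nonneg _), mul_comm]
        rfl

lemma nf_smul {f : A →ₗ[ℂ] ℂ} (c : ℂ) (a : A) : nf f (c • a) = ‖c‖ * nf f a := by
  have : f (star (c • a) * (c • a)) = ((‖c‖ * ‖c‖ : ℝ) : ℂ) * f (star a * a) := by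
    rw [star_smul, smul_mul_smul_comm, map_smul, smul_eq_mul]
    congr 1
    rw [show star c * c = (starRingEnd ℂ) c * c from rfl, Complex.conj_mul']
    push_cast
    ring
  rw [nf, this, Complex.re_ofReal_mul, Real.sqrt_mul (by positivity),
    Real.sqrt_mul_self (norm_nonneg _)]
  rfl

end Positive

/-! ## Traces -/

/-- The set `T(A)` of traces of the unital C*-algebra `A` (positive linear functionals `τ` of
norm one with `τ (x y) = τ (y x)`), as a subset of the dual with the weak* topology. -/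
def T (A : Type*) [CStarAlgebra A] : Set (WeakDual ℂ A) :=
  {τ | (∀ a : A, 0 ≤ τ (star a * a)) ∧ ‖WeakDual.toStrongDual τ‖ = 1 ∧
    ∀ a b : A, τ (a * b) = τ (b * a)}

section Traces

variable {A : Type*} [CStarAlgebra A]

/-- The underlying linear map of an element of the weak dual. -/
noncomputable def lin (τ : WeakDual ℂ A) : A →ₗ[ℂ] ℂ := (WeakDual.toStrongDual τ : A →L[ℂ] ℂ)

lemma lin_apply (τ : WeakDual ℂ A) (a : A) : lin τ a = τ a := rfl

lemma T.pos {τ : WeakDual ℂ A} (h : τ ∈ T A) : Pos (lin τ) := h.1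

lemma T.norm_le {τ : WeakDual ℂ A} (h : τ ∈ T A) (a : A) : ‖lin τ a‖ ≤ 1 * ‖a‖ := by
  have := (WeakDual.toStrongDual τ).le_opNorm a
  rw [h.2.1] at this
  exact this

lemma T.map_one {τ : WeakDual ℂ A} (h : τ ∈ T A) : τ 1 = 1 := by
  have h1 : (lin τ 1).re ≤ 1 := by
    have hA : ‖(1 : A)‖ ≤ 1 := by
      rcases subsingleton_or_nontrivial A with hs | hn
      · rw [show (1 : A) = 0 from Subsingleton.elim _ _, norm_zero]; exact zero_le_one
      · rw [CStarRing.norm_one]
    calc (lin τ 1).re ≤ ‖lin τ 1‖ := Complex.re_le_norm _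
      _ ≤ 1 * ‖(1 : A)‖ := T.norm_le h 1
      _ ≤ 1 := by linarith
  have h2 : 1 ≤ (lin τ 1).re := by
    rw [← h.2.1]
    refine ContinuousLinearMap.opNorm_le_bound _ ?_ fun x => ?_
    · have := (T.pos h).re_nonneg 1
      rwa [star_one, one_mul] at this
    · exact norm_le_of_pos (T.pos h) (T.norm_le h) x
  have h3 : (lin τ 1).im = 0 := by
    have := (T.pos h).im_eq 1
    rwa [star_one, one_mul] at this
  apply Complex.ext
  · exact le_antisymm h1 h2
  · exact h3

/-- Constructor of traces of a (nontrivial) unital C*-algebra. -/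
lemma mem_T_of [Nontrivial A] {τ : WeakDual ℂ A} (h1 : ∀ a : A, 0 ≤ τ (star a * a))
    (h2 : τ 1 = 1) (h3 : ∀ a b : A, τ (a * b) = τ (b * a)) : τ ∈ T A := by
  refine ⟨h1, le_antisymm ?_ ?_, h3⟩
  · refine ContinuousLinearMap.opNorm_le_bound _ zero_le_one fun x => ?_
    have hp : Pos (lin τ) := h1
    have := norm_le_of_pos hp (C := ‖WeakDual.toStrongDual τ‖)
      (fun a => (WeakDual.toStrongDual τ).le_opNorm a) x
    rw [lin_apply, lin_apply, h2] at this
    simpa using this
  · have := (WeakDual.toStrongDual τ).le_opNorm 1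
    rw [CStarRing.norm_one, mul_one] at this
    calc (1 : ℝ) = ‖τ 1‖ := by rw [h2, norm_one]
      _ ≤ _ := this

theorem isCompact_T : IsCompact (T A) := by
  rcases subsingleton_or_nontrivial A with hs | hn
  · have : T A = ∅ := by
      ext τ
      simp only [Set.mem_empty_iff_false, iff_false]
      rintro ⟨-, h, -⟩
      have : WeakDual.toStrongDual τ = 0 := by
        ext x
        rw [Subsingleton.elim x 0, map_zero, map_zero]
      rw [this, norm_zero] at h
      exact zero_ne_one h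
    rw [this]
    exact isCompact_empty
  · refine (WeakDual.isCompact_closedBall (𝕜 := ℂ) (E := A) 0 1).of_isClosed_subset ?_ ?_
    · have : T A = ((⋂ a : A, {τ : WeakDual ℂ A | 0 ≤ τ (star a * a)}) ∩ {τ | τ 1 = 1}) ∩
          ⋂ a : A, ⋂ b : A, {τ : WeakDual ℂ A | τ (a * b) = τ (b * a)} := by
        ext τ
        simp only [Set.mem_inter_iff, Set.mem_iInter, Set.mem_ofPred_eq]
        constructor
        · intro h
          exact ⟨⟨h.1, T.map_one h⟩, h.2.2⟩
        · rintro ⟨⟨h1, h2⟩, h3⟩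
          exact mem_T_of h1 h2 h3
      rw [this]
      refine (IsClosed.inter ?_ ?_).inter ?_
      · refine isClosed_iInter fun a => ?_
        exact isClosed_le continuous_const (WeakDual.eval_continuous _)
      · exact isClosed_eq (WeakDual.eval_continuous _) continuous_const
      · refine isClosed_iInter fun a => isClosed_iInter fun b => ?_
        exact isClosed_eq (WeakDual.eval_continuous _) (WeakDual.eval_continuous _)
    · intro τ h
      show WeakDual.toStrongDual τ ∈ Metric.closedBall _ _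
      rw [mem_closedBall_zero_iff, h.2.1]

end Traces

/-! ## The uniform 2-seminorm -/

/-- The uniform 2-seminorm `‖a‖_{2,T(A)} = sup_{τ ∈ T(A)} τ(a* a)^{1/2}`. -/
noncomputable def norm2 {A : Type*} [CStarAlgebra A] (a : A) : ℝ :=
  ⨆ τ : T A, Real.sqrt ((τ : WeakDual ℂ A) (star a * a)).re

section Norm2

variable {A : Type*} [CStarAlgebra A]

lemma nf_le {τ : WeakDual ℂ A} (h : τ ∈ T A) (a : A) : nf (lin τ) a ≤ ‖a‖ := by
  rw [nf]
  apply Real.sqrt_le_iff.2
  refine ⟨norm_nonneg _, ?_⟩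
  calc (lin τ (star a * a)).re ≤ ‖lin τ (star a * a)‖ := Complex.re_le_norm _
    _ ≤ 1 * ‖star a * a‖ := T.norm_le h _
    _ = ‖a‖ ^ 2 := by rw [CStarRing.norm_star_mul_self]; ring

lemma bdd (a : A) : BddAbove (Set.range fun τ : T A => Real.sqrt ((τ : WeakDual ℂ A)
    (star a * a)).re) := by
  refine ⟨‖a‖, ?_⟩
  rintro _ ⟨τ, rfl⟩
  exact nf_le τ.2 a

lemma nf_le_norm2 {τ : WeakDual ℂ A} (h : τ ∈ T A) (a : A) : nf (lin τ) a ≤ norm2 a :=
  le_ciSup (bdd a) ⟨τ, h⟩

lemma norm2_le {a : A} {C : ℝ} (hC : 0 ≤ C) (h : ∀ τ ∈ T A, nf (lin τ) a ≤ C) : norm2 a ≤ C :=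
  Real.iSup_le (fun τ => h τ.1 τ.2) hC

lemma norm2_nonneg (a : A) : 0 ≤ norm2 a := Real.iSup_nonneg fun _ => Real.sqrt_nonneg _

lemma norm2_le_norm (a : A) : norm2 a ≤ ‖a‖ := norm2_le (norm_nonneg _) fun _ h => nf_le h a

lemma norm2_add (a b : A) : norm2 (a + b) ≤ norm2 a + norm2 b :=
  norm2_le (add_nonneg (norm2_nonneg _) (norm2_nonneg _)) fun _ h =>
    (nf_add (T.pos h) a b).trans (add_le_add (nf_le_norm2 h a) (nf_le_norm2 h b))

lemma norm2_mul (a b : A) : norm2 (a * b) ≤ ‖a‖ * norm2 b :=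
  norm2_le (mul_nonneg (norm_nonneg _) (norm2_nonneg _)) fun _ h =>
    (nf_mul (T.pos h) zero_le_one (T.norm_le h) a b).trans
      (mul_le_mul_of_nonneg_left (nf_le_norm2 h b) (norm_nonneg _))

lemma norm2_star (a : A) : norm2 (star a) = norm2 a := by
  rw [norm2, norm2]
  congr 1
  ext τ
  rw [star_star, τ.2.2.2]

lemma norm2_mul' (a b : A) : norm2 (a * b) ≤ norm2 a * ‖b‖ := by
  rw [← norm2_star, star_mul, mul_comm (norm2 a), ← norm_star b, ← norm2_star a]
  exact norm2_mul _ _

lemma norm2_smul_le (c : ℂ) (a : A) : norm2 (c • a) ≤ ‖c‖ * norm2 a :=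
  norm2_le (mul_nonneg (norm_nonneg _) (norm2_nonneg _)) fun _ h => by
    rw [nf_smul]
    exact mul_le_mul_of_nonneg_left (nf_le_norm2 h a) (norm_nonneg _)

lemma norm2_zero : norm2 (0 : A) = 0 :=
  le_antisymm ((norm2_le_norm _).trans (by rw [norm_zero])) (norm2_nonneg _)

lemma norm2_neg (a : A) : norm2 (-a) = norm2 a := by
  rw [norm2, norm2]
  congr 1
  ext τ
  rw [star_neg, neg_mul_neg]

lemma norm2_sub (a b : A) : norm2 (a - b) ≤ norm2 a + norm2 b := by
  rw [sub_eq_add_neg, ← norm2_neg b]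
  exact norm2_add _ _

lemma norm2_sub_comm (a b : A) : norm2 (a - b) = norm2 (b - a) := by
  rw [← norm2_neg, neg_sub]

lemma abs_norm2_sub (a b : A) : |norm2 a - norm2 b| ≤ norm2 (a - b) := by
  rw [abs_le]
  constructor
  · have := norm2_add (b - a) a
    rw [sub_add_cancel, norm2_sub_comm b a] at this
    linarith
  · have := norm2_add (a - b) b
    rw [sub_add_cancel] at this
    linarith

end Norm2

/-! ## The uniform tracial completion -/

section Completion

variable (A : Type*) [CStarAlgebra A]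

/-- Norm-bounded sequences that are Cauchy for the uniform 2-seminorm. -/
def IsCauchySeq {A : Type*} [CStarAlgebra A] (x : ℕ → A) : Prop :=
  (∃ C : ℝ, ∀ k, ‖x k‖ ≤ C) ∧ ∀ ε > 0, ∃ K, ∀ k ≥ K, ∀ l ≥ K, norm2 (x k - x l) < ε

variable {A} in
lemma IsCauchySeq.mul {x y : ℕ → A} (hx : IsCauchySeq x) (hy : IsCauchySeq y) :
    IsCauchySeq (x * y) := by
  obtain ⟨⟨C, hC⟩, hx⟩ := hx
  obtain ⟨⟨D, hD⟩, hy⟩ := hy
  have hC0 : 0 ≤ C := (norm_nonneg _).trans (hC 0)
  have hD0 : 0 ≤ D := (norm_nonneg _).trans (hD 0)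
  refine ⟨⟨C * D, fun k => ?_⟩, fun ε hε => ?_⟩
  · exact (norm_mul_le _ _).trans (mul_le_mul (hC k) (hD k) (norm_nonneg _) hC0)
  · obtain ⟨K, hK⟩ := hx (ε / (2 * (D + 1))) (by positivity)
    obtain ⟨L, hL⟩ := hy (ε / (2 * (C + 1))) (by positivity)
    refine ⟨max K L, fun k hk l hl => ?_⟩
    have h1 := hK k (le_of_max_le_left hk) l (le_of_max_le_left hl)
    have h2 := hL k (le_of_max_le_right hk) l (le_of_max_le_right hl)
    have e : (x * y) k - (x * y) l = (x k - x l) * y k + x l * (y k - y l) := by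
      rw [Pi.mul_apply, Pi.mul_apply]; noncomm_ring
    rw [e]
    calc _ ≤ norm2 ((x k - x l) * y k) + norm2 (x l * (y k - y l)) := norm2_add _ _
      _ ≤ norm2 (x k - x l) * ‖y k‖ + ‖x l‖ * norm2 (y k - y l) :=
          add_le_add (norm2_mul' _ _) (norm2_mul _ _)
      _ ≤ norm2 (x k - x l) * (D + 1) + (C + 1) * norm2 (y k - y l) := by
          refine add_le_add (mul_le_mul_of_nonneg_left ?_ (norm2_nonneg _))
            (mul_le_mul_of_nonneg_right ?_ (norm2_nonneg _))
          · linarith [hD k]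
          · linarith [hC l]
      _ < (ε / (2 * (D + 1))) * (D + 1) + (C + 1) * (ε / (2 * (C + 1))) := by
          refine add_lt_add ?_ ?_
          · exact mul_lt_mul_of_pos_right h1 (by positivity)
          · exact mul_lt_mul_of_pos_left h2 (by positivity)
      _ = ε := by field_simp; ring

variable {A} in
lemma IsCauchySeq.add {x y : ℕ → A} (hx : IsCauchySeq x) (hy : IsCauchySeq y) :
    IsCauchySeq (x + y) := by
  obtain ⟨⟨C, hC⟩, hx⟩ := hx
  obtain ⟨⟨D, hD⟩, hy⟩ := hy
  refine ⟨⟨C + D, fun k => (norm_add_le _ _).trans (add_le_add (hC k) (hD k))⟩, fun ε hε => ?_⟩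
  obtain ⟨K, hK⟩ := hx (ε / 2) (by positivity)
  obtain ⟨L, hL⟩ := hy (ε / 2) (by positivity)
  refine ⟨max K L, fun k hk l hl => ?_⟩
  have h1 := hK k (le_of_max_le_left hk) l (le_of_max_le_left hl)
  have h2 := hL k (le_of_max_le_right hk) l (le_of_max_le_right hl)
  have e : (x + y) k - (x + y) l = (x k - x l) + (y k - y l) := by
    rw [Pi.add_apply, Pi.add_apply]; abel
  rw [e]
  refine (norm2_add _ _).trans_lt ?_
  linarith

lemma isCauchySeq_algebraMap (c : ℂ) : IsCauchySeq (algebraMap ℂ (ℕ → A) c) := by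
  refine ⟨⟨‖algebraMap ℂ A c‖, fun k => le_rfl⟩, fun ε hε => ⟨0, fun k _ l _ => ?_⟩⟩
  have : (algebraMap ℂ (ℕ → A) c) k - (algebraMap ℂ (ℕ → A) c) l = 0 := by
    rw [Pi.algebraMap_apply, Pi.algebraMap_apply, sub_self]
  rw [this, norm2_zero]
  exact hε

variable {A} in
lemma IsCauchySeq.star {x : ℕ → A} (hx : IsCauchySeq x) : IsCauchySeq (star x) := by
  obtain ⟨⟨C, hC⟩, hx⟩ := hx
  refine ⟨⟨C, fun k => ?_⟩, fun ε hε => ?_⟩
  · rw [Pi.star_apply, norm_star]; exact hC k
  · obtain ⟨K, hK⟩ := hx ε hε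
    refine ⟨K, fun k hk l hl => ?_⟩
    rw [Pi.star_apply, Pi.star_apply, ← star_sub, norm2_star]
    exact hK k hk l hl

/-- The *-algebra of norm-bounded sequences in `A` that are Cauchy for the uniform 2-seminorm. -/
def CauchyAlg : StarSubalgebra ℂ (ℕ → A) where
  carrier := {x | IsCauchySeq x}
  mul_mem' := IsCauchySeq.mul
  add_mem' := IsCauchySeq.add
  algebraMap_mem' := isCauchySeq_algebraMap A
  star_mem' := IsCauchySeq.star

/-- The type of norm-bounded sequences in `A` that are Cauchy for the uniform 2-seminorm. -/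
def CauchySeqs : Type _ := ↥(CauchyAlg A)

noncomputable instance instRingCS : Ring (CauchySeqs A) := (inferInstance : Ring ↥(CauchyAlg A))

noncomputable instance instStarCS : StarRing (CauchySeqs A) :=
  (inferInstance : StarRing ↥(CauchyAlg A))

noncomputable instance instAlgCS : Algebra ℂ (CauchySeqs A) :=
  (inferInstance : Algebra ℂ ↥(CauchyAlg A))

variable {A} in
/-- The underlying sequence. -/
def CauchySeqs.val (x : CauchySeqs A) : ℕ → A := Subtype.val (p := fun y => y ∈ CauchyAlg A) x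

instance : CoeOut (CauchySeqs A) (ℕ → A) := ⟨CauchySeqs.val⟩

variable {A} in
lemma CauchySeqs.prop (x : CauchySeqs A) : IsCauchySeq (x : ℕ → A) :=
  Subtype.prop (p := fun y => y ∈ CauchyAlg A) x

variable {A} in
/-- Constructor. -/
def CauchySeqs.mk (x : ℕ → A) (hx : IsCauchySeq x) : CauchySeqs A := (⟨x, hx⟩ : ↥(CauchyAlg A))

variable {A} in
/-- Two sequences differ by a sequence which tends to `0` in the uniform 2-seminorm. -/
def NullDiff (x y : CauchySeqs A) : Prop :=
  Tendsto (fun k => norm2 ((x : ℕ → A) k - (y : ℕ → A) k)) atTop (𝓝 0)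

lemma nullDiff_equivalence : Equivalence (NullDiff (A := A)) :=
  { refl := fun x => by simp only [NullDiff, sub_self, norm2_zero]; exact tendsto_const_nhds
    symm := fun {x y} h => by simpa only [NullDiff, norm2_sub_comm] using h
    trans := fun {x y z} h1 h2 => by
      refine squeeze_zero (fun _ => norm2_nonneg _) (fun k => ?_)
        (by simpa using Tendsto.add h1 h2)
      have e : (x : ℕ → A) k - (z : ℕ → A) k =
        ((x : ℕ → A) k - (y : ℕ → A) k) + ((y : ℕ → A) k - (z : ℕ → A) k) := by abel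
      rw [e]
      exact norm2_add _ _ }

variable {A} in
lemma NullDiff.mul {w x y z : CauchySeqs A} (h1 : NullDiff w x) (h2 : NullDiff y z) :
    NullDiff (w * y) (x * z) := by
  obtain ⟨⟨C, hC⟩, -⟩ := x.prop
  obtain ⟨⟨D, hD⟩, -⟩ := y.prop
  refine squeeze_zero (fun _ => norm2_nonneg _) (fun k => ?_)
    (g := fun k => norm2 ((w : ℕ → A) k - (x : ℕ → A) k) * D +
      C * norm2 ((y : ℕ → A) k - (z : ℕ → A) k))
    (by simpa using (Tendsto.mul_const D h1).add (Tendsto.const_mul C h2))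
  have e : ((w * y : CauchySeqs A) : ℕ → A) k - ((x * z : CauchySeqs A) : ℕ → A) k =
    ((w : ℕ → A) k - (x : ℕ → A) k) * (y : ℕ → A) k +
      (x : ℕ → A) k * ((y : ℕ → A) k - (z : ℕ → A) k) := by
    show (w : ℕ → A) k * (y : ℕ → A) k - (x : ℕ → A) k * (z : ℕ → A) k = _
    noncomm_ring
  rw [e]
  calc _ ≤ norm2 (((w : ℕ → A) k - (x : ℕ → A) k) * (y : ℕ → A) k) +
        norm2 ((x : ℕ → A) k * ((y : ℕ → A) k - (z : ℕ → A) k)) := norm2_add _ _
    _ ≤ norm2 ((w : ℕ → A) k - (x : ℕ → A) k) * ‖(y : ℕ → A) k‖ +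
        ‖(x : ℕ → A) k‖ * norm2 ((y : ℕ → A) k - (z : ℕ → A) k) :=
          add_le_add (norm2_mul' _ _) (norm2_mul _ _)
    _ ≤ _ := add_le_add (mul_le_mul_of_nonneg_left (hD k) (norm2_nonneg _))
        (mul_le_mul_of_nonneg_right (hC k) (norm2_nonneg _))

variable {A} in
lemma NullDiff.add {w x y z : CauchySeqs A} (h1 : NullDiff w x) (h2 : NullDiff y z) :
    NullDiff (w + y) (x + z) := by
  refine squeeze_zero (fun _ => norm2_nonneg _) (fun k => ?_)
    (by simpa using Tendsto.add h1 h2)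
  have e : ((w + y : CauchySeqs A) : ℕ → A) k - ((x + z : CauchySeqs A) : ℕ → A) k =
    ((w : ℕ → A) k - (x : ℕ → A) k) + ((y : ℕ → A) k - (z : ℕ → A) k) := by
    show (w : ℕ → A) k + (y : ℕ → A) k - ((x : ℕ → A) k + (z : ℕ → A) k) = _
    abel
  rw [e]
  exact norm2_add _ _

variable {A} in
lemma NullDiff.star {x y : CauchySeqs A} (h : NullDiff x y) : NullDiff (star x) (star y) := by
  have h' : Tendsto (fun k => norm2 ((x : ℕ → A) k - (y : ℕ → A) k)) atTop (𝓝 0) := h
  show Tendsto (fun k => norm2 (Star.star ((x : ℕ → A) k) - Star.star ((y : ℕ → A) k)))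
    atTop (𝓝 0)
  simpa only [← star_sub, norm2_star] using h'

/-- The congruence of differing by a norm-bounded sequence tending to `0` in the uniform
2-seminorm. -/
def nullCon : RingCon (CauchySeqs A) where
  r := NullDiff
  iseqv := nullDiff_equivalence A
  mul' := NullDiff.mul
  add' := NullDiff.add

/-- The uniform tracial completion of `A`, as a unital *-algebra. -/
def Completion : Type _ := (nullCon A).Quotient

noncomputable instance instRingC : Ring (Completion A) := (inferInstance : Ring (nullCon A).Quotient)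

noncomputable instance instAlgC : Algebra ℂ (Completion A) :=
  (inferInstance : Algebra ℂ (nullCon A).Quotient)

/-- The involution of the completion, induced by the one of `A`. -/
noncomputable def cstar : Completion A → Completion A := Quotient.map' star fun _ _ h => NullDiff.star h

lemma cstar_cstar (x : Completion A) : cstar A (cstar A x) = x := by
  induction x using Quotient.inductionOn' with
  | h x => exact congrArg Quotient.mk'' (star_star x)

lemma cstar_mul (x y : Completion A) : cstar A (x * y) = cstar A y * cstar A x := by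
  induction x using Quotient.inductionOn' with
  | h x =>
    induction y using Quotient.inductionOn' with
    | h y => exact congrArg Quotient.mk'' (star_mul x y)

lemma cstar_add (x y : Completion A) : cstar A (x + y) = cstar A x + cstar A y := by
  induction x using Quotient.inductionOn' with
  | h x =>
    induction y using Quotient.inductionOn' with
    | h y => exact congrArg Quotient.mk'' (star_add x y)

noncomputable instance instStarC : StarRing (Completion A) where
  star := cstar A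
  star_involutive := cstar_cstar A
  star_mul := cstar_mul A
  star_add := cstar_add A

variable {A}

/-- The class in the completion of a norm-bounded 2-Cauchy sequence. -/
noncomputable def cls (x : CauchySeqs A) : Completion A := (nullCon A).mk' x

lemma cls_surjective : Function.Surjective (cls (A := A)) := RingCon.mk'_surjective _

lemma exists_lim (x : CauchySeqs A) :
    ∃ L : ℝ, Tendsto (fun k => norm2 ((x : ℕ → A) k)) atTop (𝓝 L) := by
  refine cauchySeq_tendsto_of_complete ?_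
  rw [Metric.cauchySeq_iff]
  intro ε hε
  obtain ⟨K, hK⟩ := x.prop.2 ε hε
  refine ⟨K, fun k hk l hl => ?_⟩
  rw [Real.dist_eq]
  exact (abs_norm2_sub _ _).trans_lt (hK k hk l hl)

/-- The limit of the uniform 2-seminorms of the terms of a sequence. -/
noncomputable def lim2 (x : CauchySeqs A) : ℝ := limUnder atTop fun k => norm2 ((x : ℕ → A) k)

lemma lim2_congr (x y : CauchySeqs A) (h : (nullCon A).toSetoid x y) : lim2 x = lim2 y := by
  have h' : Tendsto (fun k => norm2 ((x : ℕ → A) k - (y : ℕ → A) k)) atTop (𝓝 0) := h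
  obtain ⟨L, hL⟩ := exists_lim x
  have hy : Tendsto (fun k => norm2 ((y : ℕ → A) k)) atTop (𝓝 L) := by
    have h2 : Tendsto (fun k => norm2 ((y : ℕ → A) k) - norm2 ((x : ℕ → A) k)) atTop (𝓝 0) := by
      rw [tendsto_zero_iff_abs_tendsto_zero]
      refine squeeze_zero (fun _ => abs_nonneg _) (fun k => ?_) h'
      rw [norm2_sub_comm]
      exact abs_norm2_sub _ _
    simpa using h2.add hL
  exact hL.limUnder_eq.trans hy.limUnder_eq.symm

/-- The extension of the uniform 2-seminorm to the completion: the limit of the seminorms of the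
terms of a representing sequence. -/
noncomputable def cnorm2 : Completion A → ℝ := Quotient.lift lim2 lim2_congr

lemma cnorm2_spec (x : CauchySeqs A) :
    Tendsto (fun k => norm2 ((x : ℕ → A) k)) atTop (𝓝 (cnorm2 (cls x))) := by
  obtain ⟨L, hL⟩ := exists_lim x
  have : cnorm2 (cls x) = L := hL.limUnder_eq
  rw [this]
  exact hL

/-- The quotient norm of the completion. -/
noncomputable def cnorm (ξ : Completion A) : ℝ :=
  sInf {C : ℝ | ∃ x : CauchySeqs A, cls x = ξ ∧ ∀ k, ‖(x : ℕ → A) k‖ ≤ C}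

/-- A trace on the completion: a positive linear functional of norm one with
`Φ (ξ η) = Φ (η ξ)`. -/
structure IsTrace (Φ : Completion A →ₗ[ℂ] ℂ) : Prop where
  nonneg : ∀ ξ, 0 ≤ Φ (star ξ * ξ)
  norm_eq_one : IsLUB {r : ℝ | ∃ ξ, cnorm ξ ≤ 1 ∧ r = ‖Φ ξ‖} 1
  comm : ∀ ξ η, Φ (ξ * η) = Φ (η * ξ)

/-- Continuity of a functional on the completion for the uniform 2-seminorm. -/
def TwoContinuous (Φ : Completion A →ₗ[ℂ] ℂ) : Prop :=
  ∀ ξ, ∀ ε > 0, ∃ δ > 0, ∀ η, cnorm2 (η - ξ) < δ → ‖Φ η - Φ ξ‖ < ε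

lemma cnorm_le (x : CauchySeqs A) {C : ℝ} (h : ∀ k, ‖(x : ℕ → A) k‖ ≤ C) : cnorm (cls x) ≤ C :=
  csInf_le ⟨0, by
    rintro D ⟨y, -, hD⟩
    exact (norm_nonneg _).trans (hD 0)⟩ ⟨x, rfl, h⟩

lemma le_cnorm {ξ : Completion A} {D : ℝ}
    (h : ∀ x : CauchySeqs A, cls x = ξ → ∀ C, (∀ k, ‖(x : ℕ → A) k‖ ≤ C) → D ≤ C) :
    D ≤ cnorm ξ := by
  obtain ⟨x, hx⟩ := cls_surjective ξ
  obtain ⟨C, hC⟩ := x.prop.1
  refine le_csInf ⟨C, x, hx, hC⟩ ?_
  rintro C ⟨y, hy, hC⟩
  exact h y hy C hC

end Completion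

end Pool.Agent.Helper133.TP
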