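import Mathlib
import Pool.Agent.Helper133.TP1

/-!
# Traces from finite-dimensional representations, and the abstract counterexample mechanism
-/

open scoped ComplexOrder Topology InnerProductSpace
open Filter

set_option linter.unusedSectionVars false

namespace Pool.Agent.Helper133.TP

section FD

variable {E : Type*} [NormedAddCommGroup E] [InnerProductSpace ℂ E] [FiniteDimensional ℂ E]
  [CompleteSpace E]

/-- The normalised trace of operators on a finite-dimensional Hilbert space. -/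
noncomputable def ntr : (E →L[ℂ] E) →ₗ[ℂ] ℂ :=
  ((Module.finrank ℂ E : ℂ)⁻¹) • (LinearMap.trace ℂ E ∘ₗ ContinuousLinearMap.coeLM ℂ)

lemma ntr_apply (S : E →L[ℂ] E) {ι : Type*} [Fintype ι] (b : OrthonormalBasis ι ℂ E) :
    ntr S = ((Module.finrank ℂ E : ℂ)⁻¹) * ∑ i, ⟪b i, S (b i)⟫_ℂ := by
  show ((Module.finrank ℂ E : ℂ)⁻¹) * LinearMap.trace ℂ E (S : E →ₗ[ℂ] E) = _
  rw [LinearMap.trace_eq_sum_inner _ b]
  rfl

lemma ntr_comm (S U : E →L[ℂ] E) : ntr (S * U) = ntr (U * S) := by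
  show ((Module.finrank ℂ E : ℂ)⁻¹) * LinearMap.trace ℂ E ((S : E →ₗ[ℂ] E) * (U : E →ₗ[ℂ] E)) =
    ((Module.finrank ℂ E : ℂ)⁻¹) * LinearMap.trace ℂ E ((U : E →ₗ[ℂ] E) * (S : E →ₗ[ℂ] E))
  rw [LinearMap.trace_mul_comm]

lemma ntr_star_mul (S : E →L[ℂ] E) {ι : Type*} [Fintype ι] (b : OrthonormalBasis ι ℂ E) :
    ntr (star S * S) = (((Module.finrank ℂ E : ℝ)⁻¹ * ∑ i, ‖S (b i)‖ ^ 2 : ℝ) : ℂ) := by
  rw [ntr_apply _ b]
  push_cast
  congr 1
  refine Finset.sum_congr rfl fun i _ => ?_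
  show ⟪b i, (ContinuousLinearMap.adjoint S) (S (b i))⟫_ℂ = _
  rw [ContinuousLinearMap.adjoint_inner_right, inner_self_eq_norm_sq_to_K]
  rfl

lemma ntr_nonneg (S : E →L[ℂ] E) : 0 ≤ ntr (star S * S) := by
  rw [ntr_star_mul S (stdOrthonormalBasis ℂ E)]
  rw [Complex.zero_le_real]
  positivity

lemma ntr_one [Nontrivial E] : ntr (1 : E →L[ℂ] E) = 1 := by
  have h : (Module.finrank ℂ E : ℂ) ≠ 0 := by
    exact_mod_cast (Module.finrank_pos (R := ℂ) (M := E)).ne'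
  rw [ntr_apply _ (stdOrthonormalBasis ℂ E)]
  have : ∀ i, ⟪stdOrthonormalBasis ℂ E i, (1 : E →L[ℂ] E) (stdOrthonormalBasis ℂ E i)⟫_ℂ = 1 := by
    intro i
    rw [one_apply_eq_self, inner_self_eq_norm_sq_to_K,
      (stdOrthonormalBasis ℂ E).norm_eq_one]
    simp
  simp only [this, Finset.sum_const, Finset.card_univ, Fintype.card_fin, nsmul_eq_mul, mul_one]
  exact inv_mul_cancel₀ h

lemma norm_sq_le_sum (S : E →L[ℂ] E) {ι : Type*} [Fintype ι] (b : OrthonormalBasis ι ℂ E) :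
    ‖S‖ ^ 2 ≤ ∑ i, ‖S (b i)‖ ^ 2 := by
  have h : ‖S‖ ≤ Real.sqrt (∑ i, ‖S (b i)‖ ^ 2) := by
    refine S.opNorm_le_bound (Real.sqrt_nonneg _) fun v => ?_
    calc ‖S v‖ = ‖∑ i, ⟪b i, v⟫_ℂ • S (b i)‖ := by
          conv_lhs => rw [← b.sum_repr' v]
          rw [map_sum]
          simp only [map_smul]
      _ ≤ ∑ i, ‖⟪b i, v⟫_ℂ • S (b i)‖ := norm_sum_le _ _
      _ = ∑ i, ‖⟪b i, v⟫_ℂ‖ * ‖S (b i)‖ := by simp only [norm_smul]
      _ ≤ Real.sqrt (∑ i, ‖⟪b i, v⟫_ℂ‖ ^ 2) * Real.sqrt (∑ i, ‖S (b i)‖ ^ 2) :=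
          Real.sum_mul_le_sqrt_mul_sqrt _ _ _
      _ = Real.sqrt (∑ i, ‖S (b i)‖ ^ 2) * ‖v‖ := by
          rw [b.sum_sq_norm_inner_right, Real.sqrt_sq (norm_nonneg _), mul_comm]
  calc ‖S‖ ^ 2 ≤ Real.sqrt (∑ i, ‖S (b i)‖ ^ 2) ^ 2 := by gcongr
    _ = _ := Real.sq_sqrt (by positivity)

lemma norm_ntr_le [Nontrivial E] (S : E →L[ℂ] E) : ‖ntr S‖ ≤ 1 * ‖S‖ := by
  have h : 0 < (Module.finrank ℂ E : ℝ) := by exact_mod_cast Module.finrank_pos (R := ℂ) (M := E)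
  rw [ntr_apply _ (stdOrthonormalBasis ℂ E), norm_mul, norm_inv, Complex.norm_natCast,
    inv_mul_le_iff₀ h]
  calc _ ≤ ∑ i, ‖⟪stdOrthonormalBasis ℂ E i, S (stdOrthonormalBasis ℂ E i)⟫_ℂ‖ := norm_sum_le _ _
    _ ≤ ∑ _i : Fin (Module.finrank ℂ E), ‖S‖ := by
        refine Finset.sum_le_sum fun i _ => ?_
        refine (norm_inner_le_norm _ _).trans ?_
        rw [(stdOrthonormalBasis ℂ E).norm_eq_one, one_mul]
        refine (S.le_opNorm _).trans ?_
        rw [(stdOrthonormalBasis ℂ E).norm_eq_one, mul_one]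
    _ = _ := by simp

lemma norm_sq_le_ntr [Nontrivial E] (S : E →L[ℂ] E) :
    ‖S‖ ^ 2 ≤ Module.finrank ℂ E * (ntr (star S * S)).re := by
  have h : 0 < (Module.finrank ℂ E : ℝ) := by exact_mod_cast Module.finrank_pos (R := ℂ) (M := E)
  rw [ntr_star_mul S (stdOrthonormalBasis ℂ E), Complex.ofReal_re, ← mul_assoc,
    mul_inv_cancel₀ h.ne', one_mul]
  exact norm_sq_le_sum S _

variable {A : Type*} [CStarAlgebra A]

/-- The tracial state of a finite-dimensional representation. -/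
noncomputable def rtr [Nontrivial E] (ρ : A →⋆ₐ[ℂ] (E →L[ℂ] E)) : WeakDual ℂ A :=
  StrongDual.toWeakDual (LinearMap.mkContinuous (ntr ∘ₗ ρ.toAlgHom.toLinearMap) 1 (fun a => by
    refine (norm_ntr_le _).trans ?_
    gcongr
    exact NonUnitalStarAlgHom.norm_apply_le ρ a))

lemma rtr_apply [Nontrivial E] (ρ : A →⋆ₐ[ℂ] (E →L[ℂ] E)) (a : A) : rtr ρ a = ntr (ρ a) := rfl

lemma rtr_mem [Nontrivial A] [Nontrivial E] (ρ : A →⋆ₐ[ℂ] (E →L[ℂ] E)) : rtr ρ ∈ T A := by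
  refine mem_T_of (fun a => ?_) ?_ (fun a b => ?_)
  · rw [rtr_apply, map_mul ρ, map_star]; exact ntr_nonneg _
  · rw [rtr_apply, map_one ρ, ntr_one]
  · rw [rtr_apply, rtr_apply, map_mul ρ, map_mul ρ, ntr_comm]

lemma norm_rep_le [Nontrivial A] [Nontrivial E] (ρ : A →⋆ₐ[ℂ] (E →L[ℂ] E)) (a : A) :
    ‖ρ a‖ ≤ Real.sqrt (Module.finrank ℂ E) * norm2 a := by
  have h1 := norm_sq_le_ntr (ρ a)
  have h2 := nf_le_norm2 (rtr_mem ρ) a
  rw [nf, lin_apply, rtr_apply, map_mul ρ, map_star] at h2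
  calc ‖ρ a‖ = Real.sqrt (‖ρ a‖ ^ 2) := (Real.sqrt_sq (norm_nonneg _)).symm
    _ ≤ Real.sqrt (Module.finrank ℂ E * (ntr (star (ρ a) * ρ a)).re) := Real.sqrt_le_sqrt h1
    _ = Real.sqrt (Module.finrank ℂ E) * Real.sqrt ((ntr (star (ρ a) * ρ a)).re) :=
        Real.sqrt_mul (by positivity) _
    _ ≤ _ := by gcongr

end FD

/-- The data used to produce a discontinuous character of the uniform tracial completion. -/
structure Model (A : Type*) [CStarAlgebra A] (Y : ℕ → Type*) (E : ℕ → Type*)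
    [∀ n, NormedAddCommGroup (E n)] [∀ n, InnerProductSpace ℂ (E n)]
    [∀ n, CompleteSpace (E n)] (ι : ℕ → Type*) [∀ n, Fintype (ι n)] where
  /-- representations -/
  π : ∀ n, Y n → (A →⋆ₐ[ℂ] (E n →L[ℂ] E n))
  /-- unit vectors -/
  e : ∀ n, E n
  he : ∀ n, ‖e n‖ = 1
  /-- projections -/
  p : ℕ → A
  p_star : ∀ n, star (p n) = p n
  p_mul : ∀ n m, p n * p m = if n = m then p n else 0
  π_p : ∀ n m y, π n y (p m) (e n) = if n = m then e n else 0
  /-- elements witnessing the smallness of the projections in traces -/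
  a : ∀ n, ι n → A
  /-- auxiliary elements -/
  c : ℕ → A
  norm_le : ∀ J : Finset ℕ, ‖∑ n ∈ J, ∑ i, a n i * star (a n i)‖ ≤ 1
  sum_eq : ∀ n, ∑ i, star (a n i) * a n i = (n : ℂ) • p n + star (c n) * c n
  kill : ∀ (F : Finset A) (n : ℕ), F.card ≤ n → ∀ ε > 0, ∃ y : Y n, ∀ x ∈ F,
    ‖π n y x (e n) - ⟪e n, π n y x (e n)⟫_ℂ • e n‖ ≤ ε

namespace Model

variable {A : Type*} [CStarAlgebra A] [Nontrivial A] {Y : ℕ → Type*} {E : ℕ → Type*}
    [∀ n, NormedAddCommGroup (E n)] [∀ n, InnerProductSpace ℂ (E n)]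
    [∀ n, CompleteSpace (E n)] [∀ n, FiniteDimensional ℂ (E n)] [∀ n, Nontrivial (E n)]
    {ι : ℕ → Type*} [∀ n, Fintype (ι n)]
    (M : Model A Y E ι)

/-- Finite sums of the projections. -/
noncomputable def P (J : Finset ℕ) : A := ∑ n ∈ J, M.p n

lemma P_star (J : Finset ℕ) : star (M.P J) = M.P J := by
  rw [P, star_sum]
  exact Finset.sum_congr rfl fun n _ => M.p_star n

lemma P_mul (J : Finset ℕ) : M.P J * M.P J = M.P J := by
  rw [P, Finset.sum_mul_sum]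
  refine Finset.sum_congr rfl fun n hn => ?_
  simp_rw [M.p_mul]
  rw [Finset.sum_ite_eq, if_pos hn]

lemma norm_P_le (J : Finset ℕ) : ‖M.P J‖ ≤ 1 := by
  have h : ‖M.P J‖ * ‖M.P J‖ = ‖M.P J‖ := by
    rw [← CStarRing.norm_star_mul_self, P_star, P_mul]
  rcases eq_or_lt_of_le (norm_nonneg (M.P J)) with h0 | h0
  · rw [← h0]; exact zero_le_one
  · nlinarith

lemma tr_P_le {τ : WeakDual ℂ A} (hτ : τ ∈ T A) {N : ℕ} {J : Finset ℕ} (hJ : ∀ n ∈ J, N ≤ n) :
    N * (lin τ (M.P J)).re ≤ 1 := by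
  have hp : ∀ n, 0 ≤ (lin τ (M.p n)).re := by
    intro n
    have := (T.pos hτ).re_nonneg (M.p n)
    rwa [M.p_star, M.p_mul, if_pos rfl] at this
  have h1 : lin τ (∑ n ∈ J, ∑ i, M.a n i * star (M.a n i)) =
      ∑ n ∈ J, ((n : ℂ) * lin τ (M.p n) + lin τ (star (M.c n) * M.c n)) := by
    rw [map_sum]
    refine Finset.sum_congr rfl fun n _ => ?_
    rw [map_sum]
    have : ∀ i, lin τ (M.a n i * star (M.a n i)) = lin τ (star (M.a n i) * M.a n i) :=
      fun i => hτ.2.2 _ _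
    simp_rw [this]
    rw [← map_sum, M.sum_eq, map_add, map_smul, smul_eq_mul]
  calc N * (lin τ (M.P J)).re = ∑ n ∈ J, (N : ℝ) * (lin τ (M.p n)).re := by
        rw [P, map_sum, Complex.re_sum, Finset.mul_sum]
    _ ≤ ∑ n ∈ J, ((n : ℂ) * lin τ (M.p n) + lin τ (star (M.c n) * M.c n)).re := by
        refine Finset.sum_le_sum fun n hn => ?_
        rw [Complex.add_re]
        have e1 : ((n : ℂ) * lin τ (M.p n)).re = (n : ℝ) * (lin τ (M.p n)).re := by
          rw [← Complex.ofReal_natCast, Complex.re_ofReal_mul]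
        rw [e1]
        have e2 := (T.pos hτ).re_nonneg (M.c n)
        have e3 : (N : ℝ) ≤ n := by exact_mod_cast hJ n hn
        have e4 := mul_le_mul_of_nonneg_right e3 (hp n)
        linarith
    _ = (lin τ (∑ n ∈ J, ∑ i, M.a n i * star (M.a n i))).re := by rw [h1, Complex.re_sum]
    _ ≤ ‖lin τ (∑ n ∈ J, ∑ i, M.a n i * star (M.a n i))‖ := Complex.re_le_norm _
    _ ≤ 1 * ‖∑ n ∈ J, ∑ i, M.a n i * star (M.a n i)‖ := T.norm_le hτ _
    _ ≤ 1 := by rw [one_mul]; exact M.norm_le J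

lemma norm2_P_le {N : ℕ} (hN : 0 < N) {J : Finset ℕ} (hJ : ∀ n ∈ J, N ≤ n) :
    norm2 (M.P J) ≤ (Real.sqrt N)⁻¹ := by
  have hN' : (0 : ℝ) < N := by exact_mod_cast hN
  refine norm2_le (by positivity) fun τ hτ => ?_
  rw [nf, P_star, P_mul, ← Real.sqrt_inv]
  apply Real.sqrt_le_sqrt
  have := M.tr_P_le hτ hJ
  rw [← one_div, le_div_iff₀ hN', mul_comm]
  exact this

/-- The sequences of partial sums of the projections with index at least `N + 1`. -/
noncomputable def seq (N : ℕ) : CauchySeqs A :=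
  CauchySeqs.mk (fun k => M.P (Finset.Ico (N + 1) (N + 1 + k))) ⟨⟨1, fun k => M.norm_P_le _⟩, by
    have key : ∀ k l, k ≤ l → norm2 (M.P (Finset.Ico (N + 1) (N + 1 + k)) -
        M.P (Finset.Ico (N + 1) (N + 1 + l))) ≤ (Real.sqrt (N + 1 + k : ℕ))⁻¹ := by
      intro k l hkl
      have : M.P (Finset.Ico (N + 1) (N + 1 + l)) = M.P (Finset.Ico (N + 1) (N + 1 + k)) +
          M.P (Finset.Ico (N + 1 + k) (N + 1 + l)) := by
        rw [P, P, P, Finset.sum_Ico_consecutive _ (by omega) (by omega)]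
      rw [norm2_sub_comm, this, add_sub_cancel_left]
      exact M.norm2_P_le (by omega) (fun n hn => (Finset.mem_Ico.1 hn).1)
    intro ε hε
    have h0 : Tendsto (fun k : ℕ => (Real.sqrt (N + 1 + k : ℕ))⁻¹) atTop (𝓝 0) := by
      apply Tendsto.inv_tendsto_atTop
      apply Real.tendsto_sqrt_atTop.comp
      apply tendsto_natCast_atTop_atTop.comp
      exact tendsto_atTop_mono (fun k => by simp only [id]; omega) tendsto_id
    obtain ⟨K, hK⟩ := eventually_atTop.1 (h0.eventually (gt_mem_nhds hε))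
    refine ⟨K, fun k hk l hl => ?_⟩
    rcases le_total k l with h | h
    · exact (key k l h).trans_lt (hK k hk)
    · rw [norm2_sub_comm]
      exact (key l k h).trans_lt (hK l hl)⟩

lemma seq_apply (N k : ℕ) :
    (M.seq N : ℕ → A) k = M.P (Finset.Ico (N + 1) (N + 1 + k)) := rfl

lemma cnorm2_seq_le (N : ℕ) : cnorm2 (cls (M.seq N)) ≤ (Real.sqrt (N + 1 : ℕ))⁻¹ := by
  refine le_of_tendsto (cnorm2_spec (M.seq N)) (Eventually.of_forall fun k => ?_)
  exact M.norm2_P_le (by omega) (fun n hn => (Finset.mem_Ico.1 hn).1)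

lemma π_seq (N k n : ℕ) (y : Y n) :
    M.π n y ((M.seq N : ℕ → A) k) (M.e n) = if N + 1 ≤ n ∧ n < N + 1 + k then M.e n else 0 := by
  rw [seq_apply, P, map_sum, sum_apply]
  simp_rw [M.π_p]
  rw [Finset.sum_ite_eq]
  simp only [Finset.mem_Ico]

lemma exists_pt (F : Finset (CauchySeqs A)) (N : ℕ) {ε : ℝ} (hε : 0 < ε) :
    ∃ n ≥ N, ∃ (k : ℕ) (y : Y n),
      (∀ x ∈ F, ‖M.π n y ((x : ℕ → A) k) (M.e n) -
        ⟪M.e n, M.π n y ((x : ℕ → A) k) (M.e n)⟫_ℂ • M.e n‖ ≤ ε) ∧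
      ∀ x ∈ F, ∀ l ≥ k, ‖M.π n y ((x : ℕ → A) l - (x : ℕ → A) k)‖ ≤ ε := by
  classical
  set n := max N F.card with hn
  set d : ℝ := Real.sqrt (Module.finrank ℂ (E n)) with hd
  have hd0 : 0 ≤ d := Real.sqrt_nonneg _
  have hx : ∀ x : CauchySeqs A, ∃ K, ∀ k ≥ K, ∀ l ≥ K,
      norm2 ((x : ℕ → A) k - (x : ℕ → A) l) < ε / (d + 1) := fun x => x.prop.2 _ (by positivity)
  choose K hK using hx
  set k := F.sup K with hk
  obtain ⟨y, hy⟩ := M.kill (Finset.image (fun x : CauchySeqs A => (x : ℕ → A) k) F) n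
    (Finset.card_image_le.trans (le_max_right _ _)) ε hε
  refine ⟨n, le_max_left _ _, k, y, fun x hx => hy _ (Finset.mem_image_of_mem _ hx), ?_⟩
  intro x hxF l hl
  have hkx : K x ≤ k := Finset.le_sup hxF
  calc _ ≤ d * norm2 ((x : ℕ → A) l - (x : ℕ → A) k) := norm_rep_le _ _
    _ ≤ d * (ε / (d + 1)) := by
        gcongr
        exact (hK x l (hkx.trans hl) k hkx).le
    _ ≤ ε := by
        rw [mul_div_assoc', div_le_iff₀ (by positivity)]
        nlinarith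

/-- The directed set indexing the points. -/
abbrev Γ (A : Type*) [CStarAlgebra A] := Finset (CauchySeqs A) × ℕ

open Classical in
instance : Nonempty (Γ A) := ⟨(∅, 0)⟩

open Classical in
instance : (atTop : Filter (Γ A)).NeBot := inferInstance

/-- The size of the error at an index. -/
noncomputable def err (γ : Γ A) : ℝ := 1 / ((γ.2 : ℝ) + 1)

lemma err_pos (γ : Γ A) : 0 < err γ := by unfold err; positivity

/-- The level of a point. -/
noncomputable def lv (γ : Γ A) : ℕ := (M.exists_pt γ.1 γ.2 (err_pos γ)).choose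

lemma lv_ge (γ : Γ A) : γ.2 ≤ M.lv γ := (M.exists_pt γ.1 γ.2 (err_pos γ)).choose_spec.1

/-- The sequence index of a point. -/
noncomputable def kk (γ : Γ A) : ℕ := (M.exists_pt γ.1 γ.2 (err_pos γ)).choose_spec.2.choose

/-- The parameter of a point. -/
noncomputable def yy (γ : Γ A) : Y (M.lv γ) :=
  (M.exists_pt γ.1 γ.2 (err_pos γ)).choose_spec.2.choose_spec.choose

lemma spec1 (γ : Γ A) : ∀ x ∈ γ.1, ‖M.π (M.lv γ) (M.yy γ) ((x : ℕ → A) (M.kk γ)) (M.e _) -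
    ⟪M.e _, M.π (M.lv γ) (M.yy γ) ((x : ℕ → A) (M.kk γ)) (M.e _)⟫_ℂ • M.e _‖ ≤ err γ :=
  (M.exists_pt γ.1 γ.2 (err_pos γ)).choose_spec.2.choose_spec.choose_spec.1

lemma spec2 (γ : Γ A) : ∀ x ∈ γ.1, ∀ l ≥ M.kk γ,
    ‖M.π (M.lv γ) (M.yy γ) ((x : ℕ → A) l - (x : ℕ → A) (M.kk γ))‖ ≤ err γ :=
  (M.exists_pt γ.1 γ.2 (err_pos γ)).choose_spec.2.choose_spec.choose_spec.2

/-- The ultrafilter along which we take limits. -/
noncomputable def U (A : Type*) [CStarAlgebra A] : Ultrafilter (Γ A) := Ultrafilter.of atTop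

lemma err_tendsto : Tendsto (err (A := A)) (U A) (𝓝 0) := by
  have h1 : Tendsto (err (A := A)) atTop (𝓝 0) := by
    unfold err
    have : Tendsto (fun γ : Γ A => γ.2) atTop atTop := by
      rw [← prod_atTop_atTop_eq]
      exact tendsto_snd
    exact tendsto_one_div_add_atTop_nhds_zero_nat.comp this
  exact h1.mono_left (Ultrafilter.of_le _)

lemma eventually_mem (x : CauchySeqs A) (N : ℕ) :
    ∀ᶠ γ in (U A : Filter (Γ A)), x ∈ γ.1 ∧ N ≤ γ.2 := by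
  have h1 : ∀ᶠ γ in (atTop : Filter (Γ A)), x ∈ γ.1 ∧ N ≤ γ.2 := by
    filter_upwards [eventually_ge_atTop (({x}, N) : Γ A)] with γ hγ
    exact ⟨Finset.singleton_subset_iff.1 hγ.1, hγ.2⟩
  exact h1.filter_mono (Ultrafilter.of_le _)

/-- The value of the vector functional at a point. -/
noncomputable def val (x : CauchySeqs A) (γ : Γ A) : ℂ :=
  ⟪M.e _, M.π (M.lv γ) (M.yy γ) ((x : ℕ → A) (M.kk γ)) (M.e _)⟫_ℂ

end Model

end Pool.Agent.Helper133.TP
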