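import Mathlib
import Pool.Agent.Helper133.TP2

/-!
# A discontinuous character of the uniform tracial completion
-/

open scoped ComplexOrder Topology InnerProductSpace
open Filter

set_option linter.unusedSectionVars false

namespace Pool.Agent.Helper133.TP

namespace Model

variable {A : Type*} [CStarAlgebra A] [Nontrivial A] {Y : ℕ → Type*} {E : ℕ → Type*}
    [∀ n, NormedAddCommGroup (E n)] [∀ n, InnerProductSpace ℂ (E n)]
    [∀ n, CompleteSpace (E n)] [∀ n, FiniteDimensional ℂ (E n)] [∀ n, Nontrivial (E n)]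
    {ι : ℕ → Type*} [∀ n, Fintype (ι n)]
    (M : Model A Y E ι)

lemma norm_π_le (γ : Γ A) (a : A) : ‖M.π (M.lv γ) (M.yy γ) a‖ ≤ ‖a‖ :=
  NonUnitalStarAlgHom.norm_apply_le _ a

lemma norm_val_le (x : CauchySeqs A) {C : ℝ} (hC : ∀ k, ‖(x : ℕ → A) k‖ ≤ C) (γ : Γ A) :
    ‖M.val x γ‖ ≤ C := by
  rw [val]
  calc _ ≤ ‖M.e _‖ * ‖M.π (M.lv γ) (M.yy γ) ((x : ℕ → A) (M.kk γ)) (M.e _)‖ :=
        norm_inner_le_norm _ _
    _ = ‖M.π (M.lv γ) (M.yy γ) ((x : ℕ → A) (M.kk γ)) (M.e _)‖ := by rw [M.he, one_mul]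
    _ ≤ ‖M.π (M.lv γ) (M.yy γ) ((x : ℕ → A) (M.kk γ))‖ * ‖M.e _‖ :=
        ContinuousLinearMap.le_opNorm _ _
    _ = ‖M.π (M.lv γ) (M.yy γ) ((x : ℕ → A) (M.kk γ))‖ := by rw [M.he, mul_one]
    _ ≤ C := (M.norm_π_le γ _).trans (hC _)

lemma exists_chi (x : CauchySeqs A) : ∃ z : ℂ, Tendsto (M.val x) (U A) (𝓝 z) := by
  obtain ⟨C, hC⟩ := x.prop.1
  have h := (isCompact_closedBall (0 : ℂ) C).ultrafilter_le_nhds' ((U A).map (M.val x)) (by
    rw [Ultrafilter.mem_map]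
    refine univ_mem' fun γ => ?_
    rw [Set.mem_preimage, mem_closedBall_zero_iff]
    exact M.norm_val_le x hC γ)
  obtain ⟨z, -, hz⟩ := h
  exact ⟨z, hz⟩

/-- The limit of the vector functionals. -/
noncomputable def chi (x : CauchySeqs A) : ℂ := (M.exists_chi x).choose

lemma chi_spec (x : CauchySeqs A) : Tendsto (M.val x) (U A) (𝓝 (M.chi x)) :=
  (M.exists_chi x).choose_spec

lemma chi_eq {x : CauchySeqs A} {z : ℂ} (h : Tendsto (M.val x) (U A) (𝓝 z)) : M.chi x = z :=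
  tendsto_nhds_unique (M.chi_spec x) h

lemma chi_add (x y : CauchySeqs A) : M.chi (x + y) = M.chi x + M.chi y := by
  apply M.chi_eq
  refine ((M.chi_spec x).add (M.chi_spec y)).congr fun γ => ?_
  rw [val, val, val, ← inner_add_right, ← add_apply, ← map_add]
  rfl

lemma chi_smul (c : ℂ) (x : CauchySeqs A) : M.chi (c • x) = c * M.chi x := by
  apply M.chi_eq
  refine ((M.chi_spec x).const_mul c).congr fun γ => ?_
  rw [val, val, ← inner_smul_right, ← smul_apply, ← map_smul]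
  rfl

lemma chi_one : M.chi 1 = 1 := by
  apply M.chi_eq
  refine tendsto_const_nhds.congr fun γ => ?_
  rw [val]
  have : M.π (M.lv γ) (M.yy γ) (((1 : CauchySeqs A) : ℕ → A) (M.kk γ)) = 1 := by
    show M.π (M.lv γ) (M.yy γ) 1 = 1
    rw [map_one]
  rw [this, one_apply_eq_self, inner_self_eq_norm_sq_to_K, M.he]
  simp

lemma chi_mul (x y : CauchySeqs A) : M.chi (x * y) = M.chi x * M.chi y := by
  apply M.chi_eq
  have h1 := (M.chi_spec x).mul (M.chi_spec y)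
  obtain ⟨C, hC⟩ := x.prop.1
  have h2 : Tendsto (fun γ => M.val (x * y) γ - M.val x γ * M.val y γ) (U A) (𝓝 0) := by
    rw [tendsto_zero_iff_norm_tendsto_zero]
    have h3 : Tendsto (fun γ : Γ A => C * err γ) (U A) (𝓝 0) := by
      simpa using err_tendsto.const_mul C
    refine squeeze_zero' (Eventually.of_forall fun γ => norm_nonneg _) ?_ h3
    filter_upwards [eventually_mem y 0] with γ hγ
    set ρ := M.π (M.lv γ) (M.yy γ) with hρ
    set a := (x : ℕ → A) (M.kk γ) with ha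
    set b := (y : ℕ → A) (M.kk γ) with hb
    set v := M.e (M.lv γ) with hv
    have h4 := M.spec1 γ y hγ.1
    have h5 : M.val (x * y) γ - M.val x γ * M.val y γ =
        ⟪v, ρ a (ρ b v - ⟪v, ρ b v⟫_ℂ • v)⟫_ℂ := by
      have e1 : M.val (x * y) γ = ⟪v, ρ a (ρ b v)⟫_ℂ := by
        show ⟪v, ρ (a * b) v⟫_ℂ = _
        rw [map_mul]
        rfl
      rw [e1, map_sub, inner_sub_right, map_smul, inner_smul_right, val, val]
      ring
    rw [h5]
    calc _ ≤ ‖v‖ * ‖ρ a (ρ b v - ⟪v, ρ b v⟫_ℂ • v)‖ := norm_inner_le_norm _ _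
      _ = ‖ρ a (ρ b v - ⟪v, ρ b v⟫_ℂ • v)‖ := by rw [hv, M.he, one_mul]
      _ ≤ ‖ρ a‖ * ‖ρ b v - ⟪v, ρ b v⟫_ℂ • v‖ := ContinuousLinearMap.le_opNorm _ _
      _ ≤ C * err γ := by
          refine mul_le_mul ((M.norm_π_le γ _).trans (hC _)) h4 (norm_nonneg _) ?_
          exact (norm_nonneg _).trans (hC 0)
  have h3 := h2.add h1
  simpa using h3

lemma chi_star_mul_nonneg (x : CauchySeqs A) : 0 ≤ M.chi (star x * x) := by
  refine ge_of_tendsto (M.chi_spec (star x * x)) (Eventually.of_forall fun γ => ?_)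
  have e1 : M.val (star x * x) γ =
      ⟪M.e _, M.π (M.lv γ) (M.yy γ) (star ((x : ℕ → A) (M.kk γ)) * (x : ℕ → A) (M.kk γ))
        (M.e _)⟫_ℂ := rfl
  rw [e1, map_mul, map_star]
  show 0 ≤ ⟪M.e _, (ContinuousLinearMap.adjoint (M.π (M.lv γ) (M.yy γ) ((x : ℕ → A) (M.kk γ))))
    (M.π (M.lv γ) (M.yy γ) ((x : ℕ → A) (M.kk γ)) (M.e _))⟫_ℂ
  rw [ContinuousLinearMap.adjoint_inner_right, inner_self_eq_norm_sq_to_K]
  refine le_of_le_of_eq (Complex.zero_le_real.2
    (sq_nonneg ‖M.π (M.lv γ) (M.yy γ) ((x : ℕ → A) (M.kk γ)) (M.e _)‖)) ?_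
  push_cast
  rfl

lemma norm_chi_le (x : CauchySeqs A) {C : ℝ} (hC : ∀ k, ‖(x : ℕ → A) k‖ ≤ C) :
    ‖M.chi x‖ ≤ C :=
  le_of_tendsto (M.chi_spec x).norm (Eventually.of_forall fun γ => M.norm_val_le x hC γ)

lemma chi_null (x : CauchySeqs A) (h : Tendsto (fun k => norm2 ((x : ℕ → A) k)) atTop (𝓝 0)) :
    M.chi x = 0 := by
  apply M.chi_eq
  rw [tendsto_zero_iff_norm_tendsto_zero]
  refine squeeze_zero' (Eventually.of_forall fun γ => norm_nonneg _) ?_ err_tendsto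
  filter_upwards [eventually_mem x 0] with γ hγ
  set ρ := M.π (M.lv γ) (M.yy γ) with hρ
  have h1 : ‖ρ ((x : ℕ → A) (M.kk γ))‖ ≤ err γ := by
    have h2 : Tendsto (fun l => ‖ρ ((x : ℕ → A) l)‖) atTop (𝓝 0) := by
      refine squeeze_zero (fun _ => norm_nonneg _) (fun l => norm_rep_le ρ _) ?_
      simpa using h.const_mul _
    have h3 : Tendsto (fun l => err γ + ‖ρ ((x : ℕ → A) l)‖) atTop (𝓝 (err γ)) := by
      simpa using h2.const_add (err γ)
    refine ge_of_tendsto h3 ?_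
    filter_upwards [eventually_ge_atTop (M.kk γ)] with l hl
    have h4 := M.spec2 γ x hγ.1 l hl
    have e : ρ ((x : ℕ → A) (M.kk γ)) = ρ ((x : ℕ → A) l) -
        ρ ((x : ℕ → A) l - (x : ℕ → A) (M.kk γ)) := by
      rw [map_sub]; abel
    rw [e]
    refine (norm_sub_le _ _).trans ?_
    rw [add_comm]
    gcongr
  calc ‖M.val x γ‖ ≤ ‖M.e _‖ * ‖ρ ((x : ℕ → A) (M.kk γ)) (M.e _)‖ := norm_inner_le_norm _ _
    _ = ‖ρ ((x : ℕ → A) (M.kk γ)) (M.e _)‖ := by rw [M.he, one_mul]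
    _ ≤ ‖ρ ((x : ℕ → A) (M.kk γ))‖ * ‖M.e _‖ := ContinuousLinearMap.le_opNorm _ _
    _ = ‖ρ ((x : ℕ → A) (M.kk γ))‖ := by rw [M.he, mul_one]
    _ ≤ _ := h1

lemma chi_sub (x y : CauchySeqs A) : M.chi (x - y) = M.chi x - M.chi y := by
  apply M.chi_eq
  refine ((M.chi_spec x).sub (M.chi_spec y)).congr fun γ => ?_
  rw [val, val, val, ← inner_sub_right, ← sub_apply, ← map_sub]
  rfl

lemma chi_seq (N : ℕ) : M.chi (M.seq N) = 1 := by
  apply M.chi_eq
  rw [tendsto_iff_norm_sub_tendsto_zero]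
  refine squeeze_zero' (Eventually.of_forall fun γ => norm_nonneg _) ?_ err_tendsto
  filter_upwards [eventually_mem (M.seq N) (N + 1)] with γ hγ
  set ρ := M.π (M.lv γ) (M.yy γ) with hρ
  set v := M.e (M.lv γ) with hv
  have hlv : N + 1 ≤ M.lv γ := hγ.2.trans (M.lv_ge γ)
  set l := M.kk γ + M.lv γ + 1 with hl
  have h4 := M.spec2 γ (M.seq N) hγ.1 l (by omega)
  have h5 : ρ ((M.seq N : ℕ → A) l) v = v := by
    rw [hρ, hv, π_seq, if_pos ⟨hlv, by omega⟩]
  have h6 : M.val (M.seq N) γ - 1 =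
      -⟪v, ρ ((M.seq N : ℕ → A) l - (M.seq N : ℕ → A) (M.kk γ)) v⟫_ℂ := by
    rw [map_sub, sub_apply, h5, inner_sub_right, inner_self_eq_norm_sq_to_K, hv, M.he, val]
    simp
    rfl
  rw [h6, norm_neg]
  calc _ ≤ ‖v‖ * ‖ρ ((M.seq N : ℕ → A) l - (M.seq N : ℕ → A) (M.kk γ)) v‖ :=
        norm_inner_le_norm _ _
    _ = ‖ρ ((M.seq N : ℕ → A) l - (M.seq N : ℕ → A) (M.kk γ)) v‖ := by rw [hv, M.he, one_mul]
    _ ≤ ‖ρ ((M.seq N : ℕ → A) l - (M.seq N : ℕ → A) (M.kk γ))‖ * ‖v‖ :=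
        ContinuousLinearMap.le_opNorm _ _
    _ = ‖ρ ((M.seq N : ℕ → A) l - (M.seq N : ℕ → A) (M.kk γ))‖ := by rw [hv, M.he, mul_one]
    _ ≤ _ := h4

/-- The character of the completion. -/
noncomputable def Φ : Completion A →ₗ[ℂ] ℂ where
  toFun := Quotient.lift M.chi (by
    intro x y h
    have h' : Tendsto (fun k => norm2 ((x : ℕ → A) k - (y : ℕ → A) k)) atTop (𝓝 0) := h
    have := M.chi_null (x - y) h'
    rw [chi_sub, sub_eq_zero] at this
    exact this)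
  map_add' := by
    intro x y
    induction x using Quotient.inductionOn' with
    | h x =>
      induction y using Quotient.inductionOn' with
      | h y => exact M.chi_add x y
  map_smul' := by
    intro c x
    induction x using Quotient.inductionOn' with
    | h x => exact M.chi_smul c x

lemma Φ_cls (x : CauchySeqs A) : M.Φ (cls x) = M.chi x := rfl

lemma Φ_mul (ξ η : Completion A) : M.Φ (ξ * η) = M.Φ ξ * M.Φ η := by
  obtain ⟨x, rfl⟩ := cls_surjective ξ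
  obtain ⟨y, rfl⟩ := cls_surjective η
  exact M.chi_mul x y

theorem Φ_isTrace : IsTrace M.Φ where
  nonneg := by
    intro ξ
    obtain ⟨x, rfl⟩ := cls_surjective ξ
    exact M.chi_star_mul_nonneg x
  norm_eq_one := by
    constructor
    · rintro r ⟨ξ, hξ, rfl⟩
      refine le_trans (le_cnorm ?_) hξ
      rintro x rfl C hC
      exact M.norm_chi_le x hC
    · intro b hb
      refine hb ⟨cls 1, cnorm_le 1 (fun k => ?_), ?_⟩
      · show ‖(1 : A)‖ ≤ 1
        rw [CStarRing.norm_one]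
      · rw [Φ_cls, chi_one, norm_one]
  comm := by
    intro ξ η
    rw [Φ_mul, Φ_mul, mul_comm]

theorem Φ_not_continuous : ¬ TwoContinuous M.Φ := by
  intro h
  obtain ⟨δ, hδ, h⟩ := h 0 1 one_pos
  have h0 : Tendsto (fun N : ℕ => (Real.sqrt (N + 1 : ℕ))⁻¹) atTop (𝓝 0) := by
    apply Tendsto.inv_tendsto_atTop
    apply Real.tendsto_sqrt_atTop.comp
    apply tendsto_natCast_atTop_atTop.comp
    exact tendsto_add_atTop_nat 1
  obtain ⟨N, hN⟩ := (h0.eventually (gt_mem_nhds hδ)).exists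
  have h1 := h (cls (M.seq N)) (by
    rw [sub_zero]
    exact (M.cnorm2_seq_le N).trans_lt hN)
  rw [map_zero, sub_zero, Φ_cls, chi_seq, norm_one] at h1
  exact lt_irrefl _ h1

end Model

end Pool.Agent.Helper133.TP
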