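import Mathlib
import Pool.Agent.Helper133.Brouwer

/-!
# Simultaneous approximate zeros of several vector fields
-/

open Set Metric Topology
open scoped InnerProductSpace

namespace Pool.Agent.Helper133.TP

section General

set_option linter.unusedSectionVars false

variable {E : Type*} [NormedAddCommGroup E] [InnerProductSpace ℂ E]

/-- The operator `1 - z z*`. -/
noncomputable def Q (z : E) : E →L[ℂ] E := 1 - InnerProductSpace.rankOne ℂ z z

lemma Q_apply (z v : E) : Q z v = v - ⟪z, v⟫_ℂ • z := rfl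

lemma Q_norm_le {z : E} (v : E) (hz : ‖z‖ ≤ 1) : ‖Q z v‖ ≤ ‖v‖ := by
  have h1 : ‖Q z v‖ ^ 2 = ‖v‖ ^ 2 - 2 * ‖⟪z, v⟫_ℂ‖ ^ 2 + ‖⟪z, v⟫_ℂ‖ ^ 2 * ‖z‖ ^ 2 := by
    rw [Q_apply, @norm_sub_sq ℂ, inner_smul_right, norm_smul, mul_pow]
    have : RCLike.re (⟪z, v⟫_ℂ * ⟪v, z⟫_ℂ) = ‖⟪z, v⟫_ℂ‖ ^ 2 := by
      rw [← inner_conj_symm v z, RCLike.mul_conj]
      norm_cast
    rw [this]
  have h2 : ‖⟪z, v⟫_ℂ‖ ^ 2 * ‖z‖ ^ 2 ≤ ‖⟪z, v⟫_ℂ‖ ^ 2 * 1 := by
    apply mul_le_mul_of_nonneg_left _ (by positivity)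
    exact pow_le_one₀ (norm_nonneg _) hz
  have h3 : ‖Q z v‖ ^ 2 ≤ ‖v‖ ^ 2 := by
    rw [h1]; nlinarith [sq_nonneg ‖⟪z, v⟫_ℂ‖]
  exact (pow_le_pow_iff_left₀ (norm_nonneg _) (norm_nonneg _) two_ne_zero).1 h3

/-- Normalisation of a vector. -/
noncomputable def nz (ε : ℝ) (w : E) : E := ((Real.sqrt (‖w‖ ^ 2 + ε ^ 2))⁻¹ : ℝ) • w

lemma nz_norm_le {ε : ℝ} (hε : 0 < ε) (w : E) : ‖nz ε w‖ ≤ 1 := by
  rw [nz, norm_smul, Real.norm_eq_abs, abs_of_nonneg (by positivity)]
  rw [inv_mul_le_iff₀ (by positivity), mul_one]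
  apply Real.le_sqrt_of_sq_le
  nlinarith [sq_nonneg ε]

lemma nz_continuous {ε : ℝ} (hε : 0 < ε) : Continuous (nz (E := E) ε) := by
  unfold nz
  have : ∀ w : E, Real.sqrt (‖w‖ ^ 2 + ε ^ 2) ≠ 0 := fun w => by positivity
  fun_prop (disch := assumption)

lemma Q_nz {ε : ℝ} (hε : 0 < ε) (w : E) : ‖Q (nz ε w) w‖ ≤ ε := by
  have hs : 0 < ‖w‖ ^ 2 + ε ^ 2 := by positivity
  have h1 : Q (nz ε w) w = ((ε ^ 2 / (‖w‖ ^ 2 + ε ^ 2) : ℝ) : ℂ) • w := by
    rw [Q_apply, nz]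
    set c : ℝ := (Real.sqrt (‖w‖ ^ 2 + ε ^ 2))⁻¹ with hc
    have hc2 : c * c * (‖w‖ ^ 2 + ε ^ 2) = 1 := by
      rw [hc, ← mul_inv, Real.mul_self_sqrt hs.le, inv_mul_cancel₀ hs.ne']
    have e1 : (c • w : E) = (c : ℂ) • w := by
      rw [← Complex.coe_smul]
    rw [e1, inner_smul_left, smul_smul, Complex.conj_ofReal, inner_self_eq_norm_sq_to_K]
    have e2 : w - ((c : ℂ) * (‖w‖ : ℂ) ^ 2 * (c : ℂ)) • w =
        ((1 - c * c * ‖w‖ ^ 2 : ℝ) : ℂ) • w := by
      push_cast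
      rw [sub_smul, one_smul]
      congr 2
      ring
    have e3 : (1 - c * c * ‖w‖ ^ 2 : ℝ) = ε ^ 2 / (‖w‖ ^ 2 + ε ^ 2) := by
      rw [eq_div_iff hs.ne']
      have : c * c * (‖w‖ ^ 2 + ε ^ 2) * ‖w‖ ^ 2 = ‖w‖ ^ 2 := by rw [hc2, one_mul]
      nlinarith
    rw [← e3]
    exact e2
  rw [h1, norm_smul, Complex.norm_real, Real.norm_eq_abs, abs_of_nonneg (by positivity),
    div_mul_eq_mul_div, div_le_iff₀ hs]
  nlinarith [sq_nonneg (‖w‖ - ε), norm_nonneg w, hε, mul_pos hε hε, mul_nonneg hε.le (norm_nonneg w),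
    mul_nonneg (mul_nonneg hε.le hε.le) (norm_nonneg w), mul_nonneg hε.le (sq_nonneg (‖w‖ - ε))]

lemma Q_continuous : Continuous (fun p : E × E => Q p.1 p.2) := by
  simp only [Q_apply]; fun_prop

/-- The composition `(1 - z_{k-1} z_{k-1}*) ⋯ (1 - z_0 z_0*)`. -/
noncomputable def Rc (z : ℕ → E) : ℕ → (E →L[ℂ] E)
  | 0 => 1
  | k + 1 => Q (z k) * Rc z k

lemma Rc_succ_apply (z : ℕ → E) (k : ℕ) (v : E) : Rc z (k + 1) v = Q (z k) (Rc z k v) := rfl

lemma Rc_zero_apply (z : ℕ → E) (v : E) : Rc z 0 v = v := rfl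

lemma Rc_norm_le {z : ℕ → E} (hz : ∀ k, ‖z k‖ ≤ 1) (k : ℕ) (v : E) : ‖Rc z k v‖ ≤ ‖v‖ := by
  induction k with
  | zero => exact le_rfl
  | succ k ih => exact (Q_norm_le _ (hz k)).trans ih

lemma Rc_anti {z : ℕ → E} (hz : ∀ k, ‖z k‖ ≤ 1) {k l : ℕ} (hkl : k ≤ l) (v : E) :
    ‖Rc z l v‖ ≤ ‖Rc z k v‖ := by
  induction l, hkl using Nat.le_induction with
  | base => exact le_rfl
  | succ l _ ih => exact (Q_norm_le _ (hz l)).trans ih

lemma Rc_congr {z z' : ℕ → E} {k : ℕ} (h : ∀ i < k, z i = z' i) : Rc z k = Rc z' k := by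
  induction k with
  | zero => rfl
  | succ k ih =>
    rw [Rc, Rc, ih (fun i hi => h i (by omega)), h k (by omega)]

lemma Rc_continuous (k : ℕ) : Continuous fun p : (ℕ → E) × E => Rc p.1 k p.2 := by
  induction k with
  | zero => exact continuous_snd
  | succ k ih =>
    exact Q_continuous.comp (((continuous_apply k).comp continuous_fst).prodMk ih)

lemma inner_Rc {z : ℕ → E} {k : ℕ} {u : E} (h : ∀ i < k, ⟪u, z i⟫_ℂ = 0) (v : E) :
    ⟪u, Rc z k v⟫_ℂ = ⟪u, v⟫_ℂ := by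
  induction k with
  | zero => rfl
  | succ k ih =>
    rw [Rc_succ_apply, Q_apply, inner_sub_right, inner_smul_right, h k (by omega), mul_zero,
      sub_zero]
    exact ih (fun i hi => h i (by omega))

/-- The recursion solving the fixed point problem. -/
noncomputable def S (ε : ℝ) (w : ℕ → E) : ℕ → (E →L[ℂ] E)
  | 0 => 1
  | k + 1 => Q (nz ε (S ε w k (w k))) * S ε w k

lemma S_continuous {ε : ℝ} (hε : 0 < ε) (k : ℕ) :
    Continuous fun p : (ℕ → E) × E => S ε p.1 k p.2 := by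
  induction k with
  | zero => exact continuous_snd
  | succ k ih =>
    have h1 : Continuous fun p : (ℕ → E) × E => nz ε (S ε p.1 k (p.1 k)) :=
      (nz_continuous hε).comp (ih.comp (continuous_fst.prodMk
        ((continuous_apply k).comp continuous_fst)))
    exact Q_continuous.comp (h1.prodMk ih)

lemma S_eq_Rc {ε : ℝ} {w z : ℕ → E} {n : ℕ} (h : ∀ k < n, z k = nz ε (S ε w k (w k))) {k : ℕ}
    (hk : k ≤ n) : Rc z k = S ε w k := by
  induction k with
  | zero => rfl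
  | succ k ih =>
    rw [Rc, S, ih (by omega), h k (by omega)]

/-- Retraction onto the closed unit ball. -/
noncomputable def ret (z : E) : closedBall (0 : E) 1 :=
  ⟨((max 1 ‖z‖)⁻¹ : ℝ) • z, by
    rw [mem_closedBall_zero_iff, norm_smul, Real.norm_eq_abs, abs_of_nonneg (by positivity),
      inv_mul_le_iff₀ (by positivity), mul_one]
    exact le_max_right _ _⟩

lemma ret_continuous : Continuous (ret (E := E)) := by
  unfold ret
  have : ∀ z : E, max 1 ‖z‖ ≠ 0 := fun z => by positivity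
  refine Continuous.subtype_mk ?_ _
  fun_prop (disch := assumption)

lemma ret_of_le {z : E} (hz : ‖z‖ ≤ 1) : (ret z : E) = z := by
  simp [ret, max_eq_left hz]

/-- Extension by zero of a finite family of vectors in the unit ball. -/
noncomputable def ex {n : ℕ} (t : Fin n → closedBall (0 : E) 1) : ℕ → E :=
  fun k => if h : k < n then (t ⟨k, h⟩ : E) else 0

lemma ex_norm_le {n : ℕ} (t : Fin n → closedBall (0 : E) 1) (k : ℕ) : ‖ex t k‖ ≤ 1 := by
  unfold ex
  split_ifs with h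
  · exact mem_closedBall_zero_iff.1 (t ⟨k, h⟩).2
  · rw [norm_zero]; exact zero_le_one

lemma ex_continuous {n : ℕ} : Continuous fun t : Fin n → closedBall (0 : E) 1 => ex t := by
  refine continuous_pi fun k => ?_
  by_cases h : k < n
  · simp only [ex, h, dif_pos]
    exact continuous_subtype_val.comp (continuous_apply _)
  · simp only [ex, h, dif_neg, not_false_eq_true]
    exact continuous_const

/-- The operator attached to a point of the parameter space: a product of operators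
`1 - z z*`, the last one being `1 - e e*`. -/
noncomputable def Tt (e : E) {n : ℕ} (t : Fin n → closedBall (0 : E) 1) : E →L[ℂ] E :=
  Q e * Rc (ex t) n

lemma Tt_apply (e : E) {n : ℕ} (t : Fin n → closedBall (0 : E) 1) (v : E) :
    Tt e t v = Q e (Rc (ex t) n v) := rfl

lemma Tt_norm_le {e : E} (he : ‖e‖ = 1) {n : ℕ} (t : Fin n → closedBall (0 : E) 1) (v : E) :
    ‖Tt e t v‖ ≤ ‖v‖ :=
  (Q_norm_le _ he.le).trans (Rc_norm_le (ex_norm_le t) n v)

lemma Tt_continuous (e : E) {n : ℕ} (v : E) :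
    Continuous fun t : Fin n → closedBall (0 : E) 1 => Tt e t v :=
  (Q e).continuous.comp ((Rc_continuous n).comp (ex_continuous.prodMk continuous_const))

lemma inner_e_Tt {e : E} (he : ‖e‖ = 1) {n : ℕ} (t : Fin n → closedBall (0 : E) 1) (v : E) :
    ⟪e, Tt e t v⟫_ℂ = 0 := by
  rw [Tt_apply, Q_apply, inner_sub_right, inner_smul_right, inner_self_eq_norm_sq_to_K, he]
  simp

variable [FiniteDimensional ℂ E]

/-- Simultaneous approximate zeros. -/
theorem exists_kill {e : E} (he : ‖e‖ = 1) {n : ℕ}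
    (w : Fin n → (Fin n → closedBall (0 : E) 1) → E) (hw : ∀ i, Continuous (w i))
    {ε : ℝ} (hε : 0 < ε) : ∃ t, ∀ i, ‖Tt e t (w i t)‖ ≤ ε := by
  classical
  have : FiniteDimensional ℝ E := FiniteDimensional.complexToReal E
  let rt : (Fin n → E) → (Fin n → closedBall (0 : E) 1) := fun y k => ret (y k)
  have hrt : Continuous rt := continuous_pi fun k => ret_continuous.comp (continuous_apply k)
  let w' : (Fin n → E) → ℕ → E := fun y k => if h : k < n then w ⟨k, h⟩ (rt y) else 0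
  have hw' : Continuous w' := by
    refine continuous_pi fun k => ?_
    by_cases h : k < n
    · simp only [w', h, dif_pos]
      exact (hw _).comp hrt
    · simp only [w', h, dif_neg, not_false_eq_true]
      exact continuous_const
  let Ψ : (Fin n → E) → (Fin n → E) := fun y k => nz ε (S ε (w' y) k (w' y k))
  have hΨ : Continuous Ψ := by
    refine continuous_pi fun k => ?_
    exact (nz_continuous hε).comp ((S_continuous hε k).comp
      (hw'.prodMk ((continuous_apply (k : ℕ)).comp hw')))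
  have hb : ∀ y, ‖Ψ y‖ ≤ 1 := by
    intro y
    rw [pi_norm_le_iff_of_nonneg zero_le_one]
    intro k
    exact nz_norm_le hε _
  obtain ⟨y, hy⟩ := Brouwer.brouwer Ψ hΨ 1 hb
  have hyn : ∀ k, ‖y k‖ ≤ 1 := by
    intro k
    rw [← hy]
    exact nz_norm_le hε _
  refine ⟨rt y, fun i => ?_⟩
  have hz : ∀ k < n, ex (rt y) k = nz ε (S ε (w' y) k (w' y k)) := by
    intro k hk
    have h1 : ex (rt y) k = y ⟨k, hk⟩ := by
      simp only [ex, hk, dif_pos, rt]
      exact ret_of_le (hyn _)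
    rw [h1]
    exact (congrFun hy ⟨k, hk⟩).symm
  have hwi : w i (rt y) = w' y i := by
    simp only [w', i.2, dif_pos]
  rw [hwi]
  calc ‖Tt e (rt y) (w' y i)‖ ≤ ‖Rc (ex (rt y)) n (w' y i)‖ := Q_norm_le _ he.le
    _ ≤ ‖Rc (ex (rt y)) (i + 1) (w' y i)‖ := Rc_anti (ex_norm_le _) i.2 _
    _ = ‖Q (nz ε (S ε (w' y) i (w' y i))) (S ε (w' y) i (w' y i))‖ := by
        rw [Rc_succ_apply, hz i i.2, S_eq_Rc hz i.2.le]
    _ ≤ ε := Q_nz hε _

/-- The Hilbert-Schmidt norms are large. -/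
theorem hs_lower (e : E) {n : ℕ} (t : Fin n → closedBall (0 : E) 1)
    (hd : 2 * n + 1 ≤ Module.finrank ℂ E) {κ : Type*} [Fintype κ] (b : OrthonormalBasis κ ℂ E) :
    (n : ℝ) ≤ ∑ u, ‖Tt e t (b u)‖ ^ 2 := by
  classical
  set G : Finset E := insert e (Finset.univ.image fun i => (t i : E)) with hG
  have hcard : G.card ≤ n + 1 := by
    refine (Finset.card_insert_le _ _).trans ?_
    have := (Finset.card_image_le (s := (Finset.univ : Finset (Fin n))) (f := fun i => (t i : E)))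
    rw [Finset.card_univ, Fintype.card_fin] at this
    omega
  set W : Submodule ℂ E := Submodule.span ℂ (G : Set E) with hW
  have h1 : Module.finrank ℂ W ≤ n + 1 := (finrank_span_finset_le_card G).trans hcard
  have h2 := Submodule.finrank_add_finrank_orthogonal W
  set d := Module.finrank ℂ Wᗮ with hd'
  have h3 : n ≤ d := by omega
  let f : OrthonormalBasis (Fin d) ℂ Wᗮ := stdOrthonormalBasis ℂ Wᗮ
  have hf : Orthonormal ℂ fun i => ((f i : Wᗮ) : E) :=
    f.orthonormal.comp_linearIsometry (Wᗮ.subtypeₗᵢ)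
  have horth : ∀ i, ∀ g ∈ G, ⟪((f i : Wᗮ) : E), g⟫_ℂ = 0 := by
    intro i g hg
    exact Submodule.inner_left_of_mem_orthogonal (Submodule.subset_span hg) (f i).2
  have hT : ∀ i v, ⟪((f i : Wᗮ) : E), Tt e t v⟫_ℂ = ⟪((f i : Wᗮ) : E), v⟫_ℂ := by
    intro i v
    rw [Tt_apply, Q_apply, inner_sub_right, inner_smul_right,
      horth i e (Finset.mem_insert_self _ _), mul_zero, sub_zero]
    refine inner_Rc (fun k hk => ?_) v
    simp only [ex, hk, dif_pos]
    exact horth i _ (Finset.mem_insert_of_mem (Finset.mem_image_of_mem _ (Finset.mem_univ _)))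
  calc (n : ℝ) ≤ d := by exact_mod_cast h3
    _ = ∑ i : Fin d, ‖((f i : Wᗮ) : E)‖ ^ 2 := by
        have : ∀ i, ‖((f i : Wᗮ) : E)‖ = 1 := fun i => hf.1 i
        simp [this]
    _ = ∑ i : Fin d, ∑ u, ‖⟪((f i : Wᗮ) : E), b u⟫_ℂ‖ ^ 2 := by
        refine Finset.sum_congr rfl fun i _ => ?_
        rw [b.sum_sq_norm_inner_left]
    _ = ∑ u, ∑ i : Fin d, ‖⟪((f i : Wᗮ) : E), Tt e t (b u)⟫_ℂ‖ ^ 2 := by
        rw [Finset.sum_comm]
        simp_rw [hT]
    _ ≤ ∑ u, ‖Tt e t (b u)‖ ^ 2 := Finset.sum_le_sum fun u _ =>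
        hf.sum_inner_products_le _

end General

end Pool.Agent.Helper133.TP
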