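import Mathlib

/-!
# Unitizations of `c₀`-sums of algebras of fields
-/

open scoped ComplexOrder Topology ENNReal
open Filter

namespace Pool.Agent.Helper133.TP

noncomputable section

instance lpC {I : Type*} {A : I → Type*} [∀ i, Nontrivial (A i)] [∀ i, CStarAlgebra (A i)] :
    CStarAlgebra (lp A ∞) where

/-- Levels of an algebra. -/
structure Lev (Y : ℕ → Type) (B : ℕ → Type) [∀ n, CStarAlgebra (B n)] where
  /-- the spaces of fields -/
  S : ∀ n, Submodule ℂ (Y n → B n)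
  hmul : ∀ n, ∀ x ∈ S n, ∀ y ∈ S n, x * y ∈ S n
  hstar : ∀ n, ∀ x ∈ S n, star x ∈ S n
  hbdd : ∀ n, ∀ x ∈ S n, ∃ C, ∀ t, ‖x t‖ ≤ C

namespace Lev

variable {Y : ℕ → Type} {B : ℕ → Type} [∀ n, CStarAlgebra (B n)] [∀ n, Nontrivial (B n)]

/-- The ambient C*-algebra of all bounded fields. -/
abbrev D (Y : ℕ → Type) (B : ℕ → Type) [∀ n, CStarAlgebra (B n)] [∀ n, Nontrivial (B n)] :=
  lp (fun i : Σ n, Y n => B i.1) ∞

/-- Restriction of a field to a level. -/
def res (a : D Y B) (n : ℕ) : Y n → B n := fun t => a ⟨n, t⟩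

lemma res_mul (a b : D Y B) (n : ℕ) : res (a * b) n = res a n * res b n := rfl
lemma res_add (a b : D Y B) (n : ℕ) : res (a + b) n = res a n + res b n := rfl
lemma res_star (a : D Y B) (n : ℕ) : res (star a) n = star (res a n) := rfl
lemma res_smul (c : ℂ) (a : D Y B) (n : ℕ) : res (c • a) n = c • res a n := rfl
lemma res_one (n : ℕ) : res (1 : D Y B) n = 1 := rfl
lemma res_zero (n : ℕ) : res (0 : D Y B) n = 0 := rfl

lemma res_ext {a b : D Y B} (h : ∀ n, res a n = res b n) : a = b := by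
  refine lp.ext (funext fun i => ?_)
  exact congrFun (h i.1) i.2

lemma res_algebraMap (c : ℂ) (n : ℕ) : res (algebraMap ℂ (D Y B) c) n = c • 1 := by
  rw [Algebra.algebraMap_eq_smul_one]
  rfl

variable (L : Lev Y B)

/-- The dense subalgebra. -/
def A₀ : StarSubalgebra ℂ (D Y B) where
  carrier := {a | ∃ c : ℂ, (∀ n, res a n - c • 1 ∈ L.S n) ∧ ∃ N, ∀ n ≥ N, res a n = c • 1}
  mul_mem' := by
    rintro a b ⟨c, hc, N, hN⟩ ⟨d, hd, M, hM⟩
    refine ⟨c * d, fun n => ?_, max N M, fun n hn => ?_⟩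
    · have h1 : res (a * b) n - (c * d) • 1 = (res a n - c • 1) * (res b n - d • 1) +
          c • (res b n - d • 1) + d • (res a n - c • 1) := by
        rw [res_mul]
        simp only [mul_sub, sub_mul, smul_sub, mul_smul_comm, smul_mul_assoc, mul_one, one_mul,
          smul_smul, mul_comm d c]
        abel
      rw [h1]
      exact add_mem (add_mem (L.hmul n _ (hc n) _ (hd n)) (Submodule.smul_mem _ _ (hd n)))
        (Submodule.smul_mem _ _ (hc n))
    · rw [res_mul, hN n (le_of_max_le_left hn), hM n (le_of_max_le_right hn), smul_mul_smul_comm,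
        one_mul]
  add_mem' := by
    rintro a b ⟨c, hc, N, hN⟩ ⟨d, hd, M, hM⟩
    refine ⟨c + d, fun n => ?_, max N M, fun n hn => ?_⟩
    · have h1 : res (a + b) n - (c + d) • 1 = (res a n - c • 1) + (res b n - d • 1) := by
        rw [res_add, add_smul]
        abel
      rw [h1]
      exact add_mem (hc n) (hd n)
    · rw [res_add, hN n (le_of_max_le_left hn), hM n (le_of_max_le_right hn), add_smul]
  algebraMap_mem' := by
    intro c
    refine ⟨c, fun n => ?_, 0, fun n _ => res_algebraMap c n⟩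
    rw [res_algebraMap, sub_self]
    exact zero_mem _
  star_mem' := by
    rintro a ⟨c, hc, N, hN⟩
    refine ⟨star c, fun n => ?_, N, fun n hn => ?_⟩
    · have h1 : res (star a) n - (star c) • 1 = star (res a n - c • 1) := by
        rw [res_star, star_sub, star_smul, star_one]
      rw [h1]
      exact L.hstar n _ (hc n)
    · rw [res_star, hN n hn, star_smul, star_one]

/-- The completed algebra. -/
def AA : StarSubalgebra ℂ (D Y B) := L.A₀.topologicalClosure

/-- The completed algebra, as a type. -/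
abbrev CA : Type := L.AA

instance instCA : CStarAlgebra L.CA :=
  StarSubalgebra.cstarAlgebra L.AA
    (h_closed := StarSubalgebra.isClosed_topologicalClosure _)

/-- Evaluation. -/
def ev (n : ℕ) (t : Y n) : L.CA →⋆ₐ[ℂ] B n where
  toFun a := (a : D Y B) ⟨n, t⟩
  map_one' := rfl
  map_mul' _ _ := rfl
  map_zero' := rfl
  map_add' _ _ := rfl
  commutes' _ := rfl
  map_star' _ := rfl

lemma ev_apply (n : ℕ) (t : Y n) (a : L.CA) : L.ev n t a = res (a : D Y B) n t := rfl

lemma ev_ext {a b : L.CA} (h : ∀ n t, L.ev n t a = L.ev n t b) : a = b := by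
  apply Subtype.ext
  exact res_ext fun n => funext fun t => h n t

lemma nontrivial (t : Y 0) : Nontrivial L.CA := by
  refine ⟨⟨1, 0, fun h => ?_⟩⟩
  have h1 : L.ev 0 t 1 = L.ev 0 t 0 := by rw [h]
  rw [map_one, map_zero] at h1
  exact one_ne_zero h1

lemma norm_le {a : L.CA} {C : ℝ} (hC : 0 ≤ C) (h : ∀ n t, ‖L.ev n t a‖ ≤ C) : ‖a‖ ≤ C := by
  have : ‖a‖ = ‖(a : D Y B)‖ := rfl
  rw [this]
  refine lp.norm_le_of_forall_le hC fun i => ?_
  exact h i.1 i.2

lemma norm_ev_le (n : ℕ) (t : Y n) (a : L.CA) : ‖L.ev n t a‖ ≤ ‖a‖ :=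
  lp.norm_apply_le_norm (by simp) (a : D Y B) ⟨n, t⟩

/-- Approximation by elements of the dense subalgebra. -/
lemma approx (a : L.CA) {ε : ℝ} (hε : 0 < ε) : ∃ c : ℂ, ∀ n, ∃ x ∈ L.S n,
    ∀ t, ‖L.ev n t a - (c • 1 + x t)‖ < ε := by
  have h : (a : D Y B) ∈ closure (L.A₀ : Set (D Y B)) := a.2
  obtain ⟨b, ⟨c, hc, -⟩, hb⟩ := Metric.mem_closure_iff.1 h ε hε
  refine ⟨c, fun n => ⟨res b n - c • 1, hc n, fun t => ?_⟩⟩
  have h1 : c • 1 + (res b n - c • 1) t = res b n t := by
    rw [Pi.sub_apply, Pi.smul_apply, Pi.one_apply]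
    abel
  rw [h1]
  calc ‖L.ev n t a - res b n t‖ = ‖((a : D Y B) - b) ⟨n, t⟩‖ := rfl
    _ ≤ ‖(a : D Y B) - b‖ := lp.norm_apply_le_norm (by simp) _ _
    _ < ε := by rwa [← dist_eq_norm]

/-- Injection of a level. -/
def inj (n : ℕ) (x : Y n → B n) (hx : x ∈ L.S n) : D Y B :=
  ⟨fun i => (Pi.single n x : ∀ m, Y m → B m) i.1 i.2, by
    refine memℓp_infty ?_
    obtain ⟨C, hC⟩ := L.hbdd n x hx
    refine ⟨max C 0, ?_⟩
    rintro _ ⟨⟨m, t⟩, rfl⟩
    by_cases h : m = n
    · subst h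
      simp only [Pi.single_eq_same]
      exact (hC t).trans (le_max_left _ _)
    · simp only [Pi.single_eq_of_ne h, Pi.zero_apply, norm_zero]
      exact le_max_right _ _⟩

lemma res_inj (n : ℕ) (x : Y n → B n) (hx : x ∈ L.S n) (m : ℕ) :
    res (L.inj n x hx) m = (Pi.single n x : ∀ m, Y m → B m) m := rfl

lemma inj_mem (n : ℕ) (x : Y n → B n) (hx : x ∈ L.S n) : L.inj n x hx ∈ L.AA := by
  refine StarSubalgebra.le_topologicalClosure _ (show L.inj n x hx ∈ L.A₀ from ?_)
  refine ⟨0, fun m => ?_, n + 1, fun m hm => ?_⟩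
  · rw [res_inj, zero_smul, sub_zero]
    by_cases h : m = n
    · subst h
      rw [Pi.single_eq_same]
      exact hx
    · rw [Pi.single_eq_of_ne h]
      exact zero_mem _
  · rw [res_inj, Pi.single_eq_of_ne (by omega), zero_smul]

/-- Injection of a level in the algebra. -/
def J (n : ℕ) (x : Y n → B n) (hx : x ∈ L.S n) : L.CA := ⟨L.inj n x hx, L.inj_mem n x hx⟩

lemma ev_J_same (n : ℕ) (x : Y n → B n) (hx : x ∈ L.S n) (t : Y n) :
    L.ev n t (L.J n x hx) = x t := by
  rw [ev_apply]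
  show (Pi.single n x : ∀ m, Y m → B m) n t = x t
  rw [Pi.single_eq_same]

lemma ev_J_ne {n m : ℕ} (h : m ≠ n) (x : Y n → B n) (hx : x ∈ L.S n) (t : Y m) :
    L.ev m t (L.J n x hx) = 0 := by
  rw [ev_apply]
  show (Pi.single n x : ∀ m, Y m → B m) m t = 0
  rw [Pi.single_eq_of_ne h, Pi.zero_apply]

end Lev

end

end Pool.Agent.Helper133.TP
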