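import Mathlib
import Pool.Agent.Helper133.TP3
import Pool.Agent.Helper133.TP4
import Pool.Agent.Helper133.TP5

/-!
# The levels of the counterexample
-/

open scoped ComplexOrder Topology InnerProductSpace ENNReal
open Filter
open InnerProductSpace (rankOne)

set_option linter.unusedSectionVars false

namespace Pool.Agent.Helper133.TP

noncomputable section

/-- The data of level `n`. -/
structure LD (n : ℕ) (Y : Type) [TopologicalSpace Y] (E : Type) [NormedAddCommGroup E]
    [InnerProductSpace ℂ E] (κ : Type) [Fintype κ] where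
  /-- the distinguished vector -/
  e : E
  he : ‖e‖ = 1
  /-- an orthonormal basis -/
  b : OrthonormalBasis κ ℂ E
  /-- a field of contractions -/
  T : Y → (E →L[ℂ] E)
  T_cont : ∀ v, Continuous fun t => T t v
  T_le : ∀ t v, ‖T t v‖ ≤ ‖v‖
  T_e : ∀ t v, ⟪e, T t v⟫_ℂ = 0
  T_hs : ∀ t, (n : ℝ) ≤ ∑ u, ‖T t (b u)‖ ^ 2
  T_kill : ∀ w : Fin n → Y → E, (∀ i, Continuous (w i)) → ∀ ε > 0, ∃ t, ∀ i, ‖T t (w i t)‖ ≤ ε

namespace LD

variable {n : ℕ} {Y : Type} [TopologicalSpace Y] [CompactSpace Y] {E : Type}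
  [NormedAddCommGroup E] [InnerProductSpace ℂ E] [CompleteSpace E] {κ : Type} [Fintype κ]
  (L : LD n Y E κ)

lemma e_inner : ⟪L.e, L.e⟫_ℂ = 1 := by
  rw [inner_self_eq_norm_sq_to_K, L.he]; simp

lemma norm_b (u : κ) : ‖L.b u‖ = 1 := L.b.norm_eq_one u

/-- The generating vector fields. -/
def β : Option κ → C(Y, E)
  | none => ⟨fun _ => L.e, continuous_const⟩
  | some u => ⟨fun t => L.T t (L.b u), L.T_cont _⟩

lemma β_none (t : Y) : L.β none t = L.e := rfl

lemma β_some (u : κ) (t : Y) : L.β (some u) t = L.T t (L.b u) := rfl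

lemma β_norm_le (u) (t : Y) : ‖L.β u t‖ ≤ 1 := by
  cases u with
  | none => rw [β_none, L.he]
  | some u =>
    rw [β_some]
    exact (L.T_le t _).trans (by rw [L.norm_b])

/-- The generators of level `n`. -/
def g (f : C(Y, ℂ)) (u v : Option κ) : Y → (E →L[ℂ] E) :=
  fun t => f t • rankOne ℂ (L.β u t) (L.β v t)

lemma g_apply (f : C(Y, ℂ)) (u v) (t : Y) :
    L.g f u v t = f t • rankOne ℂ (L.β u t) (L.β v t) := rfl

/-- The algebra of level `n`, before completion. -/
def S₀ : Submodule ℂ (Y → (E →L[ℂ] E)) :=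
  Submodule.span ℂ {x | ∃ f u v, x = L.g f u v}

lemma g_mem (f : C(Y, ℂ)) (u v) : L.g f u v ∈ L.S₀ :=
  Submodule.subset_span ⟨f, u, v, rfl⟩

lemma g_mul (f f' : C(Y, ℂ)) (u v u' v') :
    L.g f u v * L.g f' u' v' =
      L.g (f * f' * ⟨fun t => ⟪L.β v t, L.β u' t⟫_ℂ, by fun_prop⟩) u v' := by
  funext t
  rw [Pi.mul_apply, g_apply, g_apply, g_apply, smul_mul_smul_comm, ContinuousLinearMap.mul_def,
    InnerProductSpace.rankOne_comp_rankOne, smul_smul]
  rfl

lemma g_star (f : C(Y, ℂ)) (u v) : star (L.g f u v) = L.g (star f) v u := by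
  funext t
  rw [Pi.star_apply, g_apply, g_apply, star_smul, ContinuousLinearMap.star_eq_adjoint,
    InnerProductSpace.adjoint_rankOne]
  rfl

lemma S₀_mul {x y : Y → (E →L[ℂ] E)} (hx : x ∈ L.S₀) (hy : y ∈ L.S₀) : x * y ∈ L.S₀ := by
  induction hx using Submodule.span_induction with
  | mem x hx =>
    obtain ⟨f, u, v, rfl⟩ := hx
    induction hy using Submodule.span_induction with
    | mem y hy =>
      obtain ⟨f', u', v', rfl⟩ := hy
      rw [g_mul]
      exact g_mem _ _ _ _
    | zero => rw [mul_zero]; exact zero_mem _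
    | add y z _ _ h1 h2 => rw [mul_add]; exact add_mem h1 h2
    | smul c y _ h => rw [mul_smul_comm]; exact Submodule.smul_mem _ _ h
  | zero => rw [zero_mul]; exact zero_mem _
  | add x z _ _ h1 h2 => rw [add_mul]; exact add_mem h1 h2
  | smul c x _ h => rw [smul_mul_assoc]; exact Submodule.smul_mem _ _ h

lemma S₀_star {x : Y → (E →L[ℂ] E)} (hx : x ∈ L.S₀) : star x ∈ L.S₀ := by
  induction hx using Submodule.span_induction with
  | mem x hx =>
    obtain ⟨f, u, v, rfl⟩ := hx
    rw [g_star]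
    exact g_mem _ _ _ _
  | zero => rw [star_zero]; exact zero_mem _
  | add x z _ _ h1 h2 => rw [star_add]; exact add_mem h1 h2
  | smul c x _ h => rw [star_smul]; exact Submodule.smul_mem _ _ h

lemma S₀_bdd {x : Y → (E →L[ℂ] E)} (hx : x ∈ L.S₀) : ∃ C, ∀ t, ‖x t‖ ≤ C := by
  induction hx using Submodule.span_induction with
  | mem x hx =>
    obtain ⟨f, u, v, rfl⟩ := hx
    refine ⟨‖f‖, fun t => ?_⟩
    rw [g_apply, norm_smul, InnerProductSpace.norm_rankOne]
    calc _ ≤ ‖f‖ * (1 * 1) := by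
          refine mul_le_mul (f.norm_coe_le_norm t) ?_ (by positivity) (norm_nonneg _)
          exact mul_le_mul (β_norm_le _ _ _) (β_norm_le _ _ _) (norm_nonneg _) zero_le_one
      _ = ‖f‖ := by ring
  | zero => exact ⟨0, fun t => by rw [Pi.zero_apply, norm_zero]⟩
  | add x z _ _ h1 h2 =>
    obtain ⟨C, hC⟩ := h1
    obtain ⟨D, hD⟩ := h2
    exact ⟨C + D, fun t => (norm_add_le _ _).trans (add_le_add (hC t) (hD t))⟩
  | smul c x _ h =>
    obtain ⟨C, hC⟩ := h
    exact ⟨‖c‖ * C, fun t => by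
      rw [Pi.smul_apply, norm_smul]
      exact mul_le_mul_of_nonneg_left (hC t) (norm_nonneg _)⟩

/-- The action of an element of the level algebra on the distinguished vector. -/
lemma S₀_e {x : Y → (E →L[ℂ] E)} (hx : x ∈ L.S₀) :
    ∃ (h : Y → ℂ) (w : Y → E), Continuous w ∧
      ∀ t, x t L.e = h t • L.e + L.T t (w t) := by
  induction hx using Submodule.span_induction with
  | mem x hx =>
    obtain ⟨f, u, v, rfl⟩ := hx
    cases v with
    | some v =>
      refine ⟨0, fun _ => 0, continuous_const, fun t => ?_⟩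
      have h0 : ⟪L.T t (L.b v), L.e⟫_ℂ = 0 := by
        rw [← inner_conj_symm, L.T_e, map_zero]
      rw [g_apply, smul_apply, InnerProductSpace.rankOne_apply, β_some, h0, map_zero]
      simp
    | none =>
      cases u with
      | none =>
        refine ⟨f, fun _ => 0, continuous_const, fun t => ?_⟩
        rw [g_apply, smul_apply, InnerProductSpace.rankOne_apply, β_none, e_inner, map_zero,
          one_smul, add_zero]
      | some u =>
        refine ⟨0, fun t => f t • L.b u, f.continuous.smul continuous_const, fun t => ?_⟩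
        rw [g_apply, smul_apply, InnerProductSpace.rankOne_apply, β_none, e_inner, β_some,
          one_smul, map_smul, Pi.zero_apply, zero_smul, zero_add]
  | zero => exact ⟨0, fun _ => 0, continuous_const, fun t => by simp⟩
  | add x z _ _ h1 h2 =>
    obtain ⟨h, w, hw, e1⟩ := h1
    obtain ⟨h', w', hw', e2⟩ := h2
    refine ⟨h + h', fun t => w t + w' t, hw.add hw', fun t => ?_⟩
    rw [Pi.add_apply, add_apply, e1, e2, map_add, Pi.add_apply, add_smul]
    abel
  | smul c x _ h =>
    obtain ⟨h, w, hw, e1⟩ := h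
    refine ⟨c • h, fun t => c • w t, hw.const_smul c, fun t => ?_⟩
    rw [Pi.smul_apply, smul_apply, e1, map_smul, Pi.smul_apply, smul_add, smul_eq_mul, mul_smul]

/-- The distinguished projection. -/
def pf : Y → (E →L[ℂ] E) := fun _ => rankOne ℂ L.e L.e

/-- The elements witnessing smallness in traces. -/
def af (u : κ) : Y → (E →L[ℂ] E) := fun t => rankOne ℂ (L.T t (L.b u)) L.e

/-- The auxiliary function. -/
def hf (t : Y) : ℝ := ∑ u, ‖L.T t (L.b u)‖ ^ 2

lemma hf_continuous : Continuous L.hf := by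
  unfold hf
  exact continuous_finsetSum _ fun u _ => ((L.T_cont (L.b u)).norm).pow 2

/-- The auxiliary element. -/
def cf : Y → (E →L[ℂ] E) := fun t => ((Real.sqrt (L.hf t - n) : ℝ) : ℂ) • rankOne ℂ L.e L.e

lemma pf_mem : L.pf ∈ L.S₀ := by
  have : L.pf = L.g 1 none none := by
    funext t
    rw [g_apply, ContinuousMap.one_apply, one_smul]
    rfl
  rw [this]
  exact L.g_mem _ _ _

lemma af_mem (u : κ) : L.af u ∈ L.S₀ := by
  have : L.af u = L.g 1 (some u) none := by
    funext t
    rw [g_apply, ContinuousMap.one_apply, one_smul]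
    rfl
  rw [this]
  exact L.g_mem _ _ _

lemma cf_mem : L.cf ∈ L.S₀ := by
  have : L.cf = L.g ⟨fun t => ((Real.sqrt (L.hf t - n) : ℝ) : ℂ),
      Complex.continuous_ofReal.comp (Real.continuous_sqrt.comp
        (L.hf_continuous.sub continuous_const))⟩ none none := rfl
  rw [this]
  exact L.g_mem _ _ _

lemma pf_star (t : Y) : star (L.pf t) = L.pf t := by
  rw [pf, ContinuousLinearMap.star_eq_adjoint, InnerProductSpace.adjoint_rankOne]

lemma pf_mul (t : Y) : L.pf t * L.pf t = L.pf t := by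
  rw [pf, ContinuousLinearMap.mul_def, InnerProductSpace.rankOne_comp_rankOne, e_inner, one_smul]

lemma pf_e (t : Y) : L.pf t L.e = L.e := by
  rw [pf, InnerProductSpace.rankOne_apply, e_inner, one_smul]

lemma af_mul_star (t : Y) :
    ∑ u, L.af u t * star (L.af u t) = L.T t * star (L.T t) := by
  have h1 : ∀ u, L.af u t * star (L.af u t) = rankOne ℂ (L.T t (L.b u)) (L.T t (L.b u)) := by
    intro u
    rw [af, ContinuousLinearMap.star_eq_adjoint, InnerProductSpace.adjoint_rankOne,
      ContinuousLinearMap.mul_def, InnerProductSpace.rankOne_comp_rankOne, e_inner, one_smul]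
  simp_rw [h1]
  ext v
  rw [sum_apply]
  simp_rw [InnerProductSpace.rankOne_apply]
  show _ = L.T t ((ContinuousLinearMap.adjoint (L.T t)) v)
  conv_rhs => rw [← L.b.sum_repr' ((ContinuousLinearMap.adjoint (L.T t)) v)]
  rw [map_sum]
  refine Finset.sum_congr rfl fun u _ => ?_
  rw [map_smul, ContinuousLinearMap.adjoint_inner_right]

lemma norm_T_le (t : Y) : ‖L.T t‖ ≤ 1 :=
  ContinuousLinearMap.opNorm_le_bound _ zero_le_one fun v => by
    rw [one_mul]; exact L.T_le t v

lemma norm_sum_le (t : Y) : ‖∑ u, L.af u t * star (L.af u t)‖ ≤ 1 := by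
  rw [af_mul_star, CStarRing.norm_self_mul_star]
  exact mul_le_one₀ (L.norm_T_le t) (norm_nonneg _) (L.norm_T_le t)

lemma sum_star_mul (t : Y) :
    ∑ u, star (L.af u t) * L.af u t = (n : ℂ) • L.pf t + star (L.cf t) * L.cf t := by
  have h1 : ∀ u, star (L.af u t) * L.af u t =
      ((‖L.T t (L.b u)‖ ^ 2 : ℝ) : ℂ) • rankOne ℂ L.e L.e := by
    intro u
    rw [af, ContinuousLinearMap.star_eq_adjoint, InnerProductSpace.adjoint_rankOne,
      ContinuousLinearMap.mul_def, InnerProductSpace.rankOne_comp_rankOne,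
      inner_self_eq_norm_sq_to_K]
    push_cast
    rfl
  have h2 : star (L.cf t) * L.cf t = ((L.hf t - n : ℝ) : ℂ) • rankOne ℂ L.e L.e := by
    rw [cf, star_smul, ContinuousLinearMap.star_eq_adjoint, InnerProductSpace.adjoint_rankOne,
      smul_mul_smul_comm, ContinuousLinearMap.mul_def, InnerProductSpace.rankOne_comp_rankOne,
      e_inner, one_smul]
    congr 1
    have : star ((Real.sqrt (L.hf t - n) : ℝ) : ℂ) = ((Real.sqrt (L.hf t - n) : ℝ) : ℂ) :=
      Complex.conj_ofReal _
    rw [this, ← Complex.ofReal_mul, Real.mul_self_sqrt]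
    have := L.T_hs t
    rw [hf]
    linarith
  simp_rw [h1]
  rw [h2, pf, ← Finset.sum_smul, ← add_smul]
  congr 1
  rw [← Complex.ofReal_sum, ← hf]
  push_cast
  ring

end LD

section Fam

variable {Y : ℕ → Type} [∀ n, TopologicalSpace (Y n)] [∀ n, CompactSpace (Y n)]
  {E : ℕ → Type} [∀ n, NormedAddCommGroup (E n)] [∀ n, InnerProductSpace ℂ (E n)]
  [∀ n, CompleteSpace (E n)] [∀ n, Nontrivial (E n)] {κ : ℕ → Type} [∀ n, Fintype (κ n)]
  (L : ∀ n, LD n (Y n) (E n) (κ n))

/-- The levels. -/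
def lev : Lev Y (fun n => E n →L[ℂ] E n) where
  S n := (L n).S₀
  hmul n _ hx _ hy := (L n).S₀_mul hx hy
  hstar n _ hx := (L n).S₀_star hx
  hbdd n _ hx := (L n).S₀_bdd hx

/-- The algebra. -/
abbrev Alg := (lev L).CA

lemma kill (F : Finset (Alg L)) (n : ℕ) (hF : F.card ≤ n) {ε : ℝ} (hε : 0 < ε) :
    ∃ t : Y n, ∀ x ∈ F, ‖(lev L).ev n t x (L n).e -
      ⟪(L n).e, (lev L).ev n t x (L n).e⟫_ℂ • (L n).e‖ ≤ ε := by
  classical
  have h1 : ∀ x : Alg L, ∃ (h : Y n → ℂ) (w : Y n → E n), Continuous w ∧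
      ∀ t, ‖(lev L).ev n t x (L n).e - h t • (L n).e - (L n).T t (w t)‖ ≤ ε / 2 := by
    intro x
    obtain ⟨c, hc⟩ := (lev L).approx x (half_pos hε)
    obtain ⟨y, hy, hxy⟩ := hc n
    obtain ⟨h, w, hw, e1⟩ := (L n).S₀_e hy
    refine ⟨fun t => c + h t, w, hw, fun t => ?_⟩
    have e2 : (lev L).ev n t x (L n).e - (c + h t) • (L n).e - (L n).T t (w t) =
        ((lev L).ev n t x - (c • 1 + y t)) (L n).e := by
      rw [sub_apply, add_apply, smul_apply, one_apply_eq_self, e1, add_smul]
      abel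
    rw [e2]
    calc _ ≤ ‖(lev L).ev n t x - (c • 1 + y t)‖ * ‖(L n).e‖ := ContinuousLinearMap.le_opNorm _ _
      _ = ‖(lev L).ev n t x - (c • 1 + y t)‖ := by rw [(L n).he, mul_one]
      _ ≤ ε / 2 := (hxy t).le
  choose h w hw hx using h1
  let φ := F.equivFin
  obtain ⟨t, ht⟩ := (L n).T_kill
    (fun i => if hi : (i : ℕ) < F.card then w (φ.symm ⟨i, hi⟩) else fun _ => 0) (by
      intro i
      by_cases hi : (i : ℕ) < F.card
      · simp only [hi, dif_pos]
        exact hw _
      · simp only [hi, dif_neg, not_false_eq_true]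
        exact continuous_const) (ε / 2) (half_pos hε)
  refine ⟨t, fun x hxF => ?_⟩
  have h2 : ‖(L n).T t (w x t)‖ ≤ ε / 2 := by
    have hi := (φ ⟨x, hxF⟩).2
    have := ht ⟨φ ⟨x, hxF⟩, hi.trans_le hF⟩
    simp only [hi, dif_pos] at this
    simpa using this
  set v := (lev L).ev n t x (L n).e with hv
  have h3 : ‖v - h x t • (L n).e‖ ≤ ε := by
    have e3 : v - h x t • (L n).e = (v - h x t • (L n).e - (L n).T t (w x t)) +
        (L n).T t (w x t) := by abel
    rw [e3]
    refine (norm_add_le _ _).trans ?_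
    linarith [hx x t]
  have e4 : v - ⟪(L n).e, v⟫_ℂ • (L n).e = Q (L n).e (v - h x t • (L n).e) := by
    rw [Q_apply, inner_sub_right, inner_smul_right, (L n).e_inner, mul_one, sub_smul]
    abel
  rw [e4]
  exact (Q_norm_le _ (L n).he.le).trans h3

/-- The model. -/
def model : Model (Alg L) Y E κ where
  π n t := (lev L).ev n t
  e n := (L n).e
  he n := (L n).he
  p n := (lev L).J n (L n).pf (L n).pf_mem
  p_star n := by
    refine (lev L).ev_ext fun m t => ?_
    rw [map_star]
    by_cases h : m = n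
    · subst h
      rw [(lev L).ev_J_same, (L m).pf_star]
    · rw [(lev L).ev_J_ne h, star_zero]
  p_mul n m := by
    refine (lev L).ev_ext fun k t => ?_
    rw [map_mul]
    by_cases h : k = n
    · subst h
      by_cases h2 : k = m
      · subst h2
        rw [if_pos rfl, (lev L).ev_J_same, (L k).pf_mul]
      · rw [if_neg h2, (lev L).ev_J_ne h2, mul_zero, map_zero]
    · rw [(lev L).ev_J_ne h, zero_mul]
      split_ifs with h3
      · rw [(lev L).ev_J_ne h]
      · rw [map_zero]
  π_p n m t := by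
    by_cases h : n = m
    · subst h
      rw [if_pos rfl, (lev L).ev_J_same, (L n).pf_e]
    · rw [if_neg h, (lev L).ev_J_ne h, zero_apply]
  a n u := (lev L).J n ((L n).af u) ((L n).af_mem u)
  c n := (lev L).J n (L n).cf (L n).cf_mem
  norm_le J := by
    refine (lev L).norm_le zero_le_one fun m t => ?_
    rw [map_sum]
    simp_rw [map_sum, map_mul, map_star]
    have h1 : ∀ n ∈ J, n ≠ m → ∑ u, (lev L).ev m t ((lev L).J n ((L n).af u) ((L n).af_mem u)) *
        star ((lev L).ev m t ((lev L).J n ((L n).af u) ((L n).af_mem u))) = 0 := by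
      intro n _ hn
      refine Finset.sum_eq_zero fun u _ => ?_
      rw [(lev L).ev_J_ne hn.symm, zero_mul]
    by_cases hm : m ∈ J
    · rw [Finset.sum_eq_single_of_mem m hm h1]
      simp_rw [(lev L).ev_J_same]
      exact (L m).norm_sum_le t
    · rw [Finset.sum_eq_zero (fun n hn => h1 n hn (fun h => hm (h ▸ hn))), norm_zero]
      exact zero_le_one
  sum_eq n := by
    refine (lev L).ev_ext fun m t => ?_
    rw [map_sum, map_add, map_smul, map_mul, map_star]
    simp_rw [map_mul, map_star]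
    by_cases h : m = n
    · subst h
      simp_rw [(lev L).ev_J_same]
      exact (L m).sum_star_mul t
    · simp_rw [(lev L).ev_J_ne h]
      simp
  kill F n hF ε hε := kill L F n hF hε

end Fam

end

end Pool.Agent.Helper133.TP
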