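import Mathlib
import Pool.Agent.Helper133.TP6

/-!
# The trace problem: the main theorem for abstract level data
-/

open scoped Topology
open Filter

namespace Pool.Agent.Helper133.TP

variable {Y : ℕ → Type} [∀ n, TopologicalSpace (Y n)] [∀ n, CompactSpace (Y n)]
  {E : ℕ → Type} [∀ n, NormedAddCommGroup (E n)] [∀ n, InnerProductSpace ℂ (E n)]
  [∀ n, CompleteSpace (E n)] [∀ n, Nontrivial (E n)] [∀ n, FiniteDimensional ℂ (E n)]
  {κ : ℕ → Type} [∀ n, Fintype (κ n)]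

theorem main (L : ∀ n, LD n (Y n) (E n) (κ n)) (t₀ : Y 0) :
    ∃ (A : Type) (_ : CStarAlgebra A), (T A).Nonempty ∧ IsCompact (T A) ∧
    ∃ Φ : Completion A →ₗ[ℂ] ℂ, IsTrace Φ ∧ ¬ TwoContinuous Φ ∧
      ¬ ∃ τ ∈ T A, ∀ x : CauchySeqs A,
        Tendsto (fun k => τ ((x : ℕ → A) k)) atTop (𝓝 (Φ (cls x))) := by
  have := (lev L).nontrivial t₀
  refine ⟨Alg L, inferInstance, ?_, isCompact_T, (model L).Φ, (model L).Φ_isTrace,
    (model L).Φ_not_continuous, ?_⟩
  · exact ⟨_, rtr_mem ((lev L).ev 0 t₀)⟩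
  · rintro ⟨τ, hτ, h⟩
    have h1 := h ((model L).seq 1)
    rw [Model.Φ_cls, Model.chi_seq] at h1
    have h2 : ∀ k, (τ (((model L).seq 1 : ℕ → Alg L) k)).re ≤ 1 / 2 := by
      intro k
      have h3 := (model L).tr_P_le hτ (N := 2) (J := Finset.Ico (1 + 1) (1 + 1 + k))
        (fun n hn => (Finset.mem_Ico.1 hn).1)
      rw [Model.seq_apply]
      rw [lin_apply] at h3
      push_cast at h3
      linarith
    have h4 : (1 : ℂ).re ≤ 1 / 2 :=
      le_of_tendsto ((Complex.continuous_re.tendsto _).comp h1) (Eventually.of_forall h2)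
    norm_num at h4

end Pool.Agent.Helper133.TP
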